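import Pool.Agent.H4.LG.Stm
import Pool.Graph.R_pool_sql_team_seeded_3997aac3.Q176.UM.UGB

set_option autoImplicit false

/-!
Project LG, module CELL: mean squares of cell sums over the zeros.
-/

namespace Pool.Agent.H4.LG

open Filter Topology MeasureTheory Complex
open scoped ComplexConjugate
open Pool.Agent.Q97.UM

noncomputable section

namespace CELL

/-- the window -/
def Wn (T : ℝ) : Set ℝ := Set.Icc (T / 4) (8 * T)

open Classical in
/-- the cell sum, zero outside the window -/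
def Sj (δ T u : ℝ) : ℝ := if u ∈ Wn T then SS δ T u else 0

theorem Sj_nonneg (δ T u : ℝ) : 0 ≤ Sj δ T u := by
  unfold Sj
  split_ifs
  · exact Pool.Agent.Q176.UM.SS_nonneg δ T u
  · exact le_rfl

/-- a zero in its cell -/
theorem term_le {δ T t : ℝ} (hT : 16 ≤ T) (hL : 1 ≤ Real.log T) (s : ℂ) (hs1 : T + 1 < s.im)
    (hs2 : s.im ≤ 2 * T - 1) :
    (t + (⌊Real.log T * (s.im - t)⌋ : ℝ) / Real.log T) ∈ Wn T ∧
    Real.exp (2 * δ * (Real.log T * |s.re - 1 / 2|)) ≤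
      4 * (Real.exp (2 * δ * (Real.log T * |s.re - 1 / 2|)) /
        (1 + Real.log T * |s.im - (t + (⌊Real.log T * (s.im - t)⌋ : ℝ) / Real.log T)|) ^ 2) := by
  set L := Real.log T with hLd
  have hL0 : 0 < L := by linarith
  set x := L * (s.im - t) with hx
  have h1 := Int.floor_le x
  have h2 := Int.lt_floor_add_one x
  have hxt : t + x / L = s.im := by rw [hx]; field_simp; ring
  have h1' : (⌊x⌋ : ℝ) / L ≤ x / L := by gcongr
  have h2' : x / L - 1 ≤ (⌊x⌋ : ℝ) / L := by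
    rw [le_div_iff₀ hL0, sub_mul, div_mul_cancel₀ _ hL0.ne']
    linarith
  refine ⟨⟨by linarith, by linarith⟩, ?_⟩
  have h3 : L * |s.im - (t + (⌊x⌋ : ℝ) / L)| ≤ 1 := by
    have e : s.im - (t + (⌊x⌋ : ℝ) / L) = (x - ⌊x⌋) / L := by
      rw [sub_div, ← hxt]; ring
    rw [e, abs_div, abs_of_pos hL0, mul_div_cancel₀ _ hL0.ne', abs_of_nonneg (by linarith)]
    linarith
  have h4 : 0 ≤ L * |s.im - (t + (⌊x⌋ : ℝ) / L)| := by positivity
  have h5 : (1 + L * |s.im - (t + (⌊x⌋ : ℝ) / L)|) ^ 2 ≤ 4 := by nlinarith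
  rw [← mul_div_assoc, le_div_iff₀ (by positivity), mul_comm]
  gcongr

/-- the sum over the zeros is bounded by the sum over the cells -/
theorem cells {δ T t : ℝ} (hT : 16 ≤ T) (hL : 1 ≤ Real.log T) (ht1 : T ≤ t) (ht2 : t ≤ 2 * T)
    (M : ℤ) (hM : T * Real.log T ≤ M) (r : ℤ → ℝ) (hr : ∀ j, 0 ≤ r j) :
    ∑ s ∈ ZT T, (mz s : ℝ) * (r ⌊Real.log T * (s.im - t)⌋ *
      Real.exp (2 * δ * (Real.log T * |s.re - 1 / 2|))) ≤
      4 * ∑ j ∈ Finset.Icc (-M) M, r j * Sj δ T (t + (j : ℝ) / Real.log T) := by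
  classical
  set L := Real.log T with hLd
  have hL0 : 0 < L := by linarith
  set τ : ℂ → ℤ → ℝ := fun s j => if t + (j : ℝ) / L ∈ Wn T then
    (mz s : ℝ) * (Real.exp (2 * δ * (L * |s.re - 1 / 2|)) / (1 + L * |s.im - (t + (j : ℝ) / L)|) ^ 2)
    else 0 with hτ
  have hτ0 : ∀ s j, 0 ≤ τ s j := by
    intro s j
    simp only [hτ]
    split_ifs
    · positivity
    · exact le_rfl
  have h1 : ∀ s ∈ ZT T, (mz s : ℝ) * (r ⌊L * (s.im - t)⌋ *
      Real.exp (2 * δ * (L * |s.re - 1 / 2|))) ≤ 4 * ∑ j ∈ Finset.Icc (-M) M, r j * τ s j := by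
    intro s hs
    have hs' := hs
    unfold ZT at hs'
    rw [H370.mem_Zf H370.good_zeta (by linarith)] at hs'
    obtain ⟨-, -, a3, a4, -⟩ := hs'
    obtain ⟨b1, b2⟩ := term_le (δ := δ) (t := t) hT hL s a3 a4
    rw [← hLd] at b1 b2
    have hmem : ⌊L * (s.im - t)⌋ ∈ Finset.Icc (-M) M := by
      have c1 : L * (s.im - t) ≤ T * L := by
        rw [mul_comm T L]
        exact mul_le_mul_of_nonneg_left (by linarith) hL0.le
      have c2 : -(T * L) ≤ L * (s.im - t) := by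
        have : L * (-(T)) ≤ L * (s.im - t) := mul_le_mul_of_nonneg_left (by linarith) hL0.le
        linarith
      rw [Finset.mem_Icc]
      constructor
      · rw [Int.le_floor]
        push_cast
        linarith
      · have c3 := Int.floor_le (L * (s.im - t))
        exact_mod_cast c3.trans (c1.trans hM)
    have h2 : r ⌊L * (s.im - t)⌋ * τ s ⌊L * (s.im - t)⌋ ≤
        ∑ j ∈ Finset.Icc (-M) M, r j * τ s j :=
      Finset.single_le_sum (f := fun j => r j * τ s j)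
        (fun j _ => mul_nonneg (hr j) (hτ0 s j)) hmem
    have h3 : τ s ⌊L * (s.im - t)⌋ = (mz s : ℝ) * (Real.exp (2 * δ * (L * |s.re - 1 / 2|)) /
        (1 + L * |s.im - (t + (⌊L * (s.im - t)⌋ : ℝ) / L)|) ^ 2) := by
      simp only [hτ]
      rw [if_pos b1]
    rw [h3] at h2
    have h4 : 0 ≤ (mz s : ℝ) * r ⌊L * (s.im - t)⌋ := mul_nonneg (Nat.cast_nonneg _) (hr _)
    have h5 := mul_le_mul_of_nonneg_left b2 h4
    nlinarith
  refine (Finset.sum_le_sum h1).trans ?_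
  rw [← Finset.mul_sum, Finset.sum_comm]
  refine mul_le_mul_of_nonneg_left (Finset.sum_le_sum fun j _ => ?_) (by norm_num)
  rw [← Finset.mul_sum]
  refine mul_le_mul_of_nonneg_left ?_ (hr j)
  unfold Sj
  by_cases hu : t + (j : ℝ) / L ∈ Wn T
  · rw [if_pos hu]
    unfold SS
    refine le_trans (le_of_eq ?_) (Finset.sum_le_sum_of_subset_of_nonneg
      (Pool.Agent.Q176.UM.ZT_sub hT) fun s _ _ => Pool.Agent.Q176.UM.SS_term_nonneg _ _ s)
    refine Finset.sum_congr rfl fun s _ => ?_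
    simp only [hτ]
    rw [if_pos hu]
  · rw [if_neg hu]
    refine le_of_eq (Finset.sum_eq_zero fun s _ => ?_)
    simp only [hτ]
    rw [if_neg hu]

/-- the shifted coefficients -/
def bs (b : ℕ → ℂ) (y : ℝ) : ℕ → ℂ := fun n => b n * (n : ℂ) ^ (y * I)

/-- the integrand of a cell -/
def Hj (δ T : ℝ) (N : ℕ) (b : ℕ → ℂ) (y : ℝ) : ℝ → ℝ :=
  (Wn T).indicator fun u => SS δ T u ^ 2 * ‖dp N (bs b y) u‖ ^ 2

theorem dp_shift (N : ℕ) (b : ℕ → ℂ) (t y : ℝ) : dp N (bs b y) (t + y) = dp N b t := by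
  have h := (Pool.Agent.Q84.UM.t_DPM.2.1 N b (t + y) y).1
  rw [add_sub_cancel_right] at h
  exact h.symm

theorem N2_shift (N : ℕ) (b : ℕ → ℂ) (y : ℝ) : N2 N (bs b y) = N2 N b :=
  (Pool.Agent.Q84.UM.t_DPM.2.1 N b 0 y).2

theorem cont_dp (N : ℕ) (b : ℕ → ℂ) : Continuous (dp N b) := (Pool.Agent.Q84.UM.t_DPM.2.2 N b 0).2

theorem Hj_eq (δ T : ℝ) (N : ℕ) (b : ℕ → ℂ) (t y : ℝ) :
    Hj δ T N b y (t + y) = Sj δ T (t + y) ^ 2 * ‖dp N b t‖ ^ 2 := by
  classical
  unfold Hj Sj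
  by_cases hu : t + y ∈ Wn T
  · rw [Set.indicator_of_mem hu, if_pos hu, dp_shift]
  · rw [Set.indicator_of_notMem hu, if_neg hu]
    ring

theorem Hj_nonneg (δ T : ℝ) (N : ℕ) (b : ℕ → ℂ) (y u : ℝ) : 0 ≤ Hj δ T N b y u :=
  Set.indicator_nonneg (fun _ _ => by positivity) _

theorem Hj_int (δ : ℝ) {T : ℝ} (hT : 1 ≤ T) (N : ℕ) (b : ℕ → ℂ) (y : ℝ) :
    Integrable (Hj δ T N b y) := by
  unfold Hj Wn
  rw [integrable_indicator_iff measurableSet_Icc]
  exact (((Pool.Agent.Q176.UM.SS_cont δ hT).pow 2).mul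
    ((cont_dp N _).norm.pow 2)).continuousOn.integrableOn_Icc

theorem Hj_val (δ : ℝ) {T : ℝ} (hT : 1 ≤ T) (N : ℕ) (b : ℕ → ℂ) (y : ℝ) :
    ∫ u, Hj δ T N b y u = ∫ u in (T / 4)..(8 * T), SS δ T u ^ 2 * ‖dp N (bs b y) u‖ ^ 2 := by
  unfold Hj Wn
  rw [integral_indicator measurableSet_Icc, integral_Icc_eq_integral_Ioc,
    intervalIntegral.integral_of_le (by linarith)]

end CELL

open CELL

theorem t_CELL : S_CELL := by
  obtain ⟨θ₀, c, C₀, hθ, hθ1, hc, hC₀, hT⟩ := b_TAIL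
  set δ : ℝ := min (c / 48) (1 / 2) with hδ
  have hδ0 : 0 < δ := lt_min (by positivity) (by norm_num)
  have hδ1 : δ ≤ c / 48 := min_le_left _ _
  have hδ2 : δ ≤ 1 / 2 := min_le_right _ _
  obtain ⟨C', hC', hS⟩ := b_STM θ₀ c C₀ hθ hθ1 hc hC₀ hT 2 δ hδ0 (by push_cast; linarith)
  refine ⟨min (θ₀ / 2) (1 / 40), 2 * δ, 16 * C', lt_min (by positivity) (by norm_num),
    min_le_right _ _, by positivity, by linarith, by positivity, ?_⟩
  have hl4 : ∀ᶠ T : ℝ in atTop, 4 * Real.log T ≤ T := by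
    have h2 : Tendsto (fun M : ℝ => Real.log M / M) atTop (𝓝 0) :=
      Real.isLittleO_log_id_atTop.tendsto_div_nhds_zero
    filter_upwards [h2.eventually_le_const (show (0:ℝ) < 1 / 4 by positivity),
      eventually_ge_atTop (1:ℝ)] with M h3 h4
    rw [div_le_iff₀ (by linarith)] at h3
    linarith
  filter_upwards [hS, hl4, eventually_ge_atTop (16 : ℝ),
    Real.tendsto_log_atTop.eventually_ge_atTop 1] with T hST hl hT16 hL
  intro N hN b r R hr hR f hf
  set L := Real.log T with hLd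
  have hL0 : 0 < L := by linarith
  have hT1 : (1 : ℝ) ≤ T := by linarith
  have hN' : (N : ℝ) ≤ T ^ (θ₀ / 2) :=
    hN.trans (Real.rpow_le_rpow_of_exponent_le hT1 (min_le_left _ _))
  have hR0 : 0 ≤ R := by
    have := hR ∅
    rwa [Finset.sum_empty] at this
  have hN20 : 0 ≤ N2 N b := by
    unfold N2
    exact Finset.sum_nonneg fun n _ => by positivity
  have hab : T + 2 * L ≤ 2 * T - 2 * L := by linarith
  by_cases hint : IntervalIntegrable (fun t => f t ^ 2 * ‖dp N b t‖ ^ 2) volume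
      (T + 2 * L) (2 * T - 2 * L)
  swap
  · rw [intervalIntegral.integral_undef hint]
    positivity
  obtain ⟨M, hM⟩ : ∃ M : ℤ, T * L ≤ M := ⟨⌈T * L⌉, Int.le_ceil _⟩
  set J := Finset.Icc (-M) M with hJ
  set G : ℝ → ℝ := fun t => ∑ j ∈ J, 16 * R * r j * Hj δ T N b ((j : ℝ) / L) (t + (j : ℝ) / L)
    with hG
  have hpt : ∀ t ∈ Set.Icc (T + 2 * L) (2 * T - 2 * L), f t ^ 2 * ‖dp N b t‖ ^ 2 ≤ G t := by
    intro t ht
    have h1 := (hf t ht.1 ht.2).trans
      (cells (δ := δ) (t := t) hT16 hL (by linarith [ht.1]) (by linarith [ht.2]) M hM r hr)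
    have h2 : f t ^ 2 ≤ 16 * (∑ j ∈ J, r j * Sj δ T (t + (j : ℝ) / L)) ^ 2 := by
      calc f t ^ 2 = |f t| ^ 2 := (sq_abs _).symm
        _ ≤ (4 * ∑ j ∈ J, r j * Sj δ T (t + (j : ℝ) / L)) ^ 2 :=
          pow_le_pow_left₀ (abs_nonneg _) h1 2
        _ = _ := by ring
    have h3 : (∑ j ∈ J, r j * Sj δ T (t + (j : ℝ) / L)) ^ 2 ≤
        R * ∑ j ∈ J, r j * Sj δ T (t + (j : ℝ) / L) ^ 2 := by
      refine (Finset.sum_sq_le_sum_mul_sum_of_sq_le_mul J (fun j _ => hr j)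
        (fun j _ => mul_nonneg (hr j) (sq_nonneg (Sj δ T (t + (j : ℝ) / L))))
        (fun j _ => le_of_eq (by ring))).trans ?_
      exact mul_le_mul_of_nonneg_right (hR J)
        (Finset.sum_nonneg fun j _ => mul_nonneg (hr j) (sq_nonneg _))
    calc f t ^ 2 * ‖dp N b t‖ ^ 2 ≤
        16 * (R * ∑ j ∈ J, r j * Sj δ T (t + (j : ℝ) / L) ^ 2) * ‖dp N b t‖ ^ 2 := by
          gcongr
          linarith
      _ = G t := by
          simp only [hG]
          rw [Finset.mul_sum, Finset.mul_sum, Finset.sum_mul]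
          refine Finset.sum_congr rfl fun j _ => ?_
          rw [Hj_eq]
          ring
  have hii : ∀ j ∈ J, IntervalIntegrable (fun t => 16 * R * r j *
      Hj δ T N b ((j : ℝ) / L) (t + (j : ℝ) / L)) volume (T + 2 * L) (2 * T - 2 * L) := by
    intro j _
    exact (((Hj_int δ hT1 N b _).comp_add_right ((j : ℝ) / L)).const_mul _).intervalIntegrable
  have hGi : IntervalIntegrable G volume (T + 2 * L) (2 * T - 2 * L) := by
    have hGI : Integrable G := by
      simp only [hG]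
      exact integrable_finsetSum J fun j _ =>
        ((Hj_int δ hT1 N b _).comp_add_right ((j : ℝ) / L)).const_mul _
    exact hGI.intervalIntegrable
  refine (intervalIntegral.integral_mono_on hab hint hGi hpt).trans ?_
  simp only [hG]
  rw [intervalIntegral.integral_finsetSum hii]
  have hone : ∀ j ∈ J, ∫ t in (T + 2 * L)..(2 * T - 2 * L), 16 * R * r j *
      Hj δ T N b ((j : ℝ) / L) (t + (j : ℝ) / L) ≤ 16 * R * r j * (C' * T * N2 N b) := by
    intro j _
    rw [intervalIntegral.integral_const_mul]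
    refine mul_le_mul_of_nonneg_left ?_ (mul_nonneg (by positivity) (hr j))
    rw [intervalIntegral.integral_of_le hab]
    refine (setIntegral_le_integral ((Hj_int δ hT1 N b _).comp_add_right _)
      (Eventually.of_forall fun t => Hj_nonneg _ _ _ _ _ _)).trans ?_
    rw [integral_add_right_eq_self (fun u => Hj δ T N b ((j : ℝ) / L) u), Hj_val δ hT1]
    refine (hST N hN' (bs b ((j : ℝ) / L))).trans ?_
    rw [N2_shift]
  refine (Finset.sum_le_sum hone).trans ?_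
  rw [← Finset.sum_mul, ← Finset.mul_sum]
  have h6 : 16 * R * ∑ j ∈ J, r j ≤ 16 * R * R := mul_le_mul_of_nonneg_left (hR J) (by positivity)
  have h7 : 0 ≤ C' * T * N2 N b := by positivity
  calc 16 * R * (∑ j ∈ J, r j) * (C' * T * N2 N b) ≤ 16 * R * R * (C' * T * N2 N b) :=
        mul_le_mul_of_nonneg_right h6 h7
    _ = _ := by ring

end

end Pool.Agent.H4.LG
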