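import Pool.Agent.H4.LG.Up

set_option autoImplicit false

/-! The mean square of the statistic is bounded below. -/

namespace Pool.Agent.H4.LG

open Filter Topology MeasureTheory Complex
open scoped ComplexConjugate
open Pool.Agent.Q97.UM

noncomputable section

/-- the centred statistic -/
def Xt (ψ : ℝ → ℝ) (T t : ℝ) : ℝ := Yt ψ T t - mu ψ

/-- the shifted coefficients -/
def bs (b : ℕ → ℂ) (y : ℝ) (n : ℕ) : ℂ := b n * (n : ℂ) ^ (y * I)

lemma bs_dp (N : ℕ) (b : ℕ → ℂ) (t y : ℝ) : dp N b (t - y) = dp N (bs b y) t := (Pool.Agent.Q84.UM.t_DPM.2.1 N b t y).1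

lemma bs_N2 (N : ℕ) (b : ℕ → ℂ) (y : ℝ) : N2 N (bs b y) = N2 N b := (Pool.Agent.Q84.UM.t_DPM.2.1 N b 0 y).2

lemma dp_sub (N : ℕ) (b c : ℕ → ℂ) (t : ℝ) : dp N (fun n => b n - c n) t = dp N b t - dp N c t := by
  unfold dp
  rw [← Finset.sum_sub_distrib]
  exact Finset.sum_congr rfl fun n _ => by ring

lemma bs_sub {N : ℕ} (b : ℕ → ℂ) {y E : ℝ} (hE : |y| * Real.log N ≤ E) : N2 N (fun n => bs b y n - b n) ≤ E ^ 2 * N2 N b := by
  unfold N2
  rw [Finset.mul_sum]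
  refine Finset.sum_le_sum fun n hn => ?_
  rw [Finset.mem_Icc] at hn
  have hn1 : (1 : ℝ) ≤ n := by exact_mod_cast hn.1
  have hnN : (n : ℝ) ≤ N := by exact_mod_cast hn.2
  have hlog : 0 ≤ Real.log n := Real.log_nonneg hn1
  have e1 : (n : ℂ) ^ (y * I) = cexp (I * ((y * Real.log n : ℝ) : ℂ)) := by
    rw [Complex.cpow_def_of_ne_zero (by exact_mod_cast (by omega : n ≠ 0)), ← Complex.natCast_log]
    congr 1
    push_cast
    ring
  have h1 : ‖(n : ℂ) ^ (y * I) - 1‖ ≤ E := by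
    rw [e1]
    refine Real.norm_exp_I_mul_ofReal_sub_one_le.trans ?_
    rw [Real.norm_eq_abs, abs_mul, abs_of_nonneg hlog]
    exact (mul_le_mul_of_nonneg_left (Real.log_le_log (by linarith) hnN) (abs_nonneg _)).trans hE
  have h2 : ‖bs b y n - b n‖ ≤ E * ‖b n‖ := by
    have e : bs b y n - b n = b n * ((n : ℂ) ^ (y * I) - 1) := by unfold bs; ring
    rw [e, norm_mul, mul_comm]
    exact mul_le_mul_of_nonneg_right h1 (norm_nonneg _)
  have h3 : ‖bs b y n - b n‖ ^ 2 ≤ (E * ‖b n‖) ^ 2 := pow_le_pow_left₀ (norm_nonneg _) h2 2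
  calc ‖bs b y n - b n‖ ^ 2 / n ≤ (E * ‖b n‖) ^ 2 / n := by gcongr
    _ = _ := by ring

/-- a bounded measurable function times the weight is integrable -/
lemma ii {f : ℝ → ℝ} (hf : Measurable f) {B : ℝ} (hB : ∀ t, |f t| ≤ B) {g : ℝ → ℝ} (hg : Continuous g) (a b : ℝ) :
    IntervalIntegrable (fun t => f t * g t) volume a b := by
  rw [intervalIntegrable_iff]
  have h2 : IntegrableOn g (Set.uIoc a b) := (hg.intervalIntegrable a b).def'
  exact Integrable.bdd_mul (c := B) h2 hf.aestronglyMeasurable (Filter.Eventually.of_forall fun t => hB t)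

lemma Xt_meas {V Q : ℝ} {ψ : ℝ → ℝ} (hp : PF V Q ψ) (T : ℝ) : Measurable (Xt ψ T) := (Yt_meas hp T).sub_const _

lemma Xt_bdd {V Q : ℝ} {ψ : ℝ → ℝ} (hp : PF V Q ψ) (T t : ℝ) : |Xt ψ T t| ≤ ∑ s ∈ ZT T, (mz s : ℝ) * Q + |mu ψ| := by
  unfold Xt
  exact (abs_sub _ _).trans (add_le_add (Yt_bdd hp T t) le_rfl)

lemma Xt_sq_bdd {V Q : ℝ} {ψ : ℝ → ℝ} (hp : PF V Q ψ) (T t : ℝ) : |Xt ψ T t ^ 2| ≤ (∑ s ∈ ZT T, (mz s : ℝ) * Q + |mu ψ|) ^ 2 := by
  rw [abs_pow]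
  exact pow_le_pow_left₀ (abs_nonneg _) (Xt_bdd hp T t) 2

/-- shifts of the statistic, upper bound -/
theorem xup : ∃ θ : ℝ, 0 < θ ∧ θ ≤ 1 / 40 ∧ ∀ (V Q : ℝ) (ψ : ℝ → ℝ), 1 ≤ V → 1 ≤ Q → PF V Q ψ → ∃ C : ℝ, 0 < C ∧
    ∀ᶠ T : ℝ in atTop, ∀ N : ℕ, (N : ℝ) ≤ T ^ θ → ∀ (b : ℕ → ℂ) (x x' y : ℝ), T ≤ x → x ≤ x' → x' ≤ 2 * T →
      ∫ t in x..x', Xt ψ T (t + y) ^ 2 * ‖dp N b t‖ ^ 2 ≤ C * (T * N2 N b) := by
  obtain ⟨θ, hθ0, hθ1, h⟩ := up
  refine ⟨θ, hθ0, hθ1, fun V Q ψ hV hQ hp => ?_⟩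
  obtain ⟨C, hC, h⟩ := h V Q ψ hV hQ hp 2 (by norm_num)
  refine ⟨2 * C + 4 * mu ψ ^ 2 + 1, by positivity, ?_⟩
  filter_upwards [h, eventually_ge_atTop (16 : ℝ), Real.tendsto_log_atTop.eventually_ge_atTop V] with T h hT hLV N hN b x x' y hx hxx hx'
  have hTN : 0 ≤ T * N2 N b := mul_nonneg (by linarith) (N2_nn _ _)
  have hN4 : (N : ℝ) ≤ T ^ (1 / 4 : ℝ) := hN.trans (Real.rpow_le_rpow_of_exponent_le (by linarith) (by linarith))
  have hW : Continuous (fun t => ‖dp N b t‖ ^ 2) := (dp_c N b).norm.pow 2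
  have hYm := Yt_meas hp T
  have hYs : Measurable (fun t => Yt ψ T (t + y) ^ 2) := ((hYm.comp (by fun_prop)).pow_const 2)
  have hYb : ∀ t, |Yt ψ T (t + y) ^ 2| ≤ (∑ s ∈ ZT T, (mz s : ℝ) * Q) ^ 2 := fun t => by
    rw [abs_pow]; exact pow_le_pow_left₀ (abs_nonneg _) (Yt_bdd hp T _) 2
  have i1 : IntervalIntegrable (fun t => Yt ψ T (t + y) ^ 2 * ‖dp N b t‖ ^ 2) volume x x' := ii hYs hYb hW _ _
  have i2 : IntervalIntegrable (fun t => ‖dp N b t‖ ^ 2) volume x x' := hW.intervalIntegrable _ _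
  have i3 : IntervalIntegrable (fun t => Xt ψ T (t + y) ^ 2 * ‖dp N b t‖ ^ 2) volume x x' :=
    ii (((Xt_meas hp T).comp (by fun_prop)).pow_const 2) (fun t => Xt_sq_bdd hp T _) hW _ _
  have h1 : ∫ t in x..x', Xt ψ T (t + y) ^ 2 * ‖dp N b t‖ ^ 2 ≤
      ∫ t in x..x', (2 * (Yt ψ T (t + y) ^ 2 * ‖dp N b t‖ ^ 2) + 2 * mu ψ ^ 2 * ‖dp N b t‖ ^ 2) := by
    refine intervalIntegral.integral_mono_on hxx i3 ((i1.const_mul 2).add (i2.const_mul _)) fun t _ => ?_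
    have h2 : Xt ψ T (t + y) ^ 2 ≤ 2 * Yt ψ T (t + y) ^ 2 + 2 * mu ψ ^ 2 := by
      unfold Xt
      nlinarith [sq_nonneg (Yt ψ T (t + y) + mu ψ)]
    have := mul_le_mul_of_nonneg_right h2 (sq_nonneg ‖dp N b t‖)
    nlinarith
  rw [intervalIntegral.integral_add (i1.const_mul 2) (i2.const_mul _), intervalIntegral.integral_const_mul,
    intervalIntegral.integral_const_mul] at h1
  have h2 : ∫ t in x..x', ‖dp N b t‖ ^ 2 ≤ 2 * T * N2 N b := by
    have h3 : ∫ t in x..x', ‖dp N b t‖ ^ 2 ≤ ∫ t in T..(2 * T), ‖dp N b t‖ ^ 2 :=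
      intervalIntegral.integral_mono_interval hx hxx hx' (Filter.Eventually.of_forall fun t => sq_nonneg _) (hW.intervalIntegrable _ _)
    exact h3.trans (Pool.Agent.Q84.UM.t_MVL T hT N hN4 b).2
  -- the shift
  have h3 : ∫ t in x..x', Yt ψ T (t + y) ^ 2 * ‖dp N b t‖ ^ 2 ≤ C * (T * N2 N b) := by
    obtain ⟨F, hF⟩ : ∃ F : ℝ → ℝ, F = fun t => |Yt ψ T t| ^ 2 * ‖dp N (bs b y) t‖ ^ 2 := ⟨_, rfl⟩
    have hF0 : ∀ t, 0 ≤ F t := fun t => by rw [hF]; positivity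
    have hW' : Continuous (fun t => ‖dp N (bs b y) t‖ ^ 2) := (dp_c N _).norm.pow 2
    have e1 : ∫ t in x..x', Yt ψ T (t + y) ^ 2 * ‖dp N b t‖ ^ 2 = ∫ t in (x + y)..(x' + y), F t := by
      rw [← intervalIntegral.integral_comp_add_right (fun t => F t) y]
      congr 1
      funext t
      rw [hF]
      simp only
      rw [sq_abs, ← bs_dp, add_sub_cancel_right]
    have hFz : ∀ t, t ∉ Set.Icc T (2 * T) → F t = 0 := by
      intro t ht
      rw [hF]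
      simp only
      rw [Yt_zero hp hT hLV]
      · simp
      · by_contra hcon
        rw [not_or, not_lt, not_lt] at hcon
        exact ht ⟨hcon.1, hcon.2⟩
    have hFe : F = (Set.Icc T (2 * T)).indicator F := by
      funext t
      by_cases ht : t ∈ Set.Icc T (2 * T)
      · rw [Set.indicator_of_mem ht]
      · rw [Set.indicator_of_notMem ht, hFz t ht]
    have hFion : IntegrableOn F (Set.Icc T (2 * T)) := by
      rw [integrableOn_Icc_iff_integrableOn_Ioc, ← intervalIntegrable_iff_integrableOn_Ioc_of_le (by linarith), hF]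
      exact ii (B := (∑ s ∈ ZT T, (mz s : ℝ) * Q) ^ 2) ((_root_.continuous_abs.measurable.comp hYm).pow_const 2) (fun t => by
        show |(|Yt ψ T t|) ^ 2| ≤ _
        rw [abs_pow, abs_abs]; exact pow_le_pow_left₀ (abs_nonneg _) (Yt_bdd hp T t) 2) hW' _ _
    have hFi : Integrable F := by
      rw [hFe]
      exact (integrable_indicator_iff measurableSet_Icc).2 hFion
    rw [e1, intervalIntegral.integral_of_le (by linarith)]
    have h4 : ∫ t in Set.Ioc (x + y) (x' + y), F t ≤ ∫ t, F t := setIntegral_le_integral hFi (Filter.Eventually.of_forall hF0)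
    have h5 : ∫ t, F t = ∫ t in T..(2 * T), F t := by
      conv_lhs => rw [hFe]
      rw [integral_indicator measurableSet_Icc, integral_Icc_eq_integral_Ioc, ← intervalIntegral.integral_of_le (by linarith)]
    have h6 := h N hN (bs b y)
    rw [bs_N2] at h6
    calc _ ≤ _ := h4
      _ = _ := h5
      _ ≤ _ := by rw [hF]; exact h6
  have h7 : 0 ≤ mu ψ ^ 2 := sq_nonneg _
  nlinarith

/-- small shifts -/
lemma xsmall {V Q : ℝ} {ψ : ℝ → ℝ} (hp : PF V Q ψ) {T C E : ℝ} {N : ℕ} (hT : 16 ≤ T)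
    (hC : ∀ (b : ℕ → ℂ) (x x' y : ℝ), T ≤ x → x ≤ x' → x' ≤ 2 * T → ∫ t in x..x', Xt ψ T (t + y) ^ 2 * ‖dp N b t‖ ^ 2 ≤ C * (T * N2 N b))
    (hC0 : 0 < C) (b : ℕ → ℂ) {x x' y : ℝ} (hxx : x ≤ x') (h1 : T ≤ x + y) (h2 : x' + y ≤ 2 * T) (hE : |y| * Real.log N ≤ E) :
    ∫ t in x..x', Xt ψ T (t + y) ^ 2 * ‖dp N b t‖ ^ 2 ≤ 2 * (∫ t in T..(2 * T), Xt ψ T t ^ 2 * ‖dp N b t‖ ^ 2) + 2 * C * E ^ 2 * (T * N2 N b) := by
  have hXm := Xt_meas hp T
  have iall : ∀ (c : ℕ → ℂ) (u v : ℝ), IntervalIntegrable (fun t => Xt ψ T t ^ 2 * ‖dp N c t‖ ^ 2) volume u v := fun c u v =>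
    ii (hXm.pow_const 2) (Xt_sq_bdd hp T) ((dp_c N c).norm.pow 2) _ _
  have e1 : ∫ t in x..x', Xt ψ T (t + y) ^ 2 * ‖dp N b t‖ ^ 2 = ∫ t in (x + y)..(x' + y), Xt ψ T t ^ 2 * ‖dp N (bs b y) t‖ ^ 2 := by
    rw [← intervalIntegral.integral_comp_add_right (fun t => Xt ψ T t ^ 2 * ‖dp N (bs b y) t‖ ^ 2) y]
    congr 1
    funext t
    rw [← bs_dp, add_sub_cancel_right]
  rw [e1]
  have h3 : ∫ t in (x + y)..(x' + y), Xt ψ T t ^ 2 * ‖dp N (bs b y) t‖ ^ 2 ≤ ∫ t in T..(2 * T), Xt ψ T t ^ 2 * ‖dp N (bs b y) t‖ ^ 2 :=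
    intervalIntegral.integral_mono_interval h1 (by linarith) h2 (Filter.Eventually.of_forall fun t => by positivity) (iall _ _ _)
  have h4 : ∫ t in T..(2 * T), Xt ψ T t ^ 2 * ‖dp N (bs b y) t‖ ^ 2 ≤
      ∫ t in T..(2 * T), (2 * (Xt ψ T t ^ 2 * ‖dp N b t‖ ^ 2) + 2 * (Xt ψ T t ^ 2 * ‖dp N (fun n => bs b y n - b n) t‖ ^ 2)) := by
    refine intervalIntegral.integral_mono_on (by linarith) (iall _ _ _) (((iall _ _ _).const_mul 2).add ((iall _ _ _).const_mul 2)) fun t _ => ?_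
    have h5 : ‖dp N (bs b y) t‖ ^ 2 ≤ 2 * ‖dp N b t‖ ^ 2 + 2 * ‖dp N (fun n => bs b y n - b n) t‖ ^ 2 := by
      rw [dp_sub]
      have h6 := norm_add_le (dp N b t) (dp N (bs b y) t - dp N b t)
      rw [add_sub_cancel] at h6
      have h7 := pow_le_pow_left₀ (norm_nonneg _) h6 2
      nlinarith [sq_nonneg (‖dp N b t‖ - ‖dp N (bs b y) t - dp N b t‖)]
    have := mul_le_mul_of_nonneg_left h5 (sq_nonneg (Xt ψ T t))
    nlinarith
  rw [intervalIntegral.integral_add ((iall _ _ _).const_mul 2) ((iall _ _ _).const_mul 2), intervalIntegral.integral_const_mul,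
    intervalIntegral.integral_const_mul] at h4
  have h5 := hC (fun n => bs b y n - b n) T (2 * T) 0 le_rfl (by linarith) le_rfl
  simp only [add_zero] at h5
  have h6 := bs_sub b hE
  have h7 : C * (T * N2 N (fun n => bs b y n - b n)) ≤ C * (T * (E ^ 2 * N2 N b)) :=
    mul_le_mul_of_nonneg_left (mul_le_mul_of_nonneg_left h6 (by linarith)) hC0.le
  nlinarith

/-- Cauchy-Schwarz with a weight -/
lemma cs {g : ℝ → ℂ} (hg : Integrable g) {X : ℝ → ℝ} (hX : Measurable X) {B : ℝ} (hB : ∀ t, |X t| ≤ B) :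
    ‖∫ y, g y * (X y : ℂ)‖ ^ 2 ≤ (∫ y, ‖g y‖) * ∫ y, ‖g y‖ * X y ^ 2 := by
  have i0 : Integrable (fun y => ‖g y‖) := hg.norm
  have i1 : Integrable (fun y => ‖g y‖ * |X y|) := by
    have := Integrable.bdd_mul (c := B) i0 (_root_.continuous_abs.measurable.comp hX).aestronglyMeasurable
      (Filter.Eventually.of_forall fun t => by
        show ‖|X t|‖ ≤ B
        rw [Real.norm_eq_abs, abs_abs]; exact hB t)
    exact this.congr (Filter.Eventually.of_forall fun y => mul_comm _ _)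
  have i2 : Integrable (fun y => ‖g y‖ * X y ^ 2) := by
    have := Integrable.bdd_mul (c := B ^ 2) i0 (hX.pow_const 2).aestronglyMeasurable
      (Filter.Eventually.of_forall fun t => by
        rw [Real.norm_eq_abs, abs_pow]; exact pow_le_pow_left₀ (abs_nonneg _) (hB t) 2)
    exact this.congr (Filter.Eventually.of_forall fun y => mul_comm _ _)
  obtain ⟨G, hG⟩ : ∃ G, G = ∫ y, ‖g y‖ := ⟨_, rfl⟩
  obtain ⟨S, hS⟩ : ∃ S, S = ∫ y, ‖g y‖ * |X y| := ⟨_, rfl⟩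
  obtain ⟨P, hP⟩ : ∃ P, P = ∫ y, ‖g y‖ * X y ^ 2 := ⟨_, rfl⟩
  have hG0 : 0 ≤ G := by rw [hG]; exact integral_nonneg fun y => norm_nonneg _
  have hS0 : 0 ≤ S := by rw [hS]; exact integral_nonneg fun y => by positivity
  have hP0 : 0 ≤ P := by rw [hP]; exact integral_nonneg fun y => by positivity
  have h1 : ‖∫ y, g y * (X y : ℂ)‖ ≤ S := by
    rw [hS]
    refine (norm_integral_le_integral_norm _).trans (le_of_eq ?_)
    congr 1
    funext y
    rw [norm_mul, Complex.norm_real, Real.norm_eq_abs]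
  have h2 : ∀ a : ℝ, 0 ≤ P - 2 * a * S + a ^ 2 * G := by
    intro a
    have h3 : 0 ≤ ∫ y, ‖g y‖ * (|X y| - a) ^ 2 := integral_nonneg fun y => by positivity
    have e : ∫ y, ‖g y‖ * (|X y| - a) ^ 2 = P - 2 * a * S + a ^ 2 * G := by
      have e1 : (fun y => ‖g y‖ * (|X y| - a) ^ 2) = fun y => ‖g y‖ * X y ^ 2 - 2 * a * (‖g y‖ * |X y|) + a ^ 2 * ‖g y‖ := by
        funext y
        have := sq_abs (X y)
        calc ‖g y‖ * (|X y| - a) ^ 2 = ‖g y‖ * |X y| ^ 2 - 2 * a * (‖g y‖ * |X y|) + a ^ 2 * ‖g y‖ := by ring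
          _ = _ := by rw [this]
      have ia : Integrable (fun y => ‖g y‖ * X y ^ 2 - 2 * a * (‖g y‖ * |X y|)) := i2.sub (i1.const_mul _)
      rw [e1, integral_add ia (i0.const_mul _), integral_sub i2 (i1.const_mul _), integral_const_mul,
        integral_const_mul, ← hG, ← hS, ← hP]
    rwa [e] at h3
  have h4 : S ^ 2 ≤ G * P := by
    rcases hG0.lt_or_eq with h | h
    · have h5 := h2 (S / G)
      have e : P - 2 * (S / G) * S + (S / G) ^ 2 * G = P - S ^ 2 / G := by field_simp; ring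
      rw [e] at h5
      have h6 : S ^ 2 / G ≤ P := by linarith
      rw [div_le_iff₀ h] at h6
      linarith
    · rw [← h] at h2 ⊢
      by_contra hcon
      rw [zero_mul, not_le] at hcon
      have hS1 : 0 < S := by
        rcases hS0.lt_or_eq with h7 | h7
        · exact h7
        · rw [← h7] at hcon; norm_num at hcon
      have h8 := h2 ((P + 1) / (2 * S))
      have e : P - 2 * ((P + 1) / (2 * S)) * S + ((P + 1) / (2 * S)) ^ 2 * 0 = -1 := by field_simp; ring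
      rw [e] at h8
      linarith
  rw [← hG, ← hP]
  exact (pow_le_pow_left₀ (norm_nonneg _) h1 2).trans h4

end

end Pool.Agent.H4.LG
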