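import Pool.Agent.H4.LG.Cnv

set_option autoImplicit false

/-! The mean square of the statistic is bounded below. -/

namespace Pool.Agent.H4.LG

open Filter Topology MeasureTheory Complex
open scoped ComplexConjugate
open Pool.Agent.Q97.UM

noncomputable section

/-- the smoothed statistic is a convolution -/
lemma Ac_eq {V Q : ℝ} {ψ w : ℝ → ℝ} (hp : PF V Q ψ) {lam T : ℝ} (hL : 0 < Real.log T)
    (hg : Integrable (fun y : ℝ => GG w ((lam * y : ℝ) : ℂ))) (h0 : ∫ y : ℝ, GG w ((lam * y : ℝ) : ℂ) = 0) (t : ℝ) :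
    Ac ψ w lam T t = ∫ y : ℝ, GG w ((lam * y : ℝ) : ℂ) * ((Xt ψ T (t + y / Real.log T) : ℝ) : ℂ) := by
  have hph : ∀ x : ℝ, ph ψ w lam x = ∫ y : ℝ, GG w ((lam * y : ℝ) : ℂ) * (ψ (x - y) : ℂ) := by
    intro x
    unfold ph
    have h1 := integral_sub_left_eq_self (μ := volume) (fun v : ℝ => (ψ v : ℂ) * GG w ((lam * (x - v) : ℝ) : ℂ)) x
    rw [← h1]
    refine integral_congr_ae (Filter.Eventually.of_forall fun y => ?_)
    simp only
    rw [sub_sub_cancel, mul_comm]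
  have hin : ∀ x : ℝ, Integrable (fun y : ℝ => GG w ((lam * y : ℝ) : ℂ) * (ψ (x - y) : ℂ)) := by
    intro x
    have := Integrable.bdd_mul (c := Q) hg (f := fun y : ℝ => (ψ (x - y) : ℂ))
      ((Complex.measurable_ofReal.comp (hp.meas.comp (by fun_prop))).aestronglyMeasurable)
      (Filter.Eventually.of_forall fun y => by
        rw [Complex.norm_real, Real.norm_eq_abs]; exact hp.bd _)
    exact this.congr (Filter.Eventually.of_forall fun y => mul_comm _ _)
  have h2 : Ac ψ w lam T t = ∫ y : ℝ, GG w ((lam * y : ℝ) : ℂ) * ((Yt ψ T (t + y / Real.log T) : ℝ) : ℂ) := by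
    unfold Ac
    have e1 : ∑ s ∈ ZT T, (mz s : ℂ) * ph ψ w lam (Real.log T * (s.im - t)) =
        ∑ s ∈ ZT T, ∫ y : ℝ, (mz s : ℂ) * (GG w ((lam * y : ℝ) : ℂ) * (ψ (Real.log T * (s.im - t) - y) : ℂ)) := by
      refine Finset.sum_congr rfl fun s _ => ?_
      rw [hph, integral_const_mul]
    rw [e1, ← integral_finset_sum _ (fun s _ => (hin _).const_mul _)]
    refine integral_congr_ae (Filter.Eventually.of_forall fun y => ?_)
    simp only
    unfold Yt
    push_cast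
    rw [Finset.mul_sum]
    refine Finset.sum_congr rfl fun s _ => ?_
    have e2 : Real.log T * (s.im - (t + y / Real.log T)) = Real.log T * (s.im - t) - y := by
      field_simp
      ring
    rw [e2]
    ring
  have hYi : Integrable (fun y : ℝ => GG w ((lam * y : ℝ) : ℂ) * ((Yt ψ T (t + y / Real.log T) : ℝ) : ℂ)) := by
    have := Integrable.bdd_mul (c := ∑ s ∈ ZT T, (mz s : ℝ) * Q) hg (f := fun y : ℝ => ((Yt ψ T (t + y / Real.log T) : ℝ) : ℂ))
      ((Complex.measurable_ofReal.comp ((Yt_meas hp T).comp (by fun_prop))).aestronglyMeasurable)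
      (Filter.Eventually.of_forall fun y => by
        rw [Complex.norm_real, Real.norm_eq_abs]; exact Yt_bdd hp T _)
    exact this.congr (Filter.Eventually.of_forall fun y => mul_comm _ _)
  have h3 : ∫ y : ℝ, GG w ((lam * y : ℝ) : ℂ) * ((Xt ψ T (t + y / Real.log T) : ℝ) : ℂ) =
      (∫ y : ℝ, GG w ((lam * y : ℝ) : ℂ) * ((Yt ψ T (t + y / Real.log T) : ℝ) : ℂ)) - (∫ y : ℝ, GG w ((lam * y : ℝ) : ℂ)) * (mu ψ : ℂ) := by
    rw [← integral_mul_const, ← integral_sub hYi (hg.mul_const _)]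
    refine integral_congr_ae (Filter.Eventually.of_forall fun y => ?_)
    simp only
    unfold Xt
    push_cast
    ring
  rw [h3, h0, zero_mul, sub_zero, h2]

/-- the tail of an integrable function -/
lemma tail {g : ℝ → ℂ} (hg : Integrable g) {ε : ℝ} (hε : 0 < ε) : ∃ U : ℝ, 0 < U ∧ ∫ y in {y : ℝ | U < |y|}, ‖g y‖ ≤ ε := by
  have h1 : Tendsto (fun n : ℕ => ∫ y in {y : ℝ | (n : ℝ) < |y|}, ‖g y‖) atTop (𝓝 (∫ y in ⋂ n : ℕ, {y : ℝ | (n : ℝ) < |y|}, ‖g y‖)) := by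
    apply tendsto_setIntegral_of_antitone
    · intro n
      exact measurableSet_lt measurable_const _root_.continuous_abs.measurable
    · intro m n hmn y hy
      simp only [Set.mem_ofPred_eq] at hy ⊢
      exact lt_of_le_of_lt (by exact_mod_cast hmn) hy
    · exact ⟨0, hg.norm.integrableOn⟩
  have h2 : (⋂ n : ℕ, {y : ℝ | (n : ℝ) < |y|}) = ∅ := by
    ext y
    simp only [Set.mem_iInter, Set.mem_ofPred_eq, Set.mem_empty_iff_false, iff_false, not_forall, not_lt]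
    exact exists_nat_ge _
  rw [h2, Measure.restrict_empty, integral_zero_measure] at h1
  obtain ⟨n, hn⟩ := ((h1.eventually (gt_mem_nhds hε)).and (eventually_gt_atTop 0)).exists
  exact ⟨n, by exact_mod_cast hn.2, hn.1.le⟩

/-- **the mean square of the statistic** -/
theorem x2 (hDIL : S_DIL) (hLOW : S_LOW) (hPRO : S_PRO) (hCELL : S_CELL) (hSUM : S_SUM) (hSYM : S_SYM) (hINV : S_INV)
    {V Q : ℝ} {ψ : ℝ → ℝ} (hp : PF V Q ψ) (hV : 1 ≤ V) (hQ : 1 ≤ Q) (hint : ∫ v, ψ v ≠ 0) :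
    ∃ c θ : ℝ, 0 < c ∧ 0 < θ ∧ θ ≤ 1 / 40 ∧ ∀ᶠ T : ℝ in atTop, ∀ N : ℕ, (N : ℝ) ≤ T ^ θ → ∀ b : ℕ → ℂ,
        c * (T * N2 N b) ≤ ∫ t in T..(2 * T), Xt ψ T t ^ 2 * ‖dp N b t‖ ^ 2 := by
  obtain ⟨w, δ, H, C, C₁, lam, θ₁, hw, hδ0, hδ1, hH, hC, hC₁, hGc, hGb, hlam0, hlam1, hθ₁0, hθ₁1, hlow⟩ :=
    low2 hDIL hLOW hPRO hCELL hSUM hSYM hp hV hQ hint
  obtain ⟨θ₂, hθ₂0, hθ₂1, hup⟩ := xup
  obtain ⟨Cx, hCx, hup⟩ := hup V Q ψ hV hQ hp
  obtain ⟨hGi, hG0⟩ := hINV δ H C 2 w hδ0 hδ1 hH hC le_rfl hw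
  obtain ⟨g, hgd⟩ : ∃ g : ℝ → ℂ, g = fun y : ℝ => GG w ((lam * y : ℝ) : ℂ) := ⟨_, rfl⟩
  have hg : Integrable g := by
    rw [hgd]
    exact hGi.comp_mul_left' hlam0.ne'
  have hg0 : ∫ y, g y = 0 := by
    rw [hgd]
    have h1 := Measure.integral_comp_mul_left (fun x : ℝ => GG w (x : ℂ)) lam
    rw [hG0, smul_zero] at h1
    exact h1
  have hgc : Continuous g := by
    rw [hgd]
    exact hGc.comp (by fun_prop)
  obtain ⟨G, hG⟩ : ∃ G, G = ∫ y, ‖g y‖ := ⟨_, rfl⟩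
  have hGn : 0 ≤ G := by rw [hG]; exact integral_nonneg fun y => norm_nonneg _
  obtain ⟨U, hU0, hU⟩ := tail hg (show 0 < 1 / (4 * Cx * (G + 1)) by positivity)
  obtain ⟨E, hE⟩ : ∃ E, E = 1 / (8 * Cx * (G + 1) ^ 2) := ⟨_, rfl⟩
  have hE0 : 0 < E := by rw [hE]; positivity
  obtain ⟨θ₃, hθ₃⟩ : ∃ θ₃, θ₃ = min 1 E / (U + 1) := ⟨_, rfl⟩
  have hθ₃0 : 0 < θ₃ := by rw [hθ₃]; positivity
  have hUθ : U * θ₃ ≤ min 1 E := by
    rw [hθ₃, ← mul_div_assoc, div_le_iff₀ (by positivity)]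
    have : 0 < min 1 E := by positivity
    nlinarith
  refine ⟨1 / (4 * (G + 1) ^ 2), min (min θ₁ θ₂) θ₃, by positivity, by positivity,
    (min_le_left _ _).trans ((min_le_left _ _).trans hθ₁1), ?_⟩
  have hlog4 : ∀ᶠ T : ℝ in atTop, 4 * Real.log T ≤ T := by
    have := Real.isLittleO_log_id_atTop.bound (show (0 : ℝ) < 1 / 4 by norm_num)
    filter_upwards [this, eventually_ge_atTop (1 : ℝ)] with T h hT
    rw [id, Real.norm_eq_abs, Real.norm_eq_abs, abs_of_nonneg (by linarith : 0 ≤ T)] at h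
    have := le_abs_self (Real.log T)
    linarith
  filter_upwards [hlow, hup, hlog4, Real.tendsto_log_atTop.eventually_ge_atTop (max 1 U), eventually_ge_atTop (16 : ℝ)]
    with T hlow hup hlog4 hLU hT N hN b
  have hL1 : 1 ≤ Real.log T := (le_max_left _ _).trans hLU
  have hLU : U ≤ Real.log T := (le_max_right _ _).trans hLU
  have hT1 : (1 : ℝ) ≤ T := by linarith
  have hN1 : (N : ℝ) ≤ T ^ θ₁ := hN.trans (Real.rpow_le_rpow_of_exponent_le hT1 ((min_le_left _ _).trans (min_le_left _ _)))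
  have hN2 : (N : ℝ) ≤ T ^ θ₂ := hN.trans (Real.rpow_le_rpow_of_exponent_le hT1 ((min_le_left _ _).trans (min_le_right _ _)))
  have hN3 : (N : ℝ) ≤ T ^ θ₃ := hN.trans (Real.rpow_le_rpow_of_exponent_le hT1 (min_le_right _ _))
  replace hlow := hlow N hN1 b
  replace hup := hup N hN2
  obtain ⟨L, hL⟩ : ∃ L, L = Real.log T := ⟨_, rfl⟩
  rw [← hL] at hlow hlog4 hL1 hLU
  have hL0 : 0 < L := by linarith
  obtain ⟨x, hx⟩ : ∃ x, x = T + 2 * L := ⟨_, rfl⟩
  obtain ⟨x', hx'⟩ : ∃ x', x' = 2 * T - 2 * L := ⟨_, rfl⟩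
  rw [← hx, ← hx'] at hlow
  have hxx : x ≤ x' := by rw [hx, hx']; linarith
  have hxT : T ≤ x := by rw [hx]; linarith
  have hxT' : x' ≤ 2 * T := by rw [hx']; linarith
  have hTN : 0 ≤ T * N2 N b := mul_nonneg (by linarith) (N2_nn _ _)
  obtain ⟨M, hM⟩ : ∃ M, M = ∫ t in T..(2 * T), Xt ψ T t ^ 2 * ‖dp N b t‖ ^ 2 := ⟨_, rfl⟩
  rw [← hM]
  have hM0 : 0 ≤ M := by
    rw [hM]
    exact intervalIntegral.integral_nonneg (by linarith) fun t _ => by positivity
  have hW : Continuous (fun t => ‖dp N b t‖ ^ 2) := (dp_c N b).norm.pow 2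
  have hXm := Xt_meas hp T
  obtain ⟨B, hB⟩ : ∃ B, B = ∑ s ∈ ZT T, (mz s : ℝ) * Q + |mu ψ| := ⟨_, rfl⟩
  have hXB : ∀ t, |Xt ψ T t| ≤ B := fun t => by rw [hB]; exact Xt_bdd hp T t
  -- the inner integrals
  obtain ⟨Jy, hJy⟩ : ∃ Jy : ℝ → ℝ, Jy = fun y => ∫ t in Set.Ioc x x', Xt ψ T (t + y / L) ^ 2 * ‖dp N b t‖ ^ 2 := ⟨_, rfl⟩
  have hJ1 : ∀ y, Jy y ≤ Cx * (T * N2 N b) := by
    intro y
    rw [hJy]
    simp only
    rw [← intervalIntegral.integral_of_le hxx]
    exact hup b x x' (y / L) hxT hxx hxT'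
  have hJ2 : ∀ y, |y| ≤ U → Jy y ≤ 2 * M + 2 * Cx * (U * θ₃) ^ 2 * (T * N2 N b) := by
    intro y hy
    rw [hJy]
    simp only
    rw [← intervalIntegral.integral_of_le hxx, hM]
    have hyL : |y / L| ≤ 1 := by
      rw [abs_div, abs_of_pos hL0, div_le_one hL0]; linarith
    rw [abs_le] at hyL
    refine xsmall hp hT hup hCx b hxx (by rw [hx]; linarith) (by rw [hx']; linarith) ?_
    rcases Nat.eq_zero_or_pos N with h | h
    · rw [h, Nat.cast_zero, Real.log_zero, mul_zero]; positivity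
    · have hN0 : (1 : ℝ) ≤ N := by exact_mod_cast h
      have h2 : Real.log N ≤ θ₃ * L := by
        rw [hL, ← Real.log_rpow (by linarith)]
        exact Real.log_le_log (by linarith) hN3
      rw [abs_div, abs_of_pos hL0]
      calc |y| / L * Real.log N ≤ |y| / L * (θ₃ * L) := mul_le_mul_of_nonneg_left h2 (by positivity)
        _ = |y| * θ₃ := by field_simp
        _ ≤ U * θ₃ := mul_le_mul_of_nonneg_right hy hθ₃0.le
  have hJ0 : ∀ y, 0 ≤ Jy y := by
    intro y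
    rw [hJy]
    exact setIntegral_nonneg measurableSet_Ioc fun t _ => by positivity
  -- Fubini
  have hprod : Integrable (Function.uncurry fun (t y : ℝ) => ‖g y‖ * Xt ψ T (t + y / L) ^ 2 * ‖dp N b t‖ ^ 2) ((volume.restrict (Set.Ioc x x')).prod volume) := by
    have hWi : Integrable (fun t => ‖dp N b t‖ ^ 2) (volume.restrict (Set.Ioc x x')) := (hW.integrableOn_Icc).mono_set Set.Ioc_subset_Icc_self
    have h1 : Integrable (fun z : ℝ × ℝ => ‖dp N b z.1‖ ^ 2 * ‖g z.2‖) ((volume.restrict (Set.Ioc x x')).prod volume) := hWi.mul_prod hg.norm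
    have h2 := Integrable.bdd_mul (c := B ^ 2) h1 (f := fun z : ℝ × ℝ => Xt ψ T (z.1 + z.2 / L) ^ 2)
      (((hXm.comp (by fun_prop)).pow_const 2).aestronglyMeasurable)
      (Filter.Eventually.of_forall fun z => by
        rw [Real.norm_eq_abs, abs_pow]; exact pow_le_pow_left₀ (abs_nonneg _) (hXB _) 2)
    refine h2.congr (Filter.Eventually.of_forall fun z => ?_)
    simp only [Function.uncurry]
    ring
  have hswap := integral_integral_swap hprod
  -- pointwise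
  have hpt : ∀ t, ‖Ac ψ w lam T t‖ ^ 2 * ‖dp N b t‖ ^ 2 ≤ G * ∫ y, ‖g y‖ * Xt ψ T (t + y / L) ^ 2 * ‖dp N b t‖ ^ 2 := by
    intro t
    have h1 : Ac ψ w lam T t = ∫ y, g y * ((Xt ψ T (t + y / L) : ℝ) : ℂ) := by
      rw [hL, hgd]
      exact Ac_eq hp (by rw [← hL]; exact hL0) (by rw [hgd] at hg; exact hg) (by rw [hgd] at hg0; exact hg0) t
    have h2 := cs hg (X := fun y => Xt ψ T (t + y / L)) (hXm.comp (by fun_prop)) (B := B) (fun y => hXB _)
    rw [← h1, ← hG] at h2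
    rw [integral_mul_const, ← mul_assoc]
    exact mul_le_mul_of_nonneg_right h2 (sq_nonneg _)
  have hAc : Continuous (Ac ψ w lam T) := Ac_cont (ph_cont hp hGc lam hGb) T
  have h4 : ∫ t in Set.Ioc x x', ‖Ac ψ w lam T t‖ ^ 2 * ‖dp N b t‖ ^ 2 ≤
      ∫ t in Set.Ioc x x', G * ∫ y, ‖g y‖ * Xt ψ T (t + y / L) ^ 2 * ‖dp N b t‖ ^ 2 := by
    refine integral_mono ?_ ?_ fun t => hpt t
    · exact (((hAc.norm.pow 2).mul hW).integrableOn_Icc).mono_set Set.Ioc_subset_Icc_self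
    · exact (hprod.integral_prod_left).const_mul G
  have h5 : ∫ y, ∫ t in Set.Ioc x x', ‖g y‖ * Xt ψ T (t + y / L) ^ 2 * ‖dp N b t‖ ^ 2 = ∫ y, ‖g y‖ * Jy y := by
    congr 1
    funext y
    rw [hJy]
    simp only
    rw [← integral_const_mul]
    congr 1
    funext t
    ring
  rw [integral_const_mul, hswap, h5] at h4
  -- the outer integral
  obtain ⟨A, hA⟩ : ∃ A, A = 2 * M + 2 * Cx * (U * θ₃) ^ 2 * (T * N2 N b) := ⟨_, rfl⟩
  have hA0 : 0 ≤ A := by rw [hA]; positivity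
  have hmeas : MeasurableSet {y : ℝ | U < |y|} := measurableSet_lt measurable_const _root_.continuous_abs.measurable
  have hJi : Integrable (fun y => ‖g y‖ * Jy y) := by
    have h6 := hprod.integral_prod_right
    refine h6.congr (Filter.Eventually.of_forall fun y => ?_)
    rw [hJy]
    simp only [Function.uncurry]
    rw [← integral_const_mul]
    congr 1
    funext t
    ring
  have hi3 : Integrable (({y : ℝ | U < |y|}).indicator (fun y => ‖g y‖)) := hg.norm.indicator hmeas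
  have h7 : ∫ y, ‖g y‖ * Jy y ≤ ∫ y, (A * ‖g y‖ + Cx * (T * N2 N b) * ({y : ℝ | U < |y|}).indicator (fun y => ‖g y‖) y) := by
    refine integral_mono hJi ((hg.norm.const_mul A).add (hi3.const_mul _)) fun y => ?_
    simp only
    by_cases hy : U < |y|
    · rw [Set.indicator_of_mem (show y ∈ {y : ℝ | U < |y|} from hy)]
      have h8 := mul_le_mul_of_nonneg_left (hJ1 y) (norm_nonneg (g y))
      have h9 : 0 ≤ A * ‖g y‖ := by positivity
      linarith
    · rw [Set.indicator_of_notMem (show y ∉ {y : ℝ | U < |y|} from hy), mul_zero, add_zero, mul_comm A]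
      exact mul_le_mul_of_nonneg_left (by rw [hA]; exact hJ2 y (not_lt.1 hy)) (norm_nonneg _)
  rw [integral_add (hg.norm.const_mul A) (hi3.const_mul _), integral_const_mul, integral_const_mul, integral_indicator hmeas, ← hG] at h7
  rw [intervalIntegral.integral_of_le hxx] at hlow
  -- conclusion
  have k1 : T * N2 N b ≤ G * (A * G + Cx * (T * N2 N b) * (1 / (4 * Cx * (G + 1)))) := by
    refine hlow.trans (h4.trans (mul_le_mul_of_nonneg_left (h7.trans ?_) hGn))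
    have := mul_le_mul_of_nonneg_left hU (show 0 ≤ Cx * (T * N2 N b) by positivity)
    linarith
  have k2 : G * (Cx * (T * N2 N b) * (1 / (4 * Cx * (G + 1)))) ≤ 1 / 4 * (T * N2 N b) := by
    have e : G * (Cx * (T * N2 N b) * (1 / (4 * Cx * (G + 1)))) = G / (G + 1) * (1 / 4 * (T * N2 N b)) := by
      field_simp
    rw [e]
    refine mul_le_of_le_one_left (by positivity) ?_
    rw [div_le_one (by positivity)]
    linarith
  have k3 : 2 * Cx * (U * θ₃) ^ 2 * G ^ 2 ≤ 1 / 4 := by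
    have h8 : (U * θ₃) ^ 2 ≤ E := by
      have h9 : 0 ≤ U * θ₃ := by positivity
      calc (U * θ₃) ^ 2 = (U * θ₃) * (U * θ₃) := by ring
        _ ≤ 1 * E := mul_le_mul (hUθ.trans (min_le_left _ _)) (hUθ.trans (min_le_right _ _)) h9 zero_le_one
        _ = E := one_mul _
    calc 2 * Cx * (U * θ₃) ^ 2 * G ^ 2 ≤ 2 * Cx * E * (G + 1) ^ 2 := by
          apply mul_le_mul (mul_le_mul_of_nonneg_left h8 (by positivity)) (pow_le_pow_left₀ hGn (by linarith) 2) (by positivity) (by positivity)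
      _ = 1 / 4 := by
          rw [hE]
          field_simp
          ring
  have k4 : T * N2 N b ≤ 2 * G ^ 2 * M + 1 / 2 * (T * N2 N b) := by
    have h8 := mul_le_mul_of_nonneg_right k3 hTN
    rw [hA] at k1
    nlinarith
  have k5 : G ^ 2 ≤ (G + 1) ^ 2 := pow_le_pow_left₀ hGn (by linarith) 2
  rw [div_mul_eq_mul_div, one_mul, div_le_iff₀ (by positivity)]
  nlinarith

end

end Pool.Agent.H4.LG
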