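import Pool.Agent.H4.LG.Stm

set_option autoImplicit false

/-! Project LG, module DIL (written by helper27). -/

namespace Pool.Agent.H4.LG

open Filter Topology MeasureTheory Complex
open scoped ComplexConjugate
open Pool.Agent.Q97.UM

noncomputable section

lemma dil_om (w : ℝ → ℝ) {lam : ℝ} (hl : 0 < lam) (z : ℂ) :
    om (wl lam w) z = om w ((lam : ℂ) * z) := by
  have hl' : (lam : ℂ) ≠ 0 := by exact_mod_cast hl.ne'
  have h := Measure.integral_comp_div
    (fun u : ℝ => ((w u : ℂ) / (lam : ℂ)) * cexp (I * (u * ((lam : ℂ) * z)))) lam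
  unfold om wl
  have h1 : (∫ v : ℝ, (((w (v / lam) / lam : ℝ)) : ℂ) * cexp (I * (v * z))) =
      ∫ v : ℝ, (fun u : ℝ => ((w u : ℂ) / (lam : ℂ)) * cexp (I * (u * ((lam : ℂ) * z)))) (v / lam) := by
    congr 1
    funext v
    simp only
    push_cast
    congr 2
    field_simp
  rw [h1, h, abs_of_pos hl]
  have h2 : ∀ u : ℝ, ((w u : ℂ) / (lam : ℂ)) * cexp (I * (u * ((lam : ℂ) * z))) =
      ((lam : ℂ))⁻¹ * ((w u : ℂ) * cexp (I * (u * ((lam : ℂ) * z)))) := by
    intro u
    rw [div_eq_inv_mul, mul_assoc]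
  simp_rw [h2]
  rw [integral_const_mul, Complex.real_smul, ← mul_assoc, mul_inv_cancel₀ hl', one_mul]

lemma dil_qh (w : ℝ → ℝ) {lam : ℝ} (hl : 0 < lam) (v : ℝ) :
    qh (wl lam w) v = qh w (v / lam) / lam := by
  have h := Measure.integral_comp_div (fun u : ℝ => (w u / lam) * (w (v / lam - u) / lam)) lam
  unfold qh wl
  have h1 : (∫ s : ℝ, w (s / lam) / lam * (w ((v - s) / lam) / lam)) =
      ∫ s : ℝ, (fun u : ℝ => (w u / lam) * (w (v / lam - u) / lam)) (s / lam) := by
    congr 1
    funext s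
    simp only
    rw [sub_div]
  rw [h1, h, abs_of_pos hl]
  have h2 : ∀ u : ℝ, w u / lam * (w (v / lam - u) / lam) = (lam ^ 2)⁻¹ * (w u * w (v / lam - u)) := by
    intro u
    field_simp
  simp_rw [h2]
  rw [integral_const_mul, smul_eq_mul]
  field_simp

lemma dil_I2 (w : ℝ → ℝ) {lam : ℝ} (hl : 0 < lam) : I2 (wl lam w) = I2 w / lam := by
  have h := Measure.integral_comp_div (fun u : ℝ => (qh w u / lam) ^ 2) lam
  unfold I2
  simp_rw [dil_qh w hl]
  rw [show (∫ v : ℝ, (qh w (v / lam) / lam) ^ 2) =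
    ∫ v : ℝ, (fun u : ℝ => (qh w u / lam) ^ 2) (v / lam) from rfl, h, abs_of_pos hl]
  have h2 : ∀ u : ℝ, (qh w u / lam) ^ 2 = (lam ^ 2)⁻¹ * (qh w u ^ 2) := by
    intro u
    field_simp
  simp_rw [h2]
  rw [integral_const_mul, smul_eq_mul]
  field_simp

theorem t_DIL : S_DIL := by
  intro δ H C K w lam hδ hH hC hw hl hl1
  have hlK : 0 < lam ^ K := pow_pos hl K
  have hlK1 : lam ^ K ≤ 1 := pow_le_one₀ hl.le hl1
  have key : ∀ a b : ℝ, 0 ≤ a → 0 < b → lam * b ≤ 1 + a → ∀ e : ℝ, 0 ≤ e →
      C * e / (1 + a) ^ K ≤ C / lam ^ K * e / b ^ K := by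
    intro a b ha hb hab e he
    have h1 : (lam * b) ^ K ≤ (1 + a) ^ K := pow_le_pow_left₀ (by positivity) hab K
    have h2 : C * e / (1 + a) ^ K ≤ C * e / (lam * b) ^ K :=
      div_le_div_of_nonneg_left (by positivity) (by positivity) h1
    refine h2.trans (le_of_eq ?_)
    rw [mul_pow]
    field_simp
  refine ⟨dil_om w hl, ⟨C / lam ^ K, ?_, ?_⟩, dil_I2 w hl⟩
  · rw [le_div_iff₀ hlK, one_mul]
    exact hlK1.trans hC
  · refine ⟨?_, ?_, ?_, ?_, ?_, ?_⟩
    · obtain ⟨D, hD⟩ := hw.lip
      refine ⟨D / lam ^ 2, fun x y => ?_⟩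
      have h1 := hD (x / lam) (y / lam)
      unfold wl
      rw [← sub_div, abs_div, abs_of_pos hl, div_le_iff₀ hl]
      refine h1.trans (le_of_eq ?_)
      rw [← sub_div, abs_div, abs_of_pos hl]
      field_simp
    · intro v
      unfold wl
      rw [neg_div, hw.even]
    · intro v hv
      unfold wl
      rw [hw.supp, zero_div]
      rw [abs_div, abs_of_pos hl, le_div_iff₀ hl, mul_comm]
      exact hv
    · intro x
      rw [dil_om w hl]
      have := hw.unit (lam * x)
      push_cast at this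
      exact this
    · intro z hz
      have e1 : ((lam : ℂ) * z).re = lam * z.re := by simp
      have e2 : ((lam : ℂ) * z).im = lam * z.im := by simp
      have hz' : lam * |z.re| ≤ H := by
        rw [le_div_iff₀ hl] at hz
        linarith
      have h1 := hw.near ((lam : ℂ) * z) (by rw [e1, abs_mul, abs_of_pos hl]; exact hz')
      rw [e1, e2, abs_mul, abs_mul, abs_of_pos hl] at h1
      rw [dil_om w hl]
      refine h1.trans ?_
      rw [show δ * (lam * |z.im|) = lam * δ * |z.im| by ring]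
      refine key _ _ (by linarith) (by linarith) ?_ _ (Real.exp_pos _).le
      have : lam * (1 + (H / lam - |z.re|)) = lam + (H - lam * |z.re|) := by
        field_simp
      rw [this]
      linarith
    · intro z hz
      have e1 : ((lam : ℂ) * z).re = lam * z.re := by simp
      have e2 : ((lam : ℂ) * z).im = lam * z.im := by simp
      have hz' : H ≤ lam * |z.re| := by
        rw [div_le_iff₀ hl] at hz
        linarith
      have h1 := hw.far ((lam : ℂ) * z) (by rw [e1, abs_mul, abs_of_pos hl]; exact hz')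
      rw [e1, e2, abs_mul, abs_mul, abs_of_pos hl] at h1
      rw [dil_om w hl]
      refine h1.trans ?_
      rw [show δ * (lam * |z.im|) = lam * δ * |z.im| by ring]
      refine key _ _ (by linarith) (by linarith) ?_ _ (Real.exp_pos _).le
      have : lam * (1 + (|z.re| - H / lam)) = lam + (lam * |z.re| - H) := by
        field_simp
        
      rw [this]
      linarith

end

end Pool.Agent.H4.LG
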