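import Pool.Agent.H4.LG.Tails

set_option autoImplicit false

/-! The statistic over all nontrivial zeros. -/

namespace Pool.Agent.H4.LG

open Filter Topology MeasureTheory Complex
open Pool.Agent.Q97.UM

noncomputable section

/-- the nontrivial zeros -/
def zs : Set ℂ := {s : ℂ | riemannZeta s = 0 ∧ 0 < s.re ∧ s.re < 1}

/-- the statistic with all nontrivial zeros -/
def st (ψ : ℝ → ℝ) (L t : ℝ) : ℝ := ∑ᶠ s ∈ zs, (analyticOrderNatAt riemannZeta s : ℝ) * ψ (L * (s.im - t))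

lemma st_eq {V Q : ℝ} {ψ : ℝ → ℝ} (hp : PF V Q ψ) {A B L t : ℝ} (hA : 1 ≤ A) (hL0 : 0 < L) (hL : V ≤ L) (h1 : A + 1 ≤ t) (h2 : t + 1 ≤ B) :
    st ψ L t = ∑ s ∈ H370.Zf riemannZeta A B, (mz s : ℝ) * ψ (L * (s.im - t)) := by
  unfold st
  refine finsum_mem_eq_sum_of_inter_support_eq _ ?_
  ext s
  simp only [Set.mem_inter_iff, Function.mem_support, Finset.mem_coe, H370.mem_Zf H370.good_zeta hA]
  constructor
  · rintro ⟨⟨ha, hb, hc⟩, hd⟩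
    refine ⟨⟨hb, hc, ?_, ?_, ha⟩, hd⟩
    all_goals
      by_contra hcon
      refine hd ?_
      rw [hp.supp, mul_zero]
      rw [abs_mul, abs_of_pos hL0]
      have h3 : 1 ≤ |s.im - t| := by
        first
          | exact le_trans (by linarith) (neg_le_abs (s.im - t))
          | exact le_trans (by linarith) (le_abs_self (s.im - t))
      nlinarith
  · rintro ⟨⟨ha, hb, hc, hd, he⟩, hf⟩
    exact ⟨⟨he, ha, hb⟩, hf⟩

lemma st_Yt {V Q : ℝ} {ψ : ℝ → ℝ} (hp : PF V Q ψ) {T t : ℝ} (hT : 16 ≤ T) (hL : V ≤ Real.log T) (h1 : T + 2 ≤ t) (h2 : t ≤ 2 * T - 2) :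
    st ψ (Real.log T) t = Yt ψ T t :=
  st_eq hp (by linarith) (Real.log_pos (by linarith)) hL (by linarith) (by linarith)

lemma st_meas {V Q : ℝ} {ψ : ℝ → ℝ} (hp : PF V Q ψ) {T : ℝ} (hT : 16 ≤ T) (hL : V ≤ Real.log T) {P : Set ℝ} (hP : MeasurableSet P) :
    MeasurableSet {t : ℝ | t ∈ Set.Icc T (2 * T) ∧ st ψ (Real.log T) t ∈ P} := by
  have e : {t : ℝ | t ∈ Set.Icc T (2 * T) ∧ st ψ (Real.log T) t ∈ P} = Set.Icc T (2 * T) ∩
      (fun t => ∑ s ∈ H370.Zf riemannZeta (T - 1) (2 * T + 1), (mz s : ℝ) * ψ (Real.log T * (s.im - t))) ⁻¹' P := by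
    ext t
    simp only [Set.mem_ofPred_eq, Set.mem_inter_iff, Set.mem_preimage]
    refine and_congr_right fun h => ?_
    rw [st_eq hp (A := T - 1) (B := 2 * T + 1) (by linarith) (Real.log_pos (by linarith)) hL (by linarith [h.1]) (by linarith [h.2])]
  rw [e]
  refine measurableSet_Icc.inter (Measurable.comp (g := fun x => x) measurable_id ?_ hP)
  exact Finset.measurable_sum _ fun s _ => measurable_const.mul (hp.meas.comp (by fun_prop))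

/-- the transfer of the lower bound from `Yt` to `st` -/
lemma carry {V Q : ℝ} {ψ : ℝ → ℝ} (hp : PF V Q ψ) {c₁ θ : ℝ} (hc₁ : 0 < c₁) (hθ : θ ≤ 1 / 40) {P : Set ℝ} (hP : MeasurableSet P)
    (h : ∀ᶠ T : ℝ in atTop, ∀ N : ℕ, (N : ℝ) ≤ T ^ θ → ∀ b : ℕ → ℂ, c₁ * (T * N2 N b) ≤ ∫ t in Set.Icc T (2 * T) ∩ {t | Yt ψ T t ∈ P}, ‖dp N b t‖ ^ 2) :
    ∀ᶠ T : ℝ in atTop, ∀ N : ℕ, (N : ℝ) ≤ T ^ θ → ∀ b : ℕ → ℂ,
      c₁ / 2 * (T * N2 N b) ≤ ∫ t in {t : ℝ | t ∈ Set.Icc T (2 * T) ∧ st ψ (Real.log T) t ∈ P}, ‖dp N b t‖ ^ 2 := by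
  filter_upwards [h, edges (half_pos hc₁), eventually_ge_atTop (16 : ℝ), Real.tendsto_log_atTop.eventually_ge_atTop V] with T h1 h2 hT hV N hN b
  have hN40 : (N : ℝ) ≤ T ^ (1 / 40 : ℝ) := hN.trans (Real.rpow_le_rpow_of_exponent_le (by linarith) hθ)
  have hS : MeasurableSet {t | Yt ψ T t ∈ P} := (Yt_meas hp T) hP
  have h3 := h1 N hN b
  have h4 := h2 N hN40 b _ hS
  have hW : Continuous (fun t => ‖dp N b t‖ ^ 2) := (dp_c N b).norm.pow 2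
  have h5 : ∫ t in Set.Icc (T + 2) (2 * T - 2) ∩ {t | Yt ψ T t ∈ P}, ‖dp N b t‖ ^ 2 ≤
      ∫ t in {t : ℝ | t ∈ Set.Icc T (2 * T) ∧ st ψ (Real.log T) t ∈ P}, ‖dp N b t‖ ^ 2 := by
    refine setIntegral_mono_set (hW.integrableOn_Icc.mono_set (fun t ht => ht.1)) (Filter.Eventually.of_forall fun t => sq_nonneg _)
      (Filter.Eventually.of_forall ?_)
    rintro t ⟨ha, hb⟩
    refine ⟨⟨by linarith [ha.1], by linarith [ha.2]⟩, ?_⟩
    show st ψ (Real.log T) t ∈ P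
    rw [st_Yt hp hT hV ha.1 ha.2]
    exact hb
  linarith

/-- both tails for the statistic over all zeros -/
theorem stTails {V Q : ℝ} {ψ : ℝ → ℝ} (hp : PF V Q ψ) (hint : ∫ v, ψ v ≠ 0) :
    ∃ c c₁ θ : ℝ, 0 < c ∧ 0 < c₁ ∧ 0 < θ ∧ θ ≤ 1 / 40 ∧ ∀ᶠ T : ℝ in atTop, ∀ N : ℕ, (N : ℝ) ≤ T ^ θ → ∀ b : ℕ → ℂ,
      c₁ * (T * N2 N b) ≤ ∫ t in {t : ℝ | t ∈ Set.Icc T (2 * T) ∧ st ψ (Real.log T) t ∈ Set.Ici (mu ψ + c)}, ‖dp N b t‖ ^ 2 ∧
      c₁ * (T * N2 N b) ≤ ∫ t in {t : ℝ | t ∈ Set.Icc T (2 * T) ∧ st ψ (Real.log T) t ∈ Set.Iic (mu ψ - c)}, ‖dp N b t‖ ^ 2 := by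
  have hp' : PF (max V 1) (max Q 1) ψ :=
    ⟨hp.meas, fun x => (hp.bd x).trans (le_max_left _ _), fun x hx => hp.supp x ((le_max_left _ _).trans hx)⟩
  obtain ⟨c, c₁, θ, hc, hc₁, hθ0, hθ1, h⟩ := tails hp' (le_max_right _ _) (le_max_right _ _) hint
  refine ⟨c, c₁ / 2, θ, hc, by positivity, hθ0, hθ1, ?_⟩
  have h1 := carry hp' hc₁ hθ1 (P := Set.Ici (mu ψ + c)) measurableSet_Ici (by
    filter_upwards [h] with T h N hN b
    have := (h N hN b).1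
    have e : {t | c ≤ Xt ψ T t} = {t | Yt ψ T t ∈ Set.Ici (mu ψ + c)} := by
      ext t
      simp only [Set.mem_ofPred_eq, Set.mem_Ici, Xt]
      constructor <;> intro h <;> linarith
    rwa [e] at this)
  have h2 := carry hp' hc₁ hθ1 (P := Set.Iic (mu ψ - c)) measurableSet_Iic (by
    filter_upwards [h] with T h N hN b
    have := (h N hN b).2
    have e : {t | c ≤ -Xt ψ T t} = {t | Yt ψ T t ∈ Set.Iic (mu ψ - c)} := by
      ext t
      simp only [Set.mem_ofPred_eq, Set.mem_Iic, Xt]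
      constructor <;> intro h <;> linarith
    rwa [e] at this)
  filter_upwards [h1, h2] with T h1 h2 N hN b
  exact ⟨h1 N hN b, h2 N hN b⟩

end

end Pool.Agent.H4.LG
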