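import Pool.Agent.H4.LG.Stm
import Pool.Graph.R_pool_sql_team_seeded_3997aac3.Q176.UM.QH

/-!
Project LG, module INV: Fourier inversion for the squared window (`t_INV : S_INV`).
-/

set_option autoImplicit false

namespace Pool.Agent.H4.LG

open Filter Topology MeasureTheory Complex
open scoped ComplexConjugate FourierTransform
open Pool.Agent.Q97.UM Pool.Agent.Q176.UM

noncomputable section

theorem t_INV : S_INV := by
  intro δ H C K w hδ hδ1 hH hC hK hw
  have hp := Real.pi_pos
  obtain ⟨D, hD⟩ := hw.lip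
  have lipc : ∀ (f : ℝ → ℝ) (D : ℝ), (∀ x y : ℝ, |f x - f y| ≤ D * |x - y|) → Continuous f := by
    intro f D hD
    have : LipschitzWith (Real.toNNReal D) f := by
      refine LipschitzWith.of_dist_le_mul fun x y => ?_
      rw [Real.dist_eq, Real.dist_eq]
      exact (hD x y).trans (mul_le_mul_of_nonneg_right (Real.le_coe_toNNReal D) (abs_nonneg _))
    exact this.continuous
  have hcp : Cp δ w := ⟨lipc w D hD, hw.supp⟩
  obtain ⟨⟨D', hD'⟩, -, hq0, hq, -, -⟩ := t_QH δ H C K w hδ (by linarith) hH hC hK hw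
  have hqc : Cp (2 * δ) (qh w) := ⟨lipc _ D' hD', hq0⟩
  obtain ⟨a1, -⟩ := planch hcp
  set F : ℝ → ℂ := fun v => (qh w v : ℂ) with hF
  have hFc : Continuous F := Complex.continuous_ofReal.comp hqc.cont
  have hF1 : Integrable F := hFc.integrable_of_hasCompactSupport hqc.compC
  have hc : Continuous (𝓕 F) :=
    VectorFourier.fourierIntegral_continuous Real.continuous_fourierChar continuous_inner hF1
  have hom : ∀ x : ℝ, om w x ^ 2 = 𝓕 F (-(2 * Real.pi)⁻¹ * x) := by
    intro x
    rw [hq, Real.fourier_real_eq_integral_exp_smul]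
    congr 1
    funext v
    rw [smul_eq_mul, mul_comm]
    congr 2
    push_cast
    field_simp
  have hne : (-(2 * Real.pi)⁻¹ : ℝ) ≠ 0 := neg_ne_zero.2 (by positivity)
  have hne' : (-(2 * Real.pi) : ℝ) ≠ 0 := neg_ne_zero.2 (by positivity)
  have homc : Continuous fun x : ℝ => om w x ^ 2 := by
    simp_rw [hom]
    exact hc.comp (continuous_const.mul continuous_id)
  have hGc : Continuous fun x : ℝ => GG w x := by
    unfold GG
    exact (Continuous.cexp (continuous_const.mul Complex.continuous_ofReal)).mul homc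
  have hGn : ∀ x : ℝ, ‖GG w x‖ = ‖om w x‖ ^ 2 := by
    intro x
    unfold GG
    rw [norm_mul, norm_pow, mul_comm I, Complex.norm_exp_ofReal_mul_I, one_mul]
  have hGi : Integrable (fun x : ℝ => GG w x) := by
    refine (a1.congr' hGc.aestronglyMeasurable (Eventually.of_forall fun x => ?_))
    rw [hGn, norm_pow, norm_norm]
  refine ⟨hGi, ?_⟩
  -- the Fourier transform of `F` is integrable
  have hom' : ∀ y : ℝ, 𝓕 F y = om w ((-(2 * Real.pi) * y : ℝ) : ℂ) ^ 2 := by
    intro y
    rw [hom]
    congr 1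
    field_simp
  have hFi : Integrable (𝓕 F) := by
    have h1 : Integrable fun x : ℝ => om w x ^ 2 := by
      refine (a1.congr' homc.aestronglyMeasurable (Eventually.of_forall fun x => ?_))
      rw [norm_pow, norm_norm, norm_pow]
    have h2 := h1.comp_mul_left' hne'
    refine h2.congr (Eventually.of_forall fun y => ?_)
    exact (hom' y).symm
  have hinv := hFc.fourierInv_fourier_eq hF1 hFi
  have h1 : 𝓕⁻ (𝓕 F) (-1) = F (-1) := by rw [hinv]
  have h2 : F (-1) = 0 := by
    simp only [hF]
    rw [hq0 (-1) (by rw [abs_neg, abs_one]; linarith), Complex.ofReal_zero]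
  rw [h2, Real.fourierInv_eq'] at h1
  have h3 : ∫ x : ℝ, GG w x = (2 * Real.pi) • ∫ y : ℝ, GG w ((-(2 * Real.pi) * y : ℝ) : ℂ) := by
    have h4 := Measure.integral_comp_mul_left (fun x : ℝ => GG w x) (-(2 * Real.pi))
    rw [h4, smul_smul, abs_inv, abs_neg, abs_of_pos (by positivity), mul_inv_cancel₀ (by positivity),
      one_smul]
  have h5 : ∫ y : ℝ, GG w ((-(2 * Real.pi) * y : ℝ) : ℂ) = 0 := by
    rw [← h1]
    congr 1
    funext y
    unfold GG
    rw [← hom' y, smul_eq_mul]
    have hin : inner ℝ y (-1 : ℝ) = -y := by simp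
    rw [hin]
    congr 2
    push_cast
    ring
  rw [h3, h5, smul_zero]

end

end Pool.Agent.H4.LG
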