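import Pool.Agent.H4.LG.Stm

set_option autoImplicit false

/-! Project LG, module LOW (written by helper27). -/

namespace Pool.Agent.H4.LG

open Filter Topology MeasureTheory Complex
open scoped ComplexConjugate
open Pool.Agent.Q97.UM

noncomputable section

lemma low_N2 (N : ℕ) (b : ℕ → ℂ) : 0 ≤ N2 N b := by
  unfold N2
  exact Finset.sum_nonneg fun i _ => by positivity

theorem t_LOW (hD : S_DIL) : S_LOW := by
  intro K hK
  obtain ⟨C₀, hC₀, hZ⟩ := b_ZU
  have hC₀' : 0 < C₀ := by linarith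
  set δ : ℝ := min (1 / 16) (1 / (4 * C₀)) with hδdef
  have hδ : 0 < δ := lt_min (by norm_num) (by positivity)
  have hδ16 : δ ≤ 1 / 16 := min_le_left _ _
  have hδC : δ ≤ 1 / (4 * C₀) := min_le_right _ _
  have hδC' : C₀ * δ ≤ 1 / 4 := by
    rw [le_div_iff₀ (by positivity)] at hδC
    linarith
  obtain ⟨C, hC, hOM⟩ := Pool.Agent.Q247.UM.t_OMEX K δ hδ (by linarith)
  refine ⟨δ, C, hδ, hδ16, hC, fun H hH => ?_⟩
  have hC4 : 1 ≤ C ^ 4 := one_le_pow₀ hC
  have hH1 : 1 ≤ H := by linarith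
  obtain ⟨w, hw⟩ := hOM H hH1
  refine ⟨w, hw, fun lam hl hl2 => ?_⟩
  obtain ⟨-, -, -, -, -, hI⟩ := Pool.Agent.Q176.UM.t_QH δ H C K w hδ (by linarith) hH1 hC hK hw
  have hI2 : H / 8 ≤ I2 w := by
    have h1 := (abs_le.1 hI).1
    have h2 : H / 2 ≤ Real.pi * I2 w := by linarith
    have h3 : Real.pi ≤ 4 := Real.pi_le_four
    by_contra hcon
    push Not at hcon
    have h4 : 0 < Real.pi * I2 w := lt_of_lt_of_le (by positivity) h2
    have h5 : 0 < I2 w := by
      by_contra h6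
      push Not at h6
      have := mul_nonpos_of_nonneg_of_nonpos Real.pi_pos.le h6
      linarith
    nlinarith
  have hI0 : 0 < I2 w := by linarith
  obtain ⟨-, ⟨C', hC', hw'⟩, hI2'⟩ := hD δ H C K w lam hδ hH1 hC hw hl (by linarith)
  set θ : ℝ := min (1 / 40) ((lam / (8 * C₀)) ^ 2) with hθdef
  have hθ : 0 < θ := lt_min (by norm_num) (by positivity)
  have hθ40 : θ ≤ 1 / 40 := min_le_left _ _
  have hθ2 : Real.sqrt θ ≤ lam / (8 * C₀) := by
    rw [show lam / (8 * C₀) = Real.sqrt ((lam / (8 * C₀)) ^ 2) from (Real.sqrt_sq (by positivity)).symm]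
    exact Real.sqrt_le_sqrt (min_le_right _ _)
  have hθ3 : C₀ * Real.sqrt θ ≤ lam / 8 := by
    have := mul_le_mul_of_nonneg_left hθ2 hC₀'.le
    refine this.trans (le_of_eq ?_)
    field_simp
  refine ⟨θ, hθ, hθ40, ?_⟩
  have hlδ : lam * δ ≤ 1 / 16 := by nlinarith
  have hHl : 1 ≤ H / lam := by
    rw [le_div_iff₀ hl]; linarith
  have ev := hZ (lam * δ) (H / lam) C' K (wl lam w) θ (I2 w / 8) 1 (by positivity) hlδ hHl hC' hK hw' hθ hθ40
    (by positivity) one_pos le_rfl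
  filter_upwards [ev, eventually_gt_atTop (1 : ℝ)] with T hT hT1 N hN b
  have hL : 0 < Real.log T := Real.log_pos hT1
  have hlδ2 : lam * δ ≤ 1 / 32 := by nlinarith
  have h1 := hT N hN b (lam * Real.log T) (by positivity)
    (mul_le_mul_of_nonneg_right (by linarith) hL.le)
  have h3δ : 3 * (lam * δ) * Real.log T ≤ lam * Real.log T :=
    mul_le_mul_of_nonneg_right (by nlinarith) hL.le
  rw [if_pos h3δ, hI2'] at h1
  have h2 := (abs_le.1 h1).1
  have hN2 := low_N2 N b
  have hTN : 0 ≤ T * N2 N b := mul_nonneg (by linarith) hN2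
  have e1 : lam * Real.log T / Real.log T * (I2 w / lam) = I2 w := by
    field_simp
  rw [e1] at h2
  have e2 : C₀ * (lam * δ + Real.sqrt θ) * (I2 w / lam) ≤ (3 / 8) * I2 w := by
    have e3 : C₀ * (lam * δ + Real.sqrt θ) ≤ (3 / 8) * lam := by
      have : C₀ * (lam * δ) ≤ lam * (1 / 4) := by
        calc C₀ * (lam * δ) = lam * (C₀ * δ) := by ring
          _ ≤ _ := mul_le_mul_of_nonneg_left hδC' hl.le
      rw [mul_add]
      linarith
    calc C₀ * (lam * δ + Real.sqrt θ) * (I2 w / lam) ≤ (3 / 8) * lam * (I2 w / lam) :=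
          mul_le_mul_of_nonneg_right e3 (by positivity)
      _ = _ := by field_simp
  have e4 : (C₀ * (lam * δ + Real.sqrt θ) * (I2 w / lam) + I2 w / 8) * T * N2 N b ≤
      (1 / 2 * I2 w) * (T * N2 N b) := by
    rw [mul_assoc]
    exact mul_le_mul_of_nonneg_right (by linarith) hTN
  have e5 : I2 w * (T * N2 N b) ≤ (QL (wl lam w) (Real.log T) (lam * Real.log T) ^ 2 + I2 w) * T * N2 N b := by
    rw [mul_assoc (_ + _)]
    exact mul_le_mul_of_nonneg_right (by nlinarith [sq_nonneg (QL (wl lam w) (Real.log T) (lam * Real.log T))]) hTN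
  have e6 : H / 16 * (T * N2 N b) ≤ (1 / 2 * I2 w) * (T * N2 N b) :=
    mul_le_mul_of_nonneg_right (by linarith) hTN
  linarith

end

end Pool.Agent.H4.LG
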