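import Pool.Agent.H4.LG.Ptw3

set_option autoImplicit false

/-! The mean square of the smoothed statistic is large. -/

namespace Pool.Agent.H4.LG

open Filter Topology MeasureTheory Complex
open scoped ComplexConjugate
open Pool.Agent.Q97.UM

noncomputable section

lemma ph_cont {V Q : ℝ} {ψ w : ℝ → ℝ} (hp : PF V Q ψ) (hc : Continuous (GG w)) (lam : ℝ) {B : ℝ}
    (hB : ∀ x : ℝ, ‖GG w (x : ℂ)‖ ≤ B) : Continuous (ph ψ w lam) := by
  have h1 : Integrable (fun v : ℝ => |ψ v| * B) := by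
    have h2 := (hp.int (g := fun _ => (B : ℂ)) continuous_const).norm
    refine h2.congr (Filter.Eventually.of_forall fun v => ?_)
    have hB0 : 0 ≤ B := (norm_nonneg _).trans (hB 0)
    simp only [norm_mul, Complex.norm_real, Real.norm_eq_abs, abs_of_nonneg hB0]
  unfold ph
  refine continuous_of_dominated (bound := fun v => |ψ v| * B) (fun x => ?_) (fun x => ?_) h1 ?_
  · exact (hp.int (hc.comp (by fun_prop))).aestronglyMeasurable
  · refine Filter.Eventually.of_forall fun v => ?_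
    rw [norm_mul, Complex.norm_real, Real.norm_eq_abs]
    exact mul_le_mul_of_nonneg_left (hB _) (abs_nonneg _)
  · refine Filter.Eventually.of_forall fun v => ?_
    exact continuous_const.mul (hc.comp (by fun_prop))

lemma Ac_cont {ψ w : ℝ → ℝ} {lam : ℝ} (h : Continuous (ph ψ w lam)) (T : ℝ) : Continuous (Ac ψ w lam T) := by
  unfold Ac
  exact continuous_finsetSum _ fun s _ => continuous_const.mul (h.comp (by fun_prop))

/-- **the mean square of the smoothed statistic** -/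
theorem low2 (hDIL : S_DIL) (hLOW : S_LOW) (hPRO : S_PRO) (hCELL : S_CELL) (hSUM : S_SUM) (hSYM : S_SYM)
    {V Q : ℝ} {ψ : ℝ → ℝ} (hp : PF V Q ψ) (hV : 1 ≤ V) (hQ : 1 ≤ Q) (hint : ∫ v, ψ v ≠ 0) :
    ∃ (w : ℝ → ℝ) (δ H C C₁ lam θ : ℝ), OmW δ H C 2 w ∧ 0 < δ ∧ δ ≤ 1 / 16 ∧ 1 ≤ H ∧ 1 ≤ C ∧ 1 ≤ C₁ ∧ Continuous (GG w) ∧
      (∀ x : ℝ, ‖GG w (x : ℂ)‖ ≤ C₁) ∧ 0 < lam ∧ lam ≤ 1 ∧ 0 < θ ∧ θ ≤ 1 / 40 ∧ ∀ᶠ T : ℝ in atTop,
      ∀ N : ℕ, (N : ℝ) ≤ T ^ θ → ∀ b : ℕ → ℂ,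
        T * N2 N b ≤ ∫ t in (T + 2 * Real.log T)..(2 * T - 2 * Real.log T), ‖Ac ψ w lam T t‖ ^ 2 * ‖dp N b t‖ ^ 2 := by
  obtain ⟨δ, C, hδ0, hδ1, hC, hL⟩ := hLOW 2 le_rfl
  obtain ⟨C₁, hC₁, hP⟩ := hPRO δ C 2 hδ0 hδ1 hC le_rfl
  obtain ⟨θc, δ₁, Cc, hθc0, hθc1, hδ₁0, hδ₁1, hCc, hcell⟩ := hCELL
  obtain ⟨J, hJ⟩ : ∃ J, J = |∫ v, ψ v| := ⟨_, rfl⟩
  have hJ0 : 0 < J := by rw [hJ]; exact abs_pos.2 hint
  obtain ⟨D, hD⟩ : ∃ D, D = 8 * V ^ 2 * Q * C₁ := ⟨_, rfl⟩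
  have hD0 : 0 < D := by rw [hD]; positivity
  -- the choice of `H`
  obtain ⟨H, hH⟩ : ∃ H, H = max (8 * C ^ 4) (128 * (Cc * (14 * D) ^ 2 + 1) / J ^ 2) := ⟨_, rfl⟩
  have hH1 : 8 * C ^ 4 ≤ H := by rw [hH]; exact le_max_left _ _
  have hH2 : 128 * (Cc * (14 * D) ^ 2 + 1) / J ^ 2 ≤ H := by rw [hH]; exact le_max_right _ _
  have hC4 : 1 ≤ C ^ 4 := one_le_pow₀ hC
  have hH3 : 1 ≤ H := by linarith
  obtain ⟨w, hw, hlow⟩ := hL H hH1
  obtain ⟨hc, ha, hb, hcc⟩ := hP H w hH3 hw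
  have haR : ∀ x : ℝ, ‖GG w (x : ℂ)‖ ≤ C₁ := by
    intro x
    have h1 := ha x 0
    simp only [Complex.ofReal_zero, zero_mul, add_zero, abs_zero, mul_zero, Real.exp_zero, mul_one] at h1
    refine h1.trans (div_le_self (by linarith) ?_)
    have : 0 ≤ max 0 (|x| - H) := le_max_left _ _
    exact one_le_pow₀ (by linarith)
  -- the choice of `lam`
  obtain ⟨E, hE⟩ : ∃ E, E = 8 * V * Q * C₁ * (1 + H) ^ 4 := ⟨_, rfl⟩
  have hE0 : 0 < E := by rw [hE]; positivity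
  obtain ⟨lam, hlam0, hlamV, hlamδ, hlamJ, hlamD, hlam1⟩ : ∃ lam : ℝ, 0 < lam ∧ lam * V ≤ 1 / 4 ∧ lam ≤ δ₁ / 4 ∧
      4 * V ^ 2 * Q * lam ≤ J / 2 ∧ 24 * E / δ₁ ^ 2 * lam ≤ D ∧ lam ≤ 1 / 2 := by
    refine ⟨min (min (1 / (4 * V)) (δ₁ / 4)) (min (min (J / (8 * V ^ 2 * Q)) (D * δ₁ ^ 2 / (24 * E))) (1 / 2)), by positivity, ?_, ?_, ?_, ?_, ?_⟩
    · have := (min_le_left (min (1 / (4 * V)) (δ₁ / 4)) (min (min (J / (8 * V ^ 2 * Q)) (D * δ₁ ^ 2 / (24 * E))) (1 / 2))).trans (min_le_left _ _)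
      calc _ ≤ 1 / (4 * V) * V := mul_le_mul_of_nonneg_right this (by linarith)
        _ = 1 / 4 := by field_simp
    · exact (min_le_left _ _).trans (min_le_right _ _)
    · have := (min_le_right (min (1 / (4 * V)) (δ₁ / 4)) (min (min (J / (8 * V ^ 2 * Q)) (D * δ₁ ^ 2 / (24 * E))) (1 / 2))).trans
        ((min_le_left _ _).trans (min_le_left _ _))
      calc _ ≤ 4 * V ^ 2 * Q * (J / (8 * V ^ 2 * Q)) := mul_le_mul_of_nonneg_left this (by positivity)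
        _ = J / 2 := by field_simp; ring
    · have := (min_le_right (min (1 / (4 * V)) (δ₁ / 4)) (min (min (J / (8 * V ^ 2 * Q)) (D * δ₁ ^ 2 / (24 * E))) (1 / 2))).trans
        ((min_le_left _ _).trans (min_le_right _ _))
      calc _ ≤ 24 * E / δ₁ ^ 2 * (D * δ₁ ^ 2 / (24 * E)) := mul_le_mul_of_nonneg_left this (by positivity)
        _ = D := by field_simp
    · exact (min_le_right _ _).trans (min_le_right _ _)
  obtain ⟨hdil, -, -⟩ := hDIL δ H C 2 w lam hδ0 hH3 hC hw hlam0 (by linarith)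
  obtain ⟨θ₁, hθ₁0, hθ₁1, hlow⟩ := hlow lam hlam0 hlam1
  refine ⟨w, δ, H, C, C₁, lam, min θ₁ θc, hw, hδ0, hδ1, hH3, hC, hC₁, hc, haR, hlam0, by linarith, lt_min hθ₁0 hθc0,
    (min_le_left _ _).trans hθ₁1, ?_⟩
  have hev : ∀ᶠ T : ℝ in atTop, 18 * E * (1 / lam ^ 2 + 8 / δ₁ ^ 2) / lam / D ≤ Real.log T ^ 2 := by
    have := (tendsto_pow_atTop (α := ℝ) (n := 2) (by norm_num)).comp Real.tendsto_log_atTop
    exact this.eventually_ge_atTop _
  have hlog4 : ∀ᶠ T : ℝ in atTop, 4 * Real.log T ≤ T := by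
    have := Real.isLittleO_log_id_atTop.bound (show (0 : ℝ) < 1 / 4 by norm_num)
    filter_upwards [this, eventually_ge_atTop (1 : ℝ)] with T h hT
    rw [id, Real.norm_eq_abs, Real.norm_eq_abs, abs_of_nonneg (by linarith : 0 ≤ T)] at h
    have := le_abs_self (Real.log T)
    linarith
  filter_upwards [hlow, hcell, hSYM, hev, hlog4, Real.tendsto_log_atTop.eventually_ge_atTop 1, eventually_ge_atTop (16 : ℝ)]
    with T hlow hcell hsym hev hlog4 hL1 hT N hN b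
  have hT1 : (1 : ℝ) ≤ T := by linarith
  have hN1 : (N : ℝ) ≤ T ^ θ₁ := hN.trans (Real.rpow_le_rpow_of_exponent_le hT1 (min_le_left _ _))
  have hN2 : (N : ℝ) ≤ T ^ θc := hN.trans (Real.rpow_le_rpow_of_exponent_le hT1 (min_le_right _ _))
  replace hlow := hlow N hN1 b
  have hTN : 0 ≤ T * N2 N b := mul_nonneg (by linarith) (by unfold N2; positivity)
  have hstrip : ∀ s ∈ ZT T, 0 < s.re ∧ s.re < 1 := by
    intro s hs
    unfold ZT at hs
    rw [H370.mem_Zf H370.good_zeta (by linarith : (1 : ℝ) ≤ T + 1)] at hs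
    exact ⟨hs.1, hs.2.1⟩
  have hL0 : 0 < Real.log T := by linarith
  -- the error
  obtain ⟨κ, hκ⟩ : ∃ κ, κ = 8 * V * Q * C₁ * (1 + H) ^ 4 * (3 * (1 / lam ^ 2 + 8 / δ₁ ^ 2) / Real.log T ^ 2 + 4 * lam ^ 2 / δ₁ ^ 2) := ⟨_, rfl⟩
  have hκ0 : 0 ≤ κ := by rw [hκ]; positivity
  have hκ1 : 6 * κ / lam ≤ 2 * D := by
    have e : 6 * κ / lam = 18 * E * (1 / lam ^ 2 + 8 / δ₁ ^ 2) / lam / Real.log T ^ 2 + 24 * E / δ₁ ^ 2 * lam := by
      rw [hκ, ← hE]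
      field_simp
      ring
    rw [e]
    have : 18 * E * (1 / lam ^ 2 + 8 / δ₁ ^ 2) / lam / Real.log T ^ 2 ≤ D := by
      rw [div_le_iff₀ (by positivity)]
      rw [div_le_iff₀ hD0] at hev
      linarith
    linarith
  obtain ⟨Dt, hDt⟩ : ∃ Dt : ℝ → ℂ, Dt = fun t : ℝ => cc ψ lam * (cexp (-(I * (lam * Real.log T * t))) * Zt (wl lam w) T (lam * Real.log T) t) - Ac ψ w lam T t := ⟨_, rfl⟩
  have herr := hcell N hN2 b (rr κ D lam H) (14 * D) (fun j => rr_nonneg hκ0 hD0.le hlam0.le j)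
    (fun J => (rr_sum hSUM hκ0 hD0.le hlam0 (by linarith) J).trans (by linarith)) (fun t => ‖Dt t‖) (fun t _ _ => by
      rw [abs_of_nonneg (norm_nonneg _), hDt, hκ, hD]
      exact ptw hp hV hQ hC₁ (by linarith) hc ha hb hcc hdil hδ₁0 hlam0 (by linarith) hlamδ hlamV hL1 hsym hstrip)
  -- integrability
  have hZc : Continuous (fun t : ℝ => cexp (-(I * (lam * Real.log T * t))) * Zt (wl lam w) T (lam * Real.log T) t) := by
    have e : (fun t : ℝ => cexp (-(I * (lam * Real.log T * t))) * Zt (wl lam w) T (lam * Real.log T) t) = fun t : ℝ => ∑ s ∈ ZT T, (mz s : ℂ) *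
      (GG w ((lam : ℂ) * (Real.log T * (H370.zz s - t))) * cexp (-(H370.zz s - t) ^ 2 / 2)) := by
      funext t
      exact Zt_eq hdil T t
    rw [e]
    refine continuous_finsetSum _ fun s _ => continuous_const.mul ((hc.comp (by fun_prop)).mul (by fun_prop))
  have hAc : Continuous (Ac ψ w lam T) := Ac_cont (ph_cont hp hc lam haR) T
  have hDc : Continuous Dt := by
    rw [hDt]
    exact (continuous_const.mul hZc).sub hAc
  have hdp : Continuous (dp N b) := (Pool.Agent.Q84.UM.t_DPM.2.2 N b 0).2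
  have hcj : J / 2 ≤ ‖cc ψ lam‖ := by
    have := cc_lower hp hV hQ hlam0 (by linarith)
    rw [← hJ] at this
    linarith
  -- pointwise
  have hpt : ∀ t : ℝ, J ^ 2 / 8 * (‖Zt (wl lam w) T (lam * Real.log T) t‖ ^ 2 * ‖dp N b t‖ ^ 2) - ‖Dt t‖ ^ 2 * ‖dp N b t‖ ^ 2 ≤
      ‖Ac ψ w lam T t‖ ^ 2 * ‖dp N b t‖ ^ 2 := by
    intro t
    obtain ⟨Z, hZ⟩ : ∃ Z, Z = Zt (wl lam w) T (lam * Real.log T) t := ⟨_, rfl⟩
    have e1 : Dt t = cc ψ lam * (cexp (-(I * (lam * Real.log T * t))) * Z) - Ac ψ w lam T t := by rw [hDt, hZ]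
    have n1 : ‖cexp (-(I * ((lam : ℂ) * Real.log T * t)))‖ = 1 := by
      rw [Complex.norm_exp]
      have : (-(I * ((lam : ℂ) * Real.log T * t))).re = 0 := by
        rw [show (lam : ℂ) * Real.log T * t = ((lam * Real.log T * t : ℝ) : ℂ) by push_cast; ring]
        simp
      rw [this, Real.exp_zero]
    have n2 : ‖cc ψ lam * (cexp (-(I * (lam * Real.log T * t))) * Z)‖ = ‖cc ψ lam‖ * ‖Z‖ := by
      rw [norm_mul, norm_mul, n1, one_mul]
    have n3 : ‖cc ψ lam‖ * ‖Z‖ ≤ ‖Dt t‖ + ‖Ac ψ w lam T t‖ := by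
      rw [← n2]
      have := norm_add_le (Dt t) (Ac ψ w lam T t)
      rw [e1, sub_add_cancel] at this
      rw [e1]
      exact this
    have n4 : J / 2 * ‖Z‖ ≤ ‖Dt t‖ + ‖Ac ψ w lam T t‖ := (mul_le_mul_of_nonneg_right hcj (norm_nonneg _)).trans n3
    rw [← hZ]
    have n5 : J ^ 2 / 8 * ‖Z‖ ^ 2 ≤ ‖Dt t‖ ^ 2 + ‖Ac ψ w lam T t‖ ^ 2 := by
      have h1 : (J / 2 * ‖Z‖) ^ 2 ≤ (‖Dt t‖ + ‖Ac ψ w lam T t‖) ^ 2 := pow_le_pow_left₀ (by positivity) n4 2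
      nlinarith [sq_nonneg (‖Dt t‖ - ‖Ac ψ w lam T t‖)]
    have h6 := mul_le_mul_of_nonneg_right n5 (sq_nonneg ‖dp N b t‖)
    nlinarith
  have hab : T + 2 * Real.log T ≤ 2 * T - 2 * Real.log T ∨ 2 * T - 2 * Real.log T < T + 2 * Real.log T := le_or_gt _ _
  rcases hab with hab | hab
  · have i1 : IntervalIntegrable (fun t => ‖Zt (wl lam w) T (lam * Real.log T) t‖ ^ 2 * ‖dp N b t‖ ^ 2) volume (T + 2 * Real.log T) (2 * T - 2 * Real.log T) := by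
      have e : (fun t => ‖Zt (wl lam w) T (lam * Real.log T) t‖ ^ 2 * ‖dp N b t‖ ^ 2) =
          fun t : ℝ => ‖cexp (-(I * (lam * Real.log T * t))) * Zt (wl lam w) T (lam * Real.log T) t‖ ^ 2 * ‖dp N b t‖ ^ 2 := by
        funext t
        have n1 : ‖cexp (-(I * ((lam : ℂ) * Real.log T * t)))‖ = 1 := by
          rw [Complex.norm_exp]
          have : (-(I * ((lam : ℂ) * Real.log T * t))).re = 0 := by
            rw [show (lam : ℂ) * Real.log T * t = ((lam * Real.log T * t : ℝ) : ℂ) by push_cast; ring]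
            simp
          rw [this, Real.exp_zero]
        rw [norm_mul, n1, one_mul]
      rw [e]
      exact ((hZc.norm.pow 2).mul (hdp.norm.pow 2)).intervalIntegrable _ _
    have i2 : IntervalIntegrable (fun t => ‖Dt t‖ ^ 2 * ‖dp N b t‖ ^ 2) volume (T + 2 * Real.log T) (2 * T - 2 * Real.log T) :=
      ((hDc.norm.pow 2).mul (hdp.norm.pow 2)).intervalIntegrable _ _
    have i3 : IntervalIntegrable (fun t => ‖Ac ψ w lam T t‖ ^ 2 * ‖dp N b t‖ ^ 2) volume (T + 2 * Real.log T) (2 * T - 2 * Real.log T) :=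
      ((hAc.norm.pow 2).mul (hdp.norm.pow 2)).intervalIntegrable _ _
    have h1 := intervalIntegral.integral_mono_on hab ((i1.const_mul (J ^ 2 / 8)).sub i2) i3 (fun t _ => hpt t)
    rw [intervalIntegral.integral_sub (i1.const_mul _) i2, intervalIntegral.integral_const_mul] at h1
    refine le_trans ?_ h1
    have h2 := mul_le_mul_of_nonneg_left hlow (show 0 ≤ J ^ 2 / 8 by positivity)
    have h3 : (Cc * (14 * D) ^ 2 + 1) * (T * N2 N b) ≤ J ^ 2 / 8 * (H / 16 * (T * N2 N b)) := by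
      have h4 : Cc * (14 * D) ^ 2 + 1 ≤ J ^ 2 / 8 * (H / 16) := by
        rw [div_le_iff₀ (by positivity)] at hH2
        nlinarith
      calc _ ≤ J ^ 2 / 8 * (H / 16) * (T * N2 N b) := mul_le_mul_of_nonneg_right h4 hTN
        _ = _ := by ring
    linarith
  · -- impossible for large `T`
    exfalso
    linarith

end

end Pool.Agent.H4.LG
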