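import Pool.Agent.H4.LG.Stm

set_option autoImplicit false

/-! Project LG, module MEAN (helper97): the mean of the local statistic. -/

namespace Pool.Agent.H4.LG

open Filter Topology MeasureTheory Complex
open Pool.Agent.Q97.UM
open Pool.Agent.Q61.UM (bd dp_var N2_bd outer_sum)

noncomputable section

namespace MeanAux

/-- restriction to the window -/
lemma restr {F : ℝ → ℝ} {A B g r : ℝ} (hr : 0 ≤ r) (hA : A ≤ g - r) (hB : g + r ≤ B) (hF : ∀ t, r ≤ |g - t| → F t = 0) :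
    ∫ t in A..B, F t = ∫ t in (g - r)..(g + r), F t := by
  rw [intervalIntegral.integral_of_le (by linarith), intervalIntegral.integral_of_le (by linarith)]
  refine setIntegral_eq_of_subset_of_forall_sdiff_eq_zero measurableSet_Ioc (Set.Ioc_subset_Ioc hA hB) fun t ht => hF t ?_
  rw [Set.mem_sdiff, Set.mem_Ioc, Set.mem_Ioc, not_and_or] at ht
  rcases ht.2 with h | h
  · rw [not_lt] at h
    exact le_trans (by linarith) (le_abs_self _)
  · rw [not_le] at h
    rw [abs_sub_comm]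
    exact le_trans (by linarith) (le_abs_self _)

variable {V Q : ℝ} {ψ : ℝ → ℝ}

lemma psi_zero (h : PF V Q ψ) {L g t : ℝ} (hL : 0 < L) (ht : V / L ≤ |g - t|) : ψ (L * (g - t)) = 0 := by
  apply h.supp
  rw [abs_mul, abs_of_pos hL]
  rw [div_le_iff₀ hL] at ht
  linarith

lemma int_psi (h : PF V Q ψ) {L g : ℝ} (hL : 0 < L) (hV : 1 ≤ V) :
    ∫ t in (g - V / L)..(g + V / L), ψ (L * (g - t)) = (∫ x, ψ x) / L := by
  have hr : 0 < V / L := by positivity
  rw [intervalIntegral.integral_of_le (by linarith), setIntegral_eq_integral_of_forall_compl_eq_zero]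
  · have e1 := integral_sub_left_eq_self (fun t => ψ (L * t)) volume g
    rw [e1, Measure.integral_comp_mul_left, abs_of_pos (inv_pos.2 hL), smul_eq_mul]
    ring
  · intro t ht
    apply psi_zero h hL
    rw [Set.mem_Ioc, not_and_or] at ht
    rcases ht with h | h
    · rw [not_lt] at h
      exact le_trans (by linarith) (le_abs_self _)
    · rw [not_le] at h
      rw [abs_sub_comm]
      exact le_trans (by linarith) (le_abs_self _)

lemma psi_ii (h : PF V Q ψ) (L g : ℝ) {W : ℝ → ℝ} (hW : Continuous W) (a b : ℝ) :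
    IntervalIntegrable (fun t => ψ (L * (g - t)) * W t) volume a b := by
  have h1 : IntervalIntegrable (fun t => ψ (L * (g - t))) volume a b := by
    rw [intervalIntegrable_iff]
    refine Measure.integrableOn_of_bounded (M := Q) (by simp) ?_ (Eventually.of_forall fun t => ?_)
    · exact (h.meas.comp ((measurable_id.const_sub g).const_mul L)).aestronglyMeasurable
    · rw [Real.norm_eq_abs]
      exact h.bd _
  exact h1.mul_continuousOn hW.continuousOn

lemma psi_int (h : PF V Q ψ) (hV : 1 ≤ V) : |∫ x, ψ x| ≤ 2 * V * Q := by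
  have h1 := int_psi h (g := 0) one_pos hV
  rw [div_one, div_one] at h1
  rw [← h1]
  have h2 := intervalIntegral.norm_integral_le_of_norm_le_const (a := 0 - V) (b := 0 + V) (f := fun t => ψ (1 * (0 - t))) (C := Q)
    (fun t _ => by rw [Real.norm_eq_abs]; exact h.bd _)
  rw [Real.norm_eq_abs] at h2
  refine h2.trans (le_of_eq ?_)
  rw [show 0 + V - (0 - V) = 2 * V by ring, abs_of_pos (by linarith)]
  ring

/-- one zero -/
lemma one (h : PF V Q ψ) (hV : 1 ≤ V) {W k : ℝ → ℝ} {L g A B : ℝ} (hL : 0 < L) (hA : A ≤ g - V / L)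
    (hB : g + V / L ≤ B) (hW : Continuous W) (hk : Continuous k) (hk0 : ∀ t, 0 ≤ k t)
    (hv : ∀ x y, |W y - W x| ≤ |∫ t in x..y, k t|) :
    |(∫ t in A..B, ψ (L * (g - t)) * W t) - (∫ x, ψ x) / L * W g| ≤
      2 * (V / L) * Q * ∫ t in (g - V / L)..(g + V / L), k t := by
  obtain ⟨r, hr⟩ : ∃ r, r = V / L := ⟨_, rfl⟩
  have hr0 : 0 < r := by rw [hr]; positivity
  have e1 : ∫ t in A..B, ψ (L * (g - t)) * W t = ∫ t in (g - r)..(g + r), ψ (L * (g - t)) * W t := by
    refine restr hr0.le (by rw [hr]; exact hA) (by rw [hr]; exact hB) fun t ht => ?_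
    rw [psi_zero h hL (by rw [← hr]; exact ht), zero_mul]
  have e2 : (∫ x, ψ x) / L * W g = ∫ t in (g - r)..(g + r), ψ (L * (g - t)) * W g := by
    rw [intervalIntegral.integral_mul_const, hr, int_psi h hL hV]
  have hQ0 : 0 ≤ Q := (abs_nonneg _).trans (h.bd 0)
  rw [e1, e2, ← intervalIntegral.integral_sub (psi_ii h L g hW _ _) (psi_ii h L g continuous_const _ _), ← hr]
  have hki : ∀ x y, IntervalIntegrable k volume x y := fun x y => hk.intervalIntegrable x y
  have hK : ∀ t ∈ Set.uIoc (g - r) (g + r), ‖ψ (L * (g - t)) * W t - ψ (L * (g - t)) * W g‖ ≤ Q * ∫ t in (g - r)..(g + r), k t := by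
    intro t ht
    rw [Set.uIoc_of_le (by linarith), Set.mem_Ioc] at ht
    rw [← mul_sub, norm_mul, Real.norm_eq_abs, Real.norm_eq_abs]
    refine mul_le_mul (h.bd _) ?_ (abs_nonneg _) hQ0
    refine (hv g t).trans ?_
    rcases le_total g t with h' | h'
    · rw [abs_of_nonneg (intervalIntegral.integral_nonneg h' fun u _ => hk0 u)]
      exact intervalIntegral.integral_mono_interval (by linarith) h' ht.2 (Eventually.of_forall hk0) (hki _ _)
    · rw [intervalIntegral.integral_symm, abs_neg, abs_of_nonneg (intervalIntegral.integral_nonneg h' fun u _ => hk0 u)]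
      exact intervalIntegral.integral_mono_interval ht.1.le h' (by linarith) (Eventually.of_forall hk0) (hki _ _)
  have h2 := intervalIntegral.norm_integral_le_of_norm_le_const hK
  rw [Real.norm_eq_abs, show g + r - (g - r) = 2 * r by ring, abs_of_pos (by linarith : 0 < 2 * r)] at h2
  refine h2.trans (le_of_eq ?_)
  ring

/-- the weight of a zero in `SS` -/
def Ew (δ T : ℝ) (s : ℂ) (v : ℝ) : ℝ :=
  Real.exp (2 * δ * (Real.log T * |s.re - 1 / 2|)) / (1 + Real.log T * |s.im - v|) ^ 2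

lemma Ew_cont (δ : ℝ) {T : ℝ} (s : ℂ) (hL : 0 < Real.log T) : Continuous (Ew δ T s) := by
  unfold Ew
  refine continuous_const.div ((continuous_const.add (continuous_const.mul (continuous_const.sub continuous_id).abs)).pow 2) fun v => ?_
  have : 0 ≤ Real.log T * |s.im - v| := by positivity
  positivity

lemma Ew_nonneg (δ T : ℝ) (s : ℂ) (v : ℝ) : 0 ≤ Ew δ T s v := by
  unfold Ew
  positivity

lemma Ew_ge {δ T : ℝ} {s : ℂ} {v : ℝ} (hδ : 0 ≤ δ) (hL : 0 < Real.log T) (hV : 1 ≤ V) (hv : |s.im - v| ≤ V / Real.log T) :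
    1 ≤ (1 + V) ^ 2 * Ew δ T s v := by
  rw [le_div_iff₀ hL] at hv
  unfold Ew
  have h1 : (1 : ℝ) ≤ Real.exp (2 * δ * (Real.log T * |s.re - 1 / 2|)) := Real.one_le_exp (by positivity)
  have h2 : 0 ≤ Real.log T * |s.im - v| := by positivity
  rw [← mul_div_assoc, le_div_iff₀ (by positivity), one_mul]
  have h3 : (1 + Real.log T * |s.im - v|) ^ 2 ≤ (1 + V) ^ 2 := by
    refine pow_le_pow_left₀ (by positivity) ?_ 2
    linarith
  have h4 : (1 + V) ^ 2 * 1 ≤ (1 + V) ^ 2 * Real.exp (2 * δ * (Real.log T * |s.re - 1 / 2|)) :=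
    mul_le_mul_of_nonneg_left h1 (by positivity)
  linarith

lemma ZT_facts {T : ℝ} (hT : 16 ≤ T) {s : ℂ} (hs : s ∈ ZT T) : T + 1 < s.im ∧ s.im ≤ 2 * T - 1 ∧ s ∈ ZD T ∧
    s ∈ H370.Zf riemannZeta T (2 * T) := by
  have hF := H370.good_zeta
  unfold ZT at hs
  unfold ZD
  rw [H370.mem_Zf hF (by linarith)] at hs
  rw [H370.mem_Zf hF (by linarith), H370.mem_Zf hF (by linarith)]
  obtain ⟨a1, a2, a3, a4, a5⟩ := hs
  exact ⟨a3, a4, ⟨a1, a2, by linarith, by linarith, a5⟩, ⟨a1, a2, by linarith, by linarith, a5⟩⟩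

lemma sumK {δ T : ℝ} {k : ℝ → ℝ} (hδ : 0 ≤ δ) (hT : 16 ≤ T) (hL : 0 < Real.log T) (hV : 1 ≤ V) (hVL : V / Real.log T ≤ 1)
    (hk : Continuous k) (hk0 : ∀ t, 0 ≤ k t) :
    ∑ s ∈ ZT T, (mz s : ℝ) * ∫ v in (s.im - V / Real.log T)..(s.im + V / Real.log T), k v ≤
      (1 + V) ^ 2 * ∫ v in (T / 4)..(8 * T), SS δ T v * k v := by
  have hr0 : 0 < V / Real.log T := by positivity
  have h0 : ∀ s : ℂ, 0 ≤ (mz s : ℝ) * ((1 + V) ^ 2 * ∫ v in (T / 4)..(8 * T), Ew δ T s v * k v) := fun s => by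
    have := intervalIntegral.integral_nonneg (μ := volume) (f := fun v => Ew δ T s v * k v) (show T / 4 ≤ 8 * T by linarith)
      (fun v _ => mul_nonneg (Ew_nonneg _ _ _ _) (hk0 v))
    positivity
  have h1 : ∑ s ∈ ZT T, (mz s : ℝ) * ∫ v in (s.im - V / Real.log T)..(s.im + V / Real.log T), k v ≤
      ∑ s ∈ ZT T, (mz s : ℝ) * ((1 + V) ^ 2 * ∫ v in (T / 4)..(8 * T), Ew δ T s v * k v) := by
    refine Finset.sum_le_sum fun s hs => mul_le_mul_of_nonneg_left ?_ (Nat.cast_nonneg _)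
    obtain ⟨g1, g2, -, -⟩ := ZT_facts hT hs
    have hc : Continuous fun v => (1 + V) ^ 2 * (Ew δ T s v * k v) := ((Ew_cont δ s hL).mul hk).const_mul _
    rw [← intervalIntegral.integral_const_mul]
    calc ∫ v in (s.im - V / Real.log T)..(s.im + V / Real.log T), k v ≤
        ∫ v in (s.im - V / Real.log T)..(s.im + V / Real.log T), (1 + V) ^ 2 * (Ew δ T s v * k v) := by
          refine intervalIntegral.integral_mono_on (by linarith) (hk.intervalIntegrable _ _) (hc.intervalIntegrable _ _) fun v hv => ?_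
          rw [Set.mem_Icc] at hv
          have h2 := Ew_ge (s := s) (v := v) hδ hL hV (abs_le.2 ⟨by linarith, by linarith⟩)
          have h3 := mul_le_mul_of_nonneg_right h2 (hk0 v)
          linarith
      _ ≤ ∫ v in (T / 4)..(8 * T), (1 + V) ^ 2 * (Ew δ T s v * k v) :=
          intervalIntegral.integral_mono_interval (by linarith) (by linarith) (by linarith)
            (Eventually.of_forall fun v => mul_nonneg (by positivity) (mul_nonneg (Ew_nonneg _ _ _ _) (hk0 v)))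
            (hc.intervalIntegrable _ _)
  have h2 : ∑ s ∈ ZT T, (mz s : ℝ) * ((1 + V) ^ 2 * ∫ v in (T / 4)..(8 * T), Ew δ T s v * k v) ≤
      ∑ s ∈ ZD T, (mz s : ℝ) * ((1 + V) ^ 2 * ∫ v in (T / 4)..(8 * T), Ew δ T s v * k v) :=
    Finset.sum_le_sum_of_subset_of_nonneg (fun s hs => (ZT_facts hT hs).2.2.1) fun s _ _ => h0 s
  refine (h1.trans h2).trans (le_of_eq ?_)
  have h3 : ∫ v in (T / 4)..(8 * T), SS δ T v * k v = ∑ s ∈ ZD T, (mz s : ℝ) * ∫ v in (T / 4)..(8 * T), Ew δ T s v * k v := by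
    have e1 : (fun v => SS δ T v * k v) = fun v => ∑ s ∈ ZD T, (mz s : ℝ) * (Ew δ T s v * k v) := by
      funext v
      unfold SS Ew
      rw [Finset.sum_mul]
      refine Finset.sum_congr rfl fun s _ => ?_
      ring
    have hc : ∀ s ∈ ZD T, IntervalIntegrable (fun v => (mz s : ℝ) * (Ew δ T s v * k v)) volume (T / 4) (8 * T) :=
      fun s _ => (((Ew_cont δ s hL).mul hk).const_mul _).intervalIntegrable _ _
    rw [e1, intervalIntegral.integral_finsetSum hc]
    refine Finset.sum_congr rfl fun s _ => ?_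
    rw [intervalIntegral.integral_const_mul]
  rw [h3, Finset.mul_sum]
  refine Finset.sum_congr rfl fun s _ => ?_
  ring

lemma SS_cont (δ : ℝ) {T : ℝ} (hL : 0 < Real.log T) : Continuous (SS δ T) := by
  unfold SS
  exact continuous_finsetSum _ fun s _ => (Ew_cont δ s hL).const_mul _

end MeanAux

open MeanAux

open Classical in
theorem t_MEAN : S_MEAN := by
  intro V Q ψ hV hQ hψ ε hε
  have hF := H370.good_zeta
  have hD := Pool.Agent.Q84.UM.t_DPM
  obtain ⟨C, hC, hcnt⟩ := H370.zcount hF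
  obtain ⟨ε', hε'⟩ : ∃ ε', ε' = ε / (8 * V * Q) := ⟨_, rfl⟩
  have hε'0 : 0 < ε' := by rw [hε']; positivity
  obtain ⟨θ₁, hθ₁, hθ₁', hSA⟩ := b_SAMP ε' hε'0
  obtain ⟨θ₀, c, C₀, hθ₀, hθ₀', hc, hC₀, hTB⟩ := b_TAIL
  obtain ⟨δ, hδ⟩ : ∃ δ, δ = c / 32 := ⟨_, rfl⟩
  have hδ0 : 0 < δ := by rw [hδ]; positivity
  obtain ⟨C', hC', hST⟩ := b_STM θ₀ c C₀ hθ₀ hθ₀' hc hC₀ hTB 1 δ hδ0 (by rw [hδ]; push_cast; linarith)
  obtain ⟨θ, hθ⟩ : ∃ θ, θ = min (min θ₁ (θ₀ / 2)) (ε / (8 * V * Q * (1 + V) ^ 2 * (C' + 1))) := ⟨_, rfl⟩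
  have hθ0 : 0 < θ := by rw [hθ]; positivity
  have hθa : θ ≤ θ₁ := by rw [hθ]; exact (min_le_left _ _).trans (min_le_left _ _)
  have hθb : θ ≤ θ₀ / 2 := by rw [hθ]; exact (min_le_left _ _).trans (min_le_right _ _)
  have hθc : θ ≤ ε / (8 * V * Q * (1 + V) ^ 2 * (C' + 1)) := by rw [hθ]; exact min_le_right _ _
  have hθd : 4 * V * Q * (1 + V) ^ 2 * C' * θ ≤ ε / 2 := by
    rw [le_div_iff₀ (by positivity)] at hθc
    have h1 : 4 * V * Q * (1 + V) ^ 2 * C' * θ ≤ 4 * V * Q * (1 + V) ^ 2 * (C' + 1) * θ := by gcongr; linarith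
    linarith
  refine ⟨θ, hθ0, hθa.trans hθ₁', ?_⟩
  have hlog : ∀ᶠ T : ℝ in atTop, 12 * C * Real.log T ≤ ε' * T ^ (39 / 40 : ℝ) := by
    have h1 := isLittleO_log_rpow_atTop (show (0 : ℝ) < 39 / 40 by norm_num)
    have h2 := h1.bound (show 0 < ε' / (12 * C) by positivity)
    filter_upwards [h2, eventually_ge_atTop (1 : ℝ)] with T h hT
    rw [Real.norm_eq_abs, Real.norm_eq_abs, abs_of_nonneg (Real.log_nonneg hT), abs_of_nonneg (by positivity)] at h
    have h3 : 12 * C * Real.log T ≤ 12 * C * (ε' / (12 * C) * T ^ (39 / 40 : ℝ)) := by gcongr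
    refine h3.trans (le_of_eq ?_)
    field_simp
  have hlog2 : ∀ᶠ T : ℝ in atTop, 4 * Real.log T ≤ T := by
    have h2 := (Real.isLittleO_log_id_atTop).bound (show (0 : ℝ) < 1 / 4 by norm_num)
    filter_upwards [h2, eventually_ge_atTop (1 : ℝ)] with T h hT
    simp only [id] at h
    rw [Real.norm_eq_abs, Real.norm_eq_abs, abs_of_nonneg (Real.log_nonneg hT), abs_of_nonneg (by positivity)] at h
    linarith
  filter_upwards [hSA, hST, hlog, hlog2, eventually_ge_atTop (16 : ℝ), Real.tendsto_log_atTop.eventually_ge_atTop 1,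
    Real.tendsto_log_atTop.eventually_ge_atTop V] with T hSA hST hlog hLT hT hL1 hLV
  intro N hN b
  have hT0 : 0 < T := by linarith
  have hT1 : 1 ≤ T := by linarith
  have hN1 : (N : ℝ) ≤ T ^ θ₁ := hN.trans (Real.rpow_le_rpow_of_exponent_le hT1 hθa)
  have hN2 : (N : ℝ) ≤ T ^ (θ₀ / 2) := hN.trans (Real.rpow_le_rpow_of_exponent_le hT1 hθb)
  have hN3 : (N : ℝ) ≤ T ^ (1 / 40 : ℝ) := hN.trans (Real.rpow_le_rpow_of_exponent_le hT1 (hθa.trans hθ₁'))
  have hout : 12 * C * Real.log T * T ^ (1 / 40 : ℝ) ≤ ε' * T := by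
    calc 12 * C * Real.log T * T ^ (1 / 40 : ℝ) ≤ ε' * T ^ (39 / 40 : ℝ) * T ^ (1 / 40 : ℝ) := by gcongr
      _ = ε' * (T ^ (39 / 40 : ℝ) * T ^ (1 / 40 : ℝ)) := by ring
      _ = ε' * T := by
          rw [← Real.rpow_add hT0]
          norm_num
  have hS1 := hST N hN2 b
  have hS2 := hST N hN2 (bd b)
  replace hSA := (hSA N hN1 b).2.2
  have hL0 : 0 < Real.log T := by linarith
  have hVL : V / Real.log T ≤ 1 := by rw [div_le_one hL0]; exact hLV
  have hVL0 : 0 < V / Real.log T := by positivity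
  have hdc : ∀ c : ℕ → ℂ, Continuous (dp N c) := fun c => (hD.2.2 N c 0).2
  obtain ⟨lam, hlam⟩ : ∃ lam, lam = θ * Real.log T := ⟨_, rfl⟩
  have hlam0 : 0 < lam := by rw [hlam]; positivity
  have hNN := N2_nonneg N b
  obtain ⟨S, hS⟩ : ∃ S, S = T * N2 N b := ⟨_, rfl⟩
  have hS0 : 0 ≤ S := by rw [hS]; positivity
  obtain ⟨k, hk⟩ : ∃ k : ℝ → ℝ, k = fun t => lam * ‖dp N b t‖ ^ 2 + lam⁻¹ * ‖dp N (bd b) t‖ ^ 2 := ⟨_, rfl⟩
  have hkc : Continuous k := by
    rw [hk]
    exact (((hdc b).norm.pow 2).const_mul _).add (((hdc (bd b)).norm.pow 2).const_mul _)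
  have hk0 : ∀ t, 0 ≤ k t := fun t => by rw [hk]; positivity
  have hv : ∀ x y, |‖dp N b y‖ ^ 2 - ‖dp N b x‖ ^ 2| ≤ |∫ t in x..y, k t| := fun x y => by
    rw [hk]
    exact dp_var hD N b hlam0 x y
  -- the integral of `SS * k`
  have hbd : N2 N (bd b) ≤ lam ^ 2 * N2 N b := by
    refine (N2_bd N b).trans (mul_le_mul_of_nonneg_right ?_ hNN)
    rcases Nat.eq_zero_or_pos N with h0 | h0
    · rw [h0]; simp; positivity
    · have h1 : (1 : ℝ) ≤ N := by exact_mod_cast h0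
      have h2 : Real.log N ≤ lam := by
        rw [hlam, ← Real.log_rpow hT0]
        exact Real.log_le_log (by linarith) hN
      have h3 := Real.log_nonneg h1
      gcongr
  have hSk : ∫ v in (T / 4)..(8 * T), SS δ T v * k v ≤ 2 * lam * C' * S := by
    have i1 : ∀ c : ℕ → ℂ, IntervalIntegrable (fun t => SS δ T t * ‖dp N c t‖ ^ 2) volume (T / 4) (8 * T) := fun c =>
      ((SS_cont δ hL0).mul ((hdc c).norm.pow 2)).intervalIntegrable _ _
    have e1 : ∫ v in (T / 4)..(8 * T), SS δ T v * k v = lam * (∫ v in (T / 4)..(8 * T), SS δ T v * ‖dp N b v‖ ^ 2) +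
        lam⁻¹ * ∫ v in (T / 4)..(8 * T), SS δ T v * ‖dp N (bd b) v‖ ^ 2 := by
      rw [← intervalIntegral.integral_const_mul, ← intervalIntegral.integral_const_mul,
        ← intervalIntegral.integral_add ((i1 b).const_mul _) ((i1 (bd b)).const_mul _)]
      congr 1
      funext v
      rw [hk]
      ring
    rw [e1]
    simp only [pow_one] at hS1 hS2
    have h1 : C' * T * N2 N (bd b) ≤ C' * T * (lam ^ 2 * N2 N b) := mul_le_mul_of_nonneg_left hbd (by positivity)
    have h2 := mul_le_mul_of_nonneg_left hS1 hlam0.le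
    have h3 := mul_le_mul_of_nonneg_left (hS2.trans h1) (inv_nonneg.2 hlam0.le)
    have e2 : lam⁻¹ * (C' * T * (lam ^ 2 * N2 N b)) = lam * (C' * T * N2 N b) := by
      field_simp
    rw [e2] at h3
    have e3 : 2 * lam * C' * S = lam * (C' * T * N2 N b) + lam * (C' * T * N2 N b) := by
      rw [hS]; ring
    rw [e3]
    exact add_le_add h2 h3
  -- the integral of the statistic
  have hY : ∫ t in T..(2 * T), Yt ψ T t * ‖dp N b t‖ ^ 2 = ∑ s ∈ ZT T, (mz s : ℝ) *
      ∫ t in T..(2 * T), ψ (Real.log T * (s.im - t)) * ‖dp N b t‖ ^ 2 := by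
    have e1 : (fun t => Yt ψ T t * ‖dp N b t‖ ^ 2) = fun t => ∑ s ∈ ZT T, (mz s : ℝ) *
        (ψ (Real.log T * (s.im - t)) * ‖dp N b t‖ ^ 2) := by
      funext t
      unfold Yt
      rw [Finset.sum_mul]
      refine Finset.sum_congr rfl fun s _ => ?_
      ring
    have i1 : ∀ s ∈ ZT T, IntervalIntegrable (fun t => (mz s : ℝ) * (ψ (Real.log T * (s.im - t)) * ‖dp N b t‖ ^ 2)) volume T (2 * T) :=
      fun s _ => (psi_ii hψ (Real.log T) s.im ((hdc b).norm.pow 2) _ _).const_mul _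
    rw [e1, intervalIntegral.integral_finsetSum i1]
    refine Finset.sum_congr rfl fun s _ => ?_
    rw [intervalIntegral.integral_const_mul]
  have h1 : |(∫ t in T..(2 * T), Yt ψ T t * ‖dp N b t‖ ^ 2) - (∫ x, ψ x) / Real.log T * ∑ s ∈ ZT T, (mz s : ℝ) * ‖dp N b s.im‖ ^ 2| ≤
      ε / 2 * S := by
    have h2 : |(∫ t in T..(2 * T), Yt ψ T t * ‖dp N b t‖ ^ 2) - (∫ x, ψ x) / Real.log T * ∑ s ∈ ZT T, (mz s : ℝ) * ‖dp N b s.im‖ ^ 2| ≤
        ∑ s ∈ ZT T, (mz s : ℝ) * (2 * (V / Real.log T) * Q * ∫ t in (s.im - V / Real.log T)..(s.im + V / Real.log T), k t) := by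
      rw [hY, Finset.mul_sum, ← Finset.sum_sub_distrib]
      refine (Finset.abs_sum_le_sum_abs _ _).trans (Finset.sum_le_sum fun s hs => ?_)
      obtain ⟨g1, g2, -, -⟩ := ZT_facts hT hs
      have e1 : (mz s : ℝ) * (∫ t in T..(2 * T), ψ (Real.log T * (s.im - t)) * ‖dp N b t‖ ^ 2) -
          (∫ x, ψ x) / Real.log T * ((mz s : ℝ) * ‖dp N b s.im‖ ^ 2) =
          (mz s : ℝ) * ((∫ t in T..(2 * T), ψ (Real.log T * (s.im - t)) * ‖dp N b t‖ ^ 2) -
          (∫ x, ψ x) / Real.log T * ‖dp N b s.im‖ ^ 2) := by ring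
      rw [e1, abs_mul, abs_of_nonneg (Nat.cast_nonneg (α := ℝ) (mz s))]
      refine mul_le_mul_of_nonneg_left ?_ (Nat.cast_nonneg _)
      exact one hψ hV (W := fun t => ‖dp N b t‖ ^ 2) hL0 (by linarith) (by linarith) ((hdc b).norm.pow 2) hkc hk0 hv
    refine h2.trans ?_
    have e1 : ∑ s ∈ ZT T, (mz s : ℝ) * (2 * (V / Real.log T) * Q * ∫ t in (s.im - V / Real.log T)..(s.im + V / Real.log T), k t) =
        2 * (V / Real.log T) * Q * ∑ s ∈ ZT T, (mz s : ℝ) * ∫ t in (s.im - V / Real.log T)..(s.im + V / Real.log T), k t := by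
      rw [Finset.mul_sum]
      refine Finset.sum_congr rfl fun s _ => ?_
      ring
    rw [e1]
    have h3 := (sumK hδ0.le hT hL0 hV hVL hkc hk0).trans (mul_le_mul_of_nonneg_left hSk (by positivity))
    have h4 := mul_le_mul_of_nonneg_left h3 (show 0 ≤ 2 * (V / Real.log T) * Q by positivity)
    refine h4.trans ?_
    have e2 : 2 * (V / Real.log T) * Q * ((1 + V) ^ 2 * (2 * lam * C' * S)) = 4 * V * Q * (1 + V) ^ 2 * C' * θ * S := by
      rw [hlam]
      field_simp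
      ring
    rw [e2]
    exact mul_le_mul_of_nonneg_right hθd hS0
  -- the zeros near the ends
  have h5 : |(∑ s ∈ H370.Zf riemannZeta T (2 * T), (mz s : ℝ) * ‖dp N b s.im‖ ^ 2) - ∑ s ∈ ZT T, (mz s : ℝ) * ‖dp N b s.im‖ ^ 2| ≤
      ε' * Real.log T * S := by
    have hsub : ZT T ⊆ H370.Zf riemannZeta T (2 * T) := fun s hs => (ZT_facts hT hs).2.2.2
    rw [← Finset.sum_sdiff hsub, add_sub_cancel_right, abs_of_nonneg (Finset.sum_nonneg fun s _ => by positivity)]
    have ho := outer_sum hC hcnt (T := T) (L := Real.log T) (r := V / Real.log T) rfl hL1 hVL (by linarith) hLT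
    have h6 : ∑ s ∈ H370.Zf riemannZeta T (2 * T) \ ZT T, (mz s : ℝ) ≤ 12 * C * Real.log T ^ 2 := by
      refine le_trans (Finset.sum_le_sum_of_subset_of_nonneg ?_ fun _ _ _ => Nat.cast_nonneg _) ho
      intro s hs
      rw [Finset.mem_sdiff] at hs
      rw [Finset.mem_filter]
      refine ⟨hs.1, fun h => hs.2 ?_⟩
      have hs1 := hs.1
      rw [H370.mem_Zf hF (by linarith)] at hs1
      unfold ZT
      rw [H370.mem_Zf hF (by linarith)]
      obtain ⟨a1, a2, a3, a4, a5⟩ := hs1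
      exact ⟨a1, a2, by linarith [h.1], by linarith [h.2], a5⟩
    calc ∑ s ∈ H370.Zf riemannZeta T (2 * T) \ ZT T, (mz s : ℝ) * ‖dp N b s.im‖ ^ 2 ≤
        ∑ s ∈ H370.Zf riemannZeta T (2 * T) \ ZT T, (mz s : ℝ) * (N * N2 N b) :=
          Finset.sum_le_sum fun s _ => mul_le_mul_of_nonneg_left (hD.2.2 N b s.im).1 (Nat.cast_nonneg _)
      _ = (∑ s ∈ H370.Zf riemannZeta T (2 * T) \ ZT T, (mz s : ℝ)) * (N * N2 N b) := by rw [Finset.sum_mul]
      _ ≤ 12 * C * Real.log T ^ 2 * (T ^ (1 / 40 : ℝ) * N2 N b) := by gcongr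
      _ = (12 * C * Real.log T * T ^ (1 / 40 : ℝ)) * (Real.log T * N2 N b) := by ring
      _ ≤ (ε' * T) * (Real.log T * N2 N b) := mul_le_mul_of_nonneg_right hout (by positivity)
      _ = ε' * Real.log T * S := by rw [hS]; ring
  rw [← hS] at hSA ⊢
  have h7 : |(∑ s ∈ ZT T, (mz s : ℝ) * ‖dp N b s.im‖ ^ 2) - Real.log T / (2 * Real.pi) * S| ≤ 2 * ε' * Real.log T * S := by
    have h8 := abs_le.1 hSA
    have h9 := abs_le.1 h5
    rw [abs_le]
    constructor <;> linarith [h8.1, h8.2, h9.1, h9.2]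
  have h8 : |(∫ x, ψ x) / Real.log T * (∑ s ∈ ZT T, (mz s : ℝ) * ‖dp N b s.im‖ ^ 2) - mu ψ * S| ≤ ε / 2 * S := by
    have e1 : mu ψ * S = (∫ x, ψ x) / Real.log T * (Real.log T / (2 * Real.pi) * S) := by
      unfold mu
      field_simp
    rw [e1, ← mul_sub, abs_mul, abs_div, abs_of_pos hL0]
    have h9 : |∫ x, ψ x| / Real.log T ≤ 2 * V * Q / Real.log T := div_le_div_of_nonneg_right (psi_int hψ hV) hL0.le
    refine (mul_le_mul h9 h7 (abs_nonneg _) (by positivity)).trans (le_of_eq ?_)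
    rw [hε']
    field_simp
    ring
  have h9 := abs_le.1 h1
  have h10 := abs_le.1 h8
  rw [abs_le]
  constructor <;> linarith [h9.1, h9.2, h10.1, h10.2]

end

end Pool.Agent.H4.LG
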