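import Pool.Agent.H4.LG.Stm
import Pool.Agent.H17.LG.Pro0

set_option autoImplicit false

/-! Module PRO of project LG (helper17). The work is done in `Pool.Agent.H17.LG.Pro0`. -/

namespace Pool.Agent.H4.LG

theorem t_PRO : S_PRO := by
  intro δ C K hδ0 hδ hC hK
  exact Pool.Agent.H17.LG.pro0 δ C K hδ0 hδ hC hK

end Pool.Agent.H4.LG
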