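import Pool.Agent.H4.LG.Stm

set_option autoImplicit false

/-! The sum over the zeros against the convolution: the pointwise estimate. -/

namespace Pool.Agent.H4.LG

open Filter Topology MeasureTheory Complex
open scoped ComplexConjugate
open Pool.Agent.Q97.UM

noncomputable section

/-- Fourier transform of `ψ` at `lam` -/
def cc (ψ : ℝ → ℝ) (lam : ℝ) : ℂ := ∫ v : ℝ, (ψ v : ℂ) * cexp (-(I * (lam * v)))

/-- `ψ` convolved with the dilated profile -/
def ph (ψ w : ℝ → ℝ) (lam x : ℝ) : ℂ := ∫ v : ℝ, (ψ v : ℂ) * GG w ((lam * (x - v) : ℝ) : ℂ)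

/-- the smoothed statistic -/
def Ac (ψ w : ℝ → ℝ) (lam T t : ℝ) : ℂ := ∑ s ∈ ZT T, (mz s : ℂ) * ph ψ w lam (Real.log T * (s.im - t))

lemma PF.int {V Q : ℝ} {ψ : ℝ → ℝ} (h : PF V Q ψ) {g : ℝ → ℂ} (hg : Continuous g) : Integrable (fun v => (ψ v : ℂ) * g v) := by
  have h1 : IntegrableOn (fun v => (ψ v : ℂ) * g v) (Set.Icc (-V) V) := by
    have h2 : IntegrableOn g (Set.Icc (-V) V) := hg.continuousOn.integrableOn_compact isCompact_Icc
    refine Integrable.bdd_mul (c := Q) h2 (Complex.measurable_ofReal.comp h.meas).aestronglyMeasurable ?_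
    exact Filter.Eventually.of_forall fun v => by
      rw [Complex.norm_real, Real.norm_eq_abs]; exact h.bd v
  have e : (fun v => (ψ v : ℂ) * g v) = (Set.Icc (-V) V).indicator (fun v => (ψ v : ℂ) * g v) := by
    funext v
    by_cases hv : v ∈ Set.Icc (-V) V
    · rw [Set.indicator_of_mem hv]
    · rw [Set.indicator_of_notMem hv]
      have : V ≤ |v| := by
        by_contra h3
        rw [not_le, abs_lt] at h3
        exact hv ⟨h3.1.le, h3.2.le⟩
      rw [h.supp v this]; simp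
  rw [e]
  exact (integrable_indicator_iff measurableSet_Icc).2 h1

/-- norm of an integral against `ψ` -/
lemma PF.norm {V Q : ℝ} {ψ : ℝ → ℝ} (h : PF V Q ψ) (hV : 1 ≤ V) (hQ : 1 ≤ Q) {g : ℝ → ℂ} {B : ℝ} (_hB : 0 ≤ B)
    (hg : ∀ v, |v| ≤ V → ‖g v‖ ≤ B) : ‖∫ v : ℝ, (ψ v : ℂ) * g v‖ ≤ 2 * V * Q * B := by
  have e : (fun v => (ψ v : ℂ) * g v) = (Set.Icc (-V) V).indicator (fun v => (ψ v : ℂ) * g v) := by
    funext v
    by_cases hv : v ∈ Set.Icc (-V) V
    · rw [Set.indicator_of_mem hv]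
    · rw [Set.indicator_of_notMem hv]
      have : V ≤ |v| := by
        by_contra h3
        rw [not_le, abs_lt] at h3
        exact hv ⟨h3.1.le, h3.2.le⟩
      rw [h.supp v this]; simp
  rw [e, integral_indicator measurableSet_Icc]
  have h1 := norm_setIntegral_le_of_norm_le_const (μ := volume) (s := Set.Icc (-V) V) (f := fun v => (ψ v : ℂ) * g v) (C := Q * B)
    (by rw [Real.volume_Icc]; exact ENNReal.ofReal_lt_top) (fun v hv => by
      rw [norm_mul, Complex.norm_real, Real.norm_eq_abs]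
      exact mul_le_mul (h.bd v) (hg v (abs_le.2 hv)) (norm_nonneg _) (by linarith))
  refine h1.trans (le_of_eq ?_)
  rw [Real.volume_real_Icc_of_le (by linarith)]
  ring

lemma cc_norm {V Q : ℝ} {ψ : ℝ → ℝ} (h : PF V Q ψ) (hV : 1 ≤ V) (hQ : 1 ≤ Q) (lam : ℝ) : ‖cc ψ lam‖ ≤ 2 * V * Q := by
  have h1 := h.norm hV hQ (g := fun v => cexp (-(I * (lam * v)))) zero_le_one (fun v _ => by
    rw [Complex.norm_exp]
    simp)
  rw [mul_one] at h1
  exact h1

/-- near `0` the transform is close to the integral -/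
lemma cc_lower {V Q : ℝ} {ψ : ℝ → ℝ} (h : PF V Q ψ) (hV : 1 ≤ V) (hQ : 1 ≤ Q) {lam : ℝ} (h0 : 0 < lam) (h1 : lam * V ≤ 1) :
    |∫ v, ψ v| - 4 * V ^ 2 * Q * lam ≤ ‖cc ψ lam‖ := by
  have e1 : ((∫ v, ψ v : ℝ) : ℂ) = ∫ v : ℝ, (ψ v : ℂ) * 1 := by
    simp only [mul_one]
    exact (integral_complex_ofReal).symm
  have hi1 : Integrable (fun v : ℝ => (ψ v : ℂ) * 1) := h.int continuous_const
  have hi2 : Integrable (fun v : ℝ => (ψ v : ℂ) * cexp (-(I * (lam * v)))) := h.int (by fun_prop)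
  have e2 : cc ψ lam - ((∫ v, ψ v : ℝ) : ℂ) = ∫ v : ℝ, (ψ v : ℂ) * (cexp (-(I * (lam * v))) - 1) := by
    rw [e1, cc, ← integral_sub hi2 hi1]
    refine integral_congr_ae (Filter.Eventually.of_forall fun v => ?_)
    simp only
    ring
  have h2 : ‖cc ψ lam - ((∫ v, ψ v : ℝ) : ℂ)‖ ≤ 2 * V * Q * (2 * (lam * V)) := by
    rw [e2]
    refine h.norm hV hQ (by positivity) fun v hv => ?_
    have h3 : ‖-(I * ((lam : ℂ) * v))‖ = lam * |v| := by
      rw [norm_neg, norm_mul, Complex.norm_I, one_mul, norm_mul, Complex.norm_real, Complex.norm_real, Real.norm_eq_abs,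
        Real.norm_eq_abs, abs_of_pos h0]
    have h4 : lam * |v| ≤ lam * V := mul_le_mul_of_nonneg_left hv h0.le
    have h5 := Complex.norm_exp_sub_one_le (x := -(I * ((lam : ℂ) * v))) (by rw [h3]; linarith)
    rw [h3] at h5
    linarith
  have h3 : ‖((∫ v, ψ v : ℝ) : ℂ)‖ = |∫ v, ψ v| := by rw [Complex.norm_real, Real.norm_eq_abs]
  have h4 := norm_sub_norm_le ((∫ v, ψ v : ℝ) : ℂ) (cc ψ lam)
  rw [norm_sub_rev] at h4
  rw [← h3]
  nlinarith

/-- the edge term -/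
lemma edge {V Q C₁ H : ℝ} {ψ w : ℝ → ℝ} (h : PF V Q ψ) (hV : 1 ≤ V) (hQ : 1 ≤ Q) (hC₁ : 1 ≤ C₁) (hc : Continuous (GG w))
    (hb : ∀ x h : ℝ, |h| ≤ 1 / 4 → ‖om w (x : ℂ) ^ 2 - om w ((x - h : ℝ) : ℂ) ^ 2‖ ≤ C₁ * |h| / (1 + |(|x| - H)|) ^ 2)
    {lam : ℝ} (h0 : 0 < lam) (h1 : lam * V ≤ 1 / 4) (x : ℝ) :
    ‖cc ψ lam * GG w ((lam * x : ℝ) : ℂ) - ph ψ w lam x‖ ≤ 2 * V ^ 2 * Q * C₁ * lam / (1 + |(|lam * x| - H)|) ^ 2 := by
  have hi1 : Integrable (fun v : ℝ => (ψ v : ℂ) * (cexp (-(I * (lam * v))) * GG w ((lam * x : ℝ) : ℂ))) := h.int (by fun_prop)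
  have hi2 : Integrable (fun v : ℝ => (ψ v : ℂ) * GG w ((lam * (x - v) : ℝ) : ℂ)) :=
    h.int (hc.comp (by fun_prop))
  have e0 : cc ψ lam * GG w ((lam * x : ℝ) : ℂ) = ∫ v : ℝ, (ψ v : ℂ) * (cexp (-(I * (lam * v))) * GG w ((lam * x : ℝ) : ℂ)) := by
    rw [cc, ← integral_mul_const]
    refine integral_congr_ae (Filter.Eventually.of_forall fun v => ?_)
    simp only
    ring
  have e1 : cc ψ lam * GG w ((lam * x : ℝ) : ℂ) - ph ψ w lam x =
      ∫ v : ℝ, (ψ v : ℂ) * (cexp (-(I * (lam * v))) * GG w ((lam * x : ℝ) : ℂ) - GG w ((lam * (x - v) : ℝ) : ℂ)) := by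
    rw [e0, ph, ← integral_sub hi1 hi2]
    refine integral_congr_ae (Filter.Eventually.of_forall fun v => ?_)
    simp only
    ring
  rw [e1]
  have hden : 0 < (1 + |(|lam * x| - H)|) ^ 2 := by positivity
  have h3 := h.norm hV hQ (g := fun v => cexp (-(I * (lam * v))) * GG w ((lam * x : ℝ) : ℂ) - GG w ((lam * (x - v) : ℝ) : ℂ))
    (B := C₁ * (lam * V) / (1 + |(|lam * x| - H)|) ^ 2) (by positivity) (fun v hv => by
      have e2 : cexp (-(I * (lam * v))) * GG w ((lam * x : ℝ) : ℂ) - GG w ((lam * (x - v) : ℝ) : ℂ) =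
          cexp (-(I * (lam * v))) * cexp (I * ((lam * x : ℝ) : ℂ)) *
            (om w ((lam * x : ℝ) : ℂ) ^ 2 - om w ((lam * x - lam * v : ℝ) : ℂ) ^ 2) := by
        unfold GG
        have e3 : cexp (I * ((lam * (x - v) : ℝ) : ℂ)) = cexp (-(I * (lam * v))) * cexp (I * ((lam * x : ℝ) : ℂ)) := by
          rw [← Complex.exp_add]
          congr 1
          push_cast
          ring
        rw [e3, show lam * (x - v) = lam * x - lam * v by ring]
        ring
      rw [e2, norm_mul, norm_mul]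
      have n1 : ‖cexp (-(I * ((lam : ℂ) * v)))‖ = 1 := by
        rw [Complex.norm_exp]; simp
      have n2 : ‖cexp (I * ((lam * x : ℝ) : ℂ))‖ = 1 := by
        rw [Complex.norm_exp]; simp
      rw [n1, n2, one_mul, one_mul]
      have h4 : |lam * v| ≤ lam * V := by
        rw [abs_mul, abs_of_pos h0]
        exact mul_le_mul_of_nonneg_left hv h0.le
      refine (hb (lam * x) (lam * v) (h4.trans h1)).trans ?_
      gcongr)
  refine h3.trans (le_of_eq ?_)
  ring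

/-- the sum over the zeros in terms of the profile -/
lemma Zt_eq {w : ℝ → ℝ} {lam : ℝ} (hd : ∀ z : ℂ, om (wl lam w) z = om w ((lam : ℂ) * z)) (T t : ℝ) :
    cexp (-(I * (lam * Real.log T * t))) * Zt (wl lam w) T (lam * Real.log T) t = ∑ s ∈ ZT T, (mz s : ℂ) *
      (GG w ((lam : ℂ) * (Real.log T * (H370.zz s - t))) * cexp (-(H370.zz s - t) ^ 2 / 2)) := by
  unfold Zt GG
  rw [Finset.mul_sum]
  refine Finset.sum_congr rfl fun s _ => ?_
  rw [hd]
  have e : cexp (I * ((lam : ℂ) * (Real.log T * (H370.zz s - t)))) =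
      cexp (-(I * (lam * Real.log T * t))) * cexp (I * ((lam * Real.log T : ℝ) : ℂ) * H370.zz s) := by
    rw [← Complex.exp_add]
    congr 1
    push_cast
    ring
  rw [e]
  ring

end

end Pool.Agent.H4.LG
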