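import Pool.Agent.H4.LG.Ptw

set_option autoImplicit false

/-! The sum over the zeros against the convolution: the pointwise estimate, part 2. -/

namespace Pool.Agent.H4.LG

open Filter Topology MeasureTheory Complex
open scoped ComplexConjugate
open Pool.Agent.Q97.UM

noncomputable section

lemma gauss {a b : ℝ} (hb : b ^ 2 ≤ 1 / 4) : ‖cexp (-((a : ℂ) - b * I) ^ 2 / 2) - 1‖ ≤ 3 * (a ^ 2 + b ^ 2) := by
  obtain ⟨z, hz⟩ : ∃ z : ℂ, z = -((a : ℂ) - b * I) ^ 2 / 2 := ⟨_, rfl⟩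
  have hn : ‖z‖ = (a ^ 2 + b ^ 2) / 2 := by
    rw [hz, norm_div, norm_neg, norm_pow, ← Complex.normSq_eq_norm_sq]
    have : normSq ((a : ℂ) - b * I) = a ^ 2 + b ^ 2 := by
      rw [Complex.normSq_apply]; simp; ring
    rw [this]; simp
  have hre : z.re ≤ 1 / 8 := by
    have e : z.re = (b ^ 2 - a ^ 2) / 2 := by
      rw [hz, show -((a : ℂ) - b * I) ^ 2 / 2 = (((b ^ 2 - a ^ 2) / 2 : ℝ) : ℂ) + ((a * b : ℝ) : ℂ) * I by
        push_cast
        ring_nf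
        rw [Complex.I_sq]
        ring]
      rw [Complex.add_re, Complex.ofReal_re, Complex.re_ofReal_mul, Complex.I_re]
      ring
    rw [e]
    nlinarith [sq_nonneg a]
  rw [← hz]
  rcases le_or_gt ‖z‖ 1 with h | h
  · have := Complex.norm_exp_sub_one_le h
    rw [hn] at this
    nlinarith [sq_nonneg a, sq_nonneg b]
  · have h1 : ‖cexp z - 1‖ ≤ ‖cexp z‖ + 1 := by
      have := norm_sub_le (cexp z) 1
      rwa [norm_one] at this
    have h2 : ‖cexp z‖ ≤ 2 := by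
      rw [Complex.norm_exp]
      have h3 : Real.exp z.re ≤ Real.exp (1 / 8) := Real.exp_le_exp.2 hre
      have h4 : Real.exp (1 / 8 : ℝ) ≤ 2 := by
        have := Real.exp_one_lt_d9
        have h5 : Real.exp (1 / 8 : ℝ) ^ 8 = Real.exp 1 := by rw [← Real.exp_nat_mul]; norm_num
        by_contra h6
        rw [not_le] at h6
        have : (2 : ℝ) ^ 8 < Real.exp (1 / 8 : ℝ) ^ 8 := pow_lt_pow_left₀ h6 (by norm_num) (by norm_num)
        rw [h5] at this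
        norm_num at this
        linarith
      linarith
    rw [hn] at h
    linarith

lemma wt {X H : ℝ} (hX : 0 ≤ X) (hH : 0 ≤ H) : 1 / (1 + max 0 (X - H)) ^ 4 ≤ (1 + H) ^ 4 / (1 + X) ^ 4 := by
  have h0 : 0 ≤ max 0 (X - H) := le_max_left _ _
  have h1 : X - H ≤ max 0 (X - H) := le_max_right _ _
  rw [div_le_div_iff₀ (by positivity) (by positivity), one_mul, ← mul_pow]
  apply pow_le_pow_left₀ (by positivity)
  nlinarith

lemma ysq {δ₁ lam y : ℝ} (h0 : 0 < δ₁) (hl : lam ≤ δ₁ / 4) (hy : 0 ≤ y) :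
    Real.exp (2 * (lam * y)) ≤ Real.exp (δ₁ * y) ∧ y ^ 2 * Real.exp (2 * (lam * y)) ≤ 8 / δ₁ ^ 2 * Real.exp (δ₁ * y) := by
  have h1 : 2 * (lam * y) ≤ δ₁ * y / 2 := by nlinarith
  have h2 : 0 ≤ δ₁ * y := by positivity
  have e1 : Real.exp (2 * (lam * y)) ≤ Real.exp (δ₁ * y / 2) := Real.exp_le_exp.2 h1
  refine ⟨e1.trans (Real.exp_le_exp.2 (by linarith)), ?_⟩
  have h3 := Real.quadratic_le_exp_of_nonneg (x := δ₁ * y / 2) (by positivity)
  have h4 : y ^ 2 ≤ 8 / δ₁ ^ 2 * Real.exp (δ₁ * y / 2) := by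
    rw [div_mul_eq_mul_div, le_div_iff₀ (by positivity)]
    nlinarith
  calc y ^ 2 * Real.exp (2 * (lam * y)) ≤ (8 / δ₁ ^ 2 * Real.exp (δ₁ * y / 2)) * Real.exp (δ₁ * y / 2) :=
        mul_le_mul h4 e1 (Real.exp_pos _).le (by positivity)
    _ = 8 / δ₁ ^ 2 * Real.exp (δ₁ * y) := by
        rw [mul_assoc, ← Real.exp_add]
        congr 2
        ring

/-- passage to the cell -/
lemma cell {lam a x : ℝ} (h0 : 0 < lam) (h1 : lam ≤ 1) : 1 / (1 + |lam * x - a|) ^ 2 ≤ 4 * (1 / (1 + |lam * ((⌊x⌋ : ℤ) : ℝ) - a|) ^ 2) := by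
  have h2 := Int.floor_le x
  have h3 := Int.lt_floor_add_one x
  have h4 : |lam * ((⌊x⌋ : ℤ) : ℝ) - a| ≤ |lam * x - a| + 1 := by
    have h5 : |lam * ((⌊x⌋ : ℤ) : ℝ) - lam * x| ≤ 1 := by
      rw [abs_le]
      constructor <;> nlinarith
    have := abs_add_le (lam * ((⌊x⌋ : ℤ) : ℝ) - lam * x) (lam * x - a)
    rw [sub_add_sub_cancel] at this
    linarith
  have h5 := abs_nonneg (lam * x - a)
  have h6 := abs_nonneg (lam * ((⌊x⌋ : ℤ) : ℝ) - a)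
  rw [mul_one_div, div_le_div_iff₀ (by positivity) (by positivity)]
  nlinarith

/-- the edge weights -/
lemma edgew {lam H x : ℝ} : 1 / (1 + |(|lam * x| - H)|) ^ 2 ≤ 1 / (1 + |lam * x - H|) ^ 2 + 1 / (1 + |lam * x - (-H)|) ^ 2 := by
  rcases le_total 0 (lam * x) with h | h
  · rw [abs_of_nonneg h]
    have : 0 ≤ 1 / (1 + |lam * x - (-H)|) ^ 2 := by positivity
    linarith
  · rw [abs_of_nonpos h]
    have h1 : |-(lam * x) - H| = |lam * x - (-H)| := by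
      rw [← abs_neg]
      congr 1
      ring
    rw [h1]
    have : 0 ≤ 1 / (1 + |lam * x - H|) ^ 2 := by positivity
    linarith

/-- the bulk bound: `x² + y²` against the profile -/
lemma bulk {δ₁ lam H x y : ℝ} (hδ : 0 < δ₁) (h0 : 0 < lam) (h1 : lam ≤ 1) (hl : lam ≤ δ₁ / 4) (hy : 0 ≤ y) (hH : 0 ≤ H) :
    Real.exp (2 * (lam * y)) * (1 / (1 + max 0 (|lam * x| - H)) ^ 4) * (x ^ 2 + y ^ 2) ≤
      (1 + H) ^ 4 * (1 / lam ^ 2 + 8 / δ₁ ^ 2) * (Real.exp (δ₁ * y) * (4 * (1 / (1 + |lam * ((⌊x⌋ : ℤ) : ℝ) - 0|) ^ 2))) ∧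
    Real.exp (2 * (lam * y)) * (1 / (1 + max 0 (|lam * x| - H)) ^ 4) * y ^ 2 ≤
      (1 + H) ^ 4 * (8 / δ₁ ^ 2) * (Real.exp (δ₁ * y) * (4 * (1 / (1 + |lam * ((⌊x⌋ : ℤ) : ℝ) - 0|) ^ 2))) := by
  obtain ⟨e1, e2⟩ := ysq hδ hl hy
  have hX : 0 ≤ |lam * x| := abs_nonneg _
  have hw := wt hX hH
  have hcell := cell (a := 0) (x := x) h0 h1
  rw [sub_zero] at hcell
  obtain ⟨P, hP⟩ : ∃ P, P = 1 / (1 + |lam * x|) ^ 2 := ⟨_, rfl⟩
  have hP0 : 0 ≤ P := by rw [hP]; positivity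
  obtain ⟨W, hW⟩ : ∃ W, W = 1 / (1 + max 0 (|lam * x| - H)) ^ 4 := ⟨_, rfl⟩
  have hW0 : 0 ≤ W := by rw [hW]; positivity
  rw [← hW] at hw ⊢
  rw [← hP] at hcell
  have hq : (1 + H) ^ 4 / (1 + |lam * x|) ^ 4 ≤ (1 + H) ^ 4 * P := by
    rw [hP, div_eq_mul_one_div]
    apply mul_le_mul_of_nonneg_left _ (by positivity)
    apply one_div_le_one_div_of_le (by positivity)
    apply pow_le_pow_right₀ (by linarith) (by norm_num)
  have hx2 : (1 + H) ^ 4 / (1 + |lam * x|) ^ 4 * x ^ 2 ≤ (1 + H) ^ 4 * (1 / lam ^ 2) * P := by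
    have h3 : x ^ 2 = 1 / lam ^ 2 * |lam * x| ^ 2 := by
      rw [sq_abs]
      field_simp
    have h4 : 1 / (1 + |lam * x|) ^ 4 * |lam * x| ^ 2 ≤ P := by
      rw [hP, div_mul_eq_mul_div, one_mul, div_le_div_iff₀ (by positivity) (by positivity), one_mul]
      have h5 : |lam * x| ^ 2 ≤ (1 + |lam * x|) ^ 2 := pow_le_pow_left₀ hX (by linarith) 2
      calc |lam * x| ^ 2 * (1 + |lam * x|) ^ 2 ≤ (1 + |lam * x|) ^ 2 * (1 + |lam * x|) ^ 2 :=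
            mul_le_mul_of_nonneg_right h5 (by positivity)
        _ = (1 + |lam * x|) ^ 4 := by ring
    calc (1 + H) ^ 4 / (1 + |lam * x|) ^ 4 * x ^ 2 = (1 + H) ^ 4 * (1 / lam ^ 2) * (1 / (1 + |lam * x|) ^ 4 * |lam * x| ^ 2) := by
          rw [h3]; ring
      _ ≤ _ := mul_le_mul_of_nonneg_left h4 (by positivity)
  have hE := Real.exp_pos (2 * (lam * y))
  have hE1 := Real.exp_pos (δ₁ * y)
  have hWP : W ≤ (1 + H) ^ 4 * P := hw.trans hq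
  have f1 : Real.exp (2 * (lam * y)) * W * x ^ 2 ≤ (1 + H) ^ 4 * (1 / lam ^ 2) * (Real.exp (δ₁ * y) * P) := by
    calc Real.exp (2 * (lam * y)) * W * x ^ 2 ≤ Real.exp (δ₁ * y) * ((1 + H) ^ 4 / (1 + |lam * x|) ^ 4 * x ^ 2) := by
          rw [mul_assoc]
          exact mul_le_mul e1 (mul_le_mul_of_nonneg_right hw (sq_nonneg _)) (by positivity) hE1.le
      _ ≤ Real.exp (δ₁ * y) * ((1 + H) ^ 4 * (1 / lam ^ 2) * P) := mul_le_mul_of_nonneg_left hx2 hE1.le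
      _ = _ := by ring
  have f2 : Real.exp (2 * (lam * y)) * W * y ^ 2 ≤ (1 + H) ^ 4 * (8 / δ₁ ^ 2) * (Real.exp (δ₁ * y) * P) := by
    calc Real.exp (2 * (lam * y)) * W * y ^ 2 = (y ^ 2 * Real.exp (2 * (lam * y))) * W := by ring
      _ ≤ (8 / δ₁ ^ 2 * Real.exp (δ₁ * y)) * ((1 + H) ^ 4 * P) := mul_le_mul e2 hWP hW0 (by positivity)
      _ = _ := by ring
  have hPc : Real.exp (δ₁ * y) * P ≤ Real.exp (δ₁ * y) * (4 * (1 / (1 + |lam * ((⌊x⌋ : ℤ) : ℝ) - 0|) ^ 2)) :=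
    mul_le_mul_of_nonneg_left hcell hE1.le
  constructor
  · calc Real.exp (2 * (lam * y)) * W * (x ^ 2 + y ^ 2) = Real.exp (2 * (lam * y)) * W * x ^ 2 + Real.exp (2 * (lam * y)) * W * y ^ 2 := by ring
      _ ≤ (1 + H) ^ 4 * (1 / lam ^ 2) * (Real.exp (δ₁ * y) * P) + (1 + H) ^ 4 * (8 / δ₁ ^ 2) * (Real.exp (δ₁ * y) * P) := add_le_add f1 f2
      _ = (1 + H) ^ 4 * (1 / lam ^ 2 + 8 / δ₁ ^ 2) * (Real.exp (δ₁ * y) * P) := by ring
      _ ≤ _ := mul_le_mul_of_nonneg_left hPc (by positivity)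
  · exact f2.trans (mul_le_mul_of_nonneg_left hPc (by positivity))

end

end Pool.Agent.H4.LG
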