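import Pool.Agent.H4.LG.Ptw2

set_option autoImplicit false

/-! The sum over the zeros against the convolution: the pointwise estimate, part 3. -/

namespace Pool.Agent.H4.LG

open Filter Topology MeasureTheory Complex
open scoped ComplexConjugate
open Pool.Agent.Q97.UM

noncomputable section

/-- the coefficients of the majorant -/
def rr (κ D lam H : ℝ) (j : ℤ) : ℝ := κ * (1 / (1 + |lam * (j : ℝ) - 0|) ^ 2) +
  D * (lam * (1 / (1 + |lam * (j : ℝ) - H|) ^ 2 + 1 / (1 + |lam * (j : ℝ) - (-H)|) ^ 2))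

lemma rr_nonneg {κ D lam H : ℝ} (hκ : 0 ≤ κ) (hD : 0 ≤ D) (hl : 0 ≤ lam) (j : ℤ) : 0 ≤ rr κ D lam H j := by
  unfold rr
  positivity

lemma rr_sum (hS : S_SUM) {κ D lam H : ℝ} (hκ : 0 ≤ κ) (hD : 0 ≤ D) (h0 : 0 < lam) (h1 : lam ≤ 1) (J : Finset ℤ) :
    ∑ j ∈ J, rr κ D lam H j ≤ 6 * κ / lam + 12 * D := by
  unfold rr
  rw [Finset.sum_add_distrib, ← Finset.mul_sum, ← Finset.mul_sum, ← Finset.mul_sum, Finset.sum_add_distrib]
  have a1 := hS lam 0 h0 h1 J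
  have a2 := hS lam H h0 h1 J
  have a3 := hS lam (-H) h0 h1 J
  have b1 := mul_le_mul_of_nonneg_left a1 hκ
  have b2 := mul_le_mul_of_nonneg_left (mul_le_mul_of_nonneg_left (add_le_add a2 a3) h0.le) hD
  have e : D * (lam * (6 / lam + 6 / lam)) = 12 * D := by
    field_simp
    ring
  rw [e] at b2
  have e2 : κ * (6 / lam) = 6 * κ / lam := by ring
  rw [e2] at b1
  linarith

/-- data of a zero -/
lemma zero_pos {T t : ℝ} (s : ℂ) : (Real.log T : ℂ) * (H370.zz s - t) =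
    ((Real.log T * (s.im - t) : ℝ) : ℂ) - ((Real.log T * (s.re - 1 / 2) : ℝ) : ℂ) * I := by
  have h : H370.zz s = ((s.im : ℝ) : ℂ) - ((s.re - 1 / 2 : ℝ) : ℂ) * I := by
    apply Complex.ext
    · rw [H370.zz_re]; simp
    · rw [H370.zz_im]; simp
  rw [h]
  push_cast
  ring

/-- **the pointwise estimate** -/
theorem ptw {V Q C₁ H δ₁ lam : ℝ} {ψ w : ℝ → ℝ} (hp : PF V Q ψ) (hV : 1 ≤ V) (hQ : 1 ≤ Q) (hC₁ : 1 ≤ C₁) (hH : 0 ≤ H)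
    (hc : Continuous (GG w))
    (ha : ∀ x y : ℝ, ‖GG w (x + y * I)‖ ≤ C₁ * Real.exp (2 * |y|) / (1 + max 0 (|x| - H)) ^ 4)
    (hb : ∀ x h : ℝ, |h| ≤ 1 / 4 → ‖om w (x : ℂ) ^ 2 - om w ((x - h : ℝ) : ℂ) ^ 2‖ ≤ C₁ * |h| / (1 + |(|x| - H)|) ^ 2)
    (hcc : ∀ x y : ℝ, ‖GG w (x + y * I) + GG w (x - y * I) - 2 * GG w x‖ ≤ C₁ * y ^ 2 * Real.exp (2 * |y|) / (1 + max 0 (|x| - H)) ^ 4)
    (hd : ∀ z : ℂ, om (wl lam w) z = om w ((lam : ℂ) * z))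
    (hδ : 0 < δ₁) (h0 : 0 < lam) (h1 : lam ≤ 1) (hl : lam ≤ δ₁ / 4) (hlV : lam * V ≤ 1 / 4)
    {T t : ℝ} (hL : 1 ≤ Real.log T)
    (hsym : ∀ F : ℂ → ℂ, ∑ s ∈ ZT T, (mz s : ℂ) * F s = ∑ s ∈ ZT T, (mz s : ℂ) * F (1 - conj s))
    (hstrip : ∀ s ∈ ZT T, 0 < s.re ∧ s.re < 1) :
    ‖cc ψ lam * (cexp (-(I * (lam * Real.log T * t))) * Zt (wl lam w) T (lam * Real.log T) t) - Ac ψ w lam T t‖ ≤
      ∑ s ∈ ZT T, (mz s : ℝ) * (rr (8 * V * Q * C₁ * (1 + H) ^ 4 * (3 * (1 / lam ^ 2 + 8 / δ₁ ^ 2) / Real.log T ^ 2 + 4 * lam ^ 2 / δ₁ ^ 2))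
        (8 * V ^ 2 * Q * C₁) lam H ⌊Real.log T * (s.im - t)⌋ * Real.exp (δ₁ * (Real.log T * |s.re - 1 / 2|))) := by
  obtain ⟨L, hLe⟩ : ∃ L, L = Real.log T := ⟨_, rfl⟩
  rw [Zt_eq hd]
  rw [← hLe] at hL ⊢
  have hL0 : 0 < L := by linarith
  have hcn := cc_norm hp hV hQ lam
  obtain ⟨c, hcd⟩ : ∃ c, c = cc ψ lam := ⟨_, rfl⟩
  -- the symmetrised sum
  have hs1 : ∑ s ∈ ZT T, (mz s : ℂ) * (GG w ((lam : ℂ) * (L * (H370.zz s - t))) - GG w ((lam * (L * (s.im - t)) : ℝ) : ℂ)) =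
      ∑ s ∈ ZT T, (mz s : ℂ) * ((1 / 2 : ℂ) * (GG w ((lam * (L * (s.im - t)) : ℝ) + (lam * (L * (s.re - 1 / 2)) : ℝ) * I) +
        GG w ((lam * (L * (s.im - t)) : ℝ) - (lam * (L * (s.re - 1 / 2)) : ℝ) * I) - 2 * GG w ((lam * (L * (s.im - t)) : ℝ) : ℂ))) := by
    have h2 := hsym (fun s => GG w ((lam : ℂ) * (L * (H370.zz s - t))) - GG w ((lam * (L * (s.im - t)) : ℝ) : ℂ))
    have h3 : ∀ s : ℂ, GG w ((lam : ℂ) * (L * (H370.zz s - t))) = GG w ((lam * (L * (s.im - t)) : ℝ) - (lam * (L * (s.re - 1 / 2)) : ℝ) * I) := by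
      intro s
      congr 1
      rw [hLe, zero_pos s]
      push_cast
      ring
    have h4 : ∀ s : ℂ, GG w ((lam : ℂ) * (L * (H370.zz (1 - conj s) - t))) =
        GG w ((lam * (L * (s.im - t)) : ℝ) + (lam * (L * (s.re - 1 / 2)) : ℝ) * I) := by
      intro s
      congr 1
      rw [hLe, zero_pos (1 - conj s)]
      simp only [Complex.sub_re, Complex.sub_im, Complex.one_re, Complex.one_im, Complex.conj_re, Complex.conj_im]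
      push_cast
      ring
    have h5 : ∀ s : ℂ, (1 - conj s).im = s.im := by intro s; simp
    have e : ∀ x : ℂ, x = (1 / 2 : ℂ) * (x + x) := fun x => by ring
    rw [e (∑ s ∈ ZT T, (mz s : ℂ) * (GG w ((lam : ℂ) * (L * (H370.zz s - t))) - GG w ((lam * (L * (s.im - t)) : ℝ) : ℂ)))]
    conv_lhs => arg 2; arg 2; rw [h2]
    rw [← Finset.sum_add_distrib, Finset.mul_sum]
    refine Finset.sum_congr rfl fun s _ => ?_
    rw [h4, h3, h5]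
    ring
  -- the decomposition
  have hdec : c * (∑ s ∈ ZT T, (mz s : ℂ) * (GG w ((lam : ℂ) * (L * (H370.zz s - t))) * cexp (-(H370.zz s - t) ^ 2 / 2))) - Ac ψ w lam T t =
      ∑ s ∈ ZT T, (mz s : ℂ) * (c * (GG w ((lam : ℂ) * (L * (H370.zz s - t))) * (cexp (-(H370.zz s - t) ^ 2 / 2) - 1)) +
        c * ((1 / 2 : ℂ) * (GG w ((lam * (L * (s.im - t)) : ℝ) + (lam * (L * (s.re - 1 / 2)) : ℝ) * I) +
        GG w ((lam * (L * (s.im - t)) : ℝ) - (lam * (L * (s.re - 1 / 2)) : ℝ) * I) - 2 * GG w ((lam * (L * (s.im - t)) : ℝ) : ℂ))) +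
        (c * GG w ((lam * (L * (s.im - t)) : ℝ) : ℂ) - ph ψ w lam (L * (s.im - t)))) := by
    have e1 : ∀ A B E : ℂ → ℂ, ∑ s ∈ ZT T, (mz s : ℂ) * (A s + c * B s + E s) =
        ∑ s ∈ ZT T, (mz s : ℂ) * A s + c * ∑ s ∈ ZT T, (mz s : ℂ) * B s + ∑ s ∈ ZT T, (mz s : ℂ) * E s := by
      intro A B E
      rw [Finset.mul_sum, ← Finset.sum_add_distrib, ← Finset.sum_add_distrib]
      refine Finset.sum_congr rfl fun s _ => ?_
      ring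
    rw [e1 (fun s => c * (GG w ((lam : ℂ) * (L * (H370.zz s - t))) * (cexp (-(H370.zz s - t) ^ 2 / 2) - 1)))
      (fun s => (1 / 2 : ℂ) * (GG w ((lam * (L * (s.im - t)) : ℝ) + (lam * (L * (s.re - 1 / 2)) : ℝ) * I) +
        GG w ((lam * (L * (s.im - t)) : ℝ) - (lam * (L * (s.re - 1 / 2)) : ℝ) * I) - 2 * GG w ((lam * (L * (s.im - t)) : ℝ) : ℂ)))
      (fun s => c * GG w ((lam * (L * (s.im - t)) : ℝ) : ℂ) - ph ψ w lam (L * (s.im - t))), ← hs1]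
    unfold Ac
    rw [← hLe, Finset.mul_sum, Finset.mul_sum, ← Finset.sum_sub_distrib, ← Finset.sum_add_distrib, ← Finset.sum_add_distrib]
    refine Finset.sum_congr rfl fun s _ => ?_
    ring
  rw [← hcd, hdec]
  refine (norm_sum_le _ _).trans (Finset.sum_le_sum fun s hs => ?_)
  rw [norm_mul, Complex.norm_natCast]
  refine mul_le_mul_of_nonneg_left ?_ (Nat.cast_nonneg _)
  rw [← hcd] at hcn
  obtain ⟨hs0, hs1'⟩ := hstrip s hs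
  obtain ⟨x, hx⟩ : ∃ x, x = L * (s.im - t) := ⟨_, rfl⟩
  obtain ⟨y, hy⟩ : ∃ y, y = L * |s.re - 1 / 2| := ⟨_, rfl⟩
  have hy0 : 0 ≤ y := by rw [hy]; positivity
  have hyabs : |lam * (L * (s.re - 1 / 2))| = lam * y := by
    rw [abs_mul, abs_mul, abs_of_pos h0, abs_of_pos hL0, hy]
  obtain ⟨k1, k2⟩ := bulk (x := x) hδ h0 h1 hl hy0 hH
  obtain ⟨P, hP⟩ : ∃ P, P = 1 / (1 + |lam * ((⌊x⌋ : ℤ) : ℝ) - 0|) ^ 2 := ⟨_, rfl⟩
  obtain ⟨W, hW⟩ : ∃ W, W = 1 / (1 + max 0 (|lam * x| - H)) ^ 4 := ⟨_, rfl⟩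
  have hW0 : 0 ≤ W := by rw [hW]; positivity
  have hP0 : 0 ≤ P := by rw [hP]; positivity
  rw [← hP, ← hW] at k1 k2
  have hE1 := Real.exp_pos (δ₁ * y)
  have hE := Real.exp_pos (2 * (lam * y))
  rw [← hx, ← hy]
  -- first term
  have t1 : ‖c * (GG w ((lam : ℂ) * (L * (H370.zz s - t))) * (cexp (-(H370.zz s - t) ^ 2 / 2) - 1))‖ ≤
      2 * V * Q * C₁ * 3 / L ^ 2 * ((1 + H) ^ 4 * (1 / lam ^ 2 + 8 / δ₁ ^ 2) * (Real.exp (δ₁ * y) * (4 * P))) := by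
    have g1 : ‖GG w ((lam : ℂ) * (L * (H370.zz s - t)))‖ ≤ C₁ * Real.exp (2 * (lam * y)) * W := by
      have e : (lam : ℂ) * (L * (H370.zz s - t)) = ((lam * x : ℝ) : ℂ) + ((-(lam * (L * (s.re - 1 / 2))) : ℝ) : ℂ) * I := by
        rw [hx, hLe, zero_pos s]
        push_cast
        ring
      rw [e]
      have := ha (lam * x) (-(lam * (L * (s.re - 1 / 2))))
      rw [abs_neg, hyabs] at this
      rw [hW, mul_one_div]
      exact this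
    have g2 : ‖cexp (-(H370.zz s - t) ^ 2 / 2) - 1‖ ≤ 3 * ((x ^ 2 + y ^ 2) / L ^ 2) := by
      have e : H370.zz s - t = ((s.im - t : ℝ) : ℂ) - ((s.re - 1 / 2 : ℝ) : ℂ) * I := by
        apply Complex.ext
        · rw [Complex.sub_re, H370.zz_re]; simp
        · rw [Complex.sub_im, H370.zz_im]; simp
      rw [e]
      have h2 := gauss (a := s.im - t) (b := s.re - 1 / 2) (by nlinarith)
      refine h2.trans (le_of_eq ?_)
      rw [hx, hy, mul_pow, mul_pow, sq_abs]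
      field_simp
    rw [norm_mul, norm_mul]
    have hxy : 0 ≤ (x ^ 2 + y ^ 2) / L ^ 2 := by positivity
    calc ‖c‖ * (‖GG w ((lam : ℂ) * (L * (H370.zz s - t)))‖ * ‖cexp (-(H370.zz s - t) ^ 2 / 2) - 1‖)
        ≤ (2 * V * Q) * ((C₁ * Real.exp (2 * (lam * y)) * W) * (3 * ((x ^ 2 + y ^ 2) / L ^ 2))) := by
          apply mul_le_mul hcn _ (by positivity) (by positivity)
          exact mul_le_mul g1 g2 (norm_nonneg _) (by positivity)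
      _ = 2 * V * Q * C₁ * 3 / L ^ 2 * (Real.exp (2 * (lam * y)) * W * (x ^ 2 + y ^ 2)) := by ring
      _ ≤ _ := mul_le_mul_of_nonneg_left k1 (by positivity)
  -- second term
  have t2 : ‖c * ((1 / 2 : ℂ) * (GG w ((lam * x : ℝ) + (lam * (L * (s.re - 1 / 2)) : ℝ) * I) +
        GG w ((lam * x : ℝ) - (lam * (L * (s.re - 1 / 2)) : ℝ) * I) - 2 * GG w ((lam * x : ℝ) : ℂ)))‖ ≤
      V * Q * C₁ * lam ^ 2 * ((1 + H) ^ 4 * (8 / δ₁ ^ 2) * (Real.exp (δ₁ * y) * (4 * P))) := by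
    have g1 := hcc (lam * x) (lam * (L * (s.re - 1 / 2)))
    rw [hyabs] at g1
    have e : (lam * (L * (s.re - 1 / 2))) ^ 2 = lam ^ 2 * y ^ 2 := by
      rw [← sq_abs, hyabs]; ring
    rw [e] at g1
    rw [norm_mul, norm_mul]
    have h2 : ‖(1 / 2 : ℂ)‖ = 1 / 2 := by norm_num
    rw [h2]
    calc ‖c‖ * (1 / 2 * ‖GG w ((lam * x : ℝ) + (lam * (L * (s.re - 1 / 2)) : ℝ) * I) +
        GG w ((lam * x : ℝ) - (lam * (L * (s.re - 1 / 2)) : ℝ) * I) - 2 * GG w ((lam * x : ℝ) : ℂ)‖)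
        ≤ (2 * V * Q) * (1 / 2 * (C₁ * (lam ^ 2 * y ^ 2) * Real.exp (2 * (lam * y)) / (1 + max 0 (|lam * x| - H)) ^ 4)) := by
          apply mul_le_mul hcn _ (by positivity) (by positivity)
          exact mul_le_mul_of_nonneg_left g1 (by norm_num)
      _ = V * Q * C₁ * lam ^ 2 * (Real.exp (2 * (lam * y)) * W * y ^ 2) := by rw [hW]; ring
      _ ≤ _ := mul_le_mul_of_nonneg_left k2 (by positivity)
  -- third term
  have t3 : ‖c * GG w ((lam * x : ℝ) : ℂ) - ph ψ w lam x‖ ≤ 8 * V ^ 2 * Q * C₁ *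
      (lam * (1 / (1 + |lam * ((⌊x⌋ : ℤ) : ℝ) - H|) ^ 2 + 1 / (1 + |lam * ((⌊x⌋ : ℤ) : ℝ) - (-H)|) ^ 2)) := by
    have g1 := edge hp hV hQ hC₁ hc hb h0 hlV x
    rw [← hcd] at g1
    have g2 := edgew (lam := lam) (H := H) (x := x)
    have g3 := cell (a := H) (x := x) h0 h1
    have g4 := cell (a := -H) (x := x) h0 h1
    have g5 : 1 / (1 + |(|lam * x| - H)|) ^ 2 ≤ 4 * (1 / (1 + |lam * ((⌊x⌋ : ℤ) : ℝ) - H|) ^ 2 + 1 / (1 + |lam * ((⌊x⌋ : ℤ) : ℝ) - (-H)|) ^ 2) := by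
      linarith
    refine g1.trans ?_
    calc 2 * V ^ 2 * Q * C₁ * lam / (1 + |(|lam * x| - H)|) ^ 2 = 2 * V ^ 2 * Q * C₁ * lam * (1 / (1 + |(|lam * x| - H)|) ^ 2) := by ring
      _ ≤ 2 * V ^ 2 * Q * C₁ * lam * (4 * (1 / (1 + |lam * ((⌊x⌋ : ℤ) : ℝ) - H|) ^ 2 + 1 / (1 + |lam * ((⌊x⌋ : ℤ) : ℝ) - (-H)|) ^ 2)) :=
          mul_le_mul_of_nonneg_left g5 (by positivity)
      _ = _ := by ring
  have hge1 : 1 ≤ Real.exp (δ₁ * y) := Real.one_le_exp (by positivity)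
  refine (norm_add₃_le).trans ?_
  have hsum := add_le_add (add_le_add t1 t2) t3
  refine hsum.trans ?_
  unfold rr
  rw [← hP]
  obtain ⟨E, hE'⟩ : ∃ E, E = 1 / (1 + |lam * ((⌊x⌋ : ℤ) : ℝ) - H|) ^ 2 + 1 / (1 + |lam * ((⌊x⌋ : ℤ) : ℝ) - (-H)|) ^ 2 := ⟨_, rfl⟩
  have hE0 : 0 ≤ E := by rw [hE']; positivity
  rw [← hE']
  have k3 : 8 * V ^ 2 * Q * C₁ * (lam * E) ≤ 8 * V ^ 2 * Q * C₁ * (lam * E) * Real.exp (δ₁ * y) :=
    le_mul_of_one_le_right (by positivity) hge1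
  have e1 : 2 * V * Q * C₁ * 3 / L ^ 2 * ((1 + H) ^ 4 * (1 / lam ^ 2 + 8 / δ₁ ^ 2) * (Real.exp (δ₁ * y) * (4 * P))) +
      V * Q * C₁ * lam ^ 2 * ((1 + H) ^ 4 * (8 / δ₁ ^ 2) * (Real.exp (δ₁ * y) * (4 * P))) =
      8 * V * Q * C₁ * (1 + H) ^ 4 * (3 * (1 / lam ^ 2 + 8 / δ₁ ^ 2) / L ^ 2 + 4 * lam ^ 2 / δ₁ ^ 2) * P * Real.exp (δ₁ * y) := by
    ring
  linarith

end

end Pool.Agent.H4.LG
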