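import Pool.Graph.R_pool_sql_team_seeded_3997aac3.Q97.UM.Base9

set_option autoImplicit false

/-!
Project LG (helper4). THE LOCAL LINEAR STATISTICS OF THE ZEROS FLUCTUATE IN BOTH DIRECTIONS RELATIVE TO EVERY DIRICHLET POLYNOMIAL (hence
relative to all moments of zeta, in particular to the eighth moment).

THEOREM. Let `ψ` be bounded, measurable, of compact support, `∫ ψ ≠ 0`. There are `c, c₁, θ > 0` such that for large `T` the set of the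
`t ∈ [T, 2T]` with `∑_ρ ψ(log T (γ - t)) ≥ (1/2π) ∫ ψ + c` carries at least the share `c₁` of the mean square of every Dirichlet polynomial
of length `≤ T^θ`, and so does the set with `≤ (1/2π) ∫ ψ - c`.

METHOD. `X(t) = ∑_{s ∈ ZT T} m(s) ψ(L(γ - t)) - (1/2π) ∫ ψ`. The fixed profile `GG w (z) = e^{iz} (om w z)²` is dilated by a small `lam`; the
sum over the zeros `∑ m GG w (lam L (zz - t))` has a relative mean square `≥ H/16` (S_LOW), with `H` as large as we want, and up to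
`O(1)` (independent of `H`) times a constant it is the convolution of `X` with `y ↦ GG w (lam y)`: S_PRO (b) for the edges of the window, S_PRO (c) and the
symmetry `s ↦ 1 - conj s` for the zeros off the line (this gives a factor `lam`), S_INV for the mean, S_CELL for the mean squares of the error terms.

All statements below are `def S_xxx : Prop`, with complete proofs in the comments. Write `theorem t_xxx : S_xxx` in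
`Pool/Agent/H4/LG/<Name>.lean` (import this file). Known inputs (Q97/UM/Base*.lean): `b_ZU : S_ZU`, `b_STM : S_STM`, `b_TAIL`, `b_SAMP : S_SAMP`,
`Pool.Agent.Q176.UM.t_QH : S_QH`, `Pool.Agent.Q247.UM.t_OMEX : S_OMEX`, `Pool.Agent.Q84.UM.t_DPM : S_DPM`, `Pool.Agent.Q84.UM.t_MVL : S_MVL`,
`Pool.Agent.Q222.UM.t_MV2 : S_MV2`. Throughout `L = log T`, `H370.zz s = -i (s - 1/2) = γ - i (β - 1/2)`.
-/

namespace Pool.Agent.H4.LG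

open Filter Topology MeasureTheory Complex
open scoped ComplexConjugate
open Pool.Agent.Q97.UM

noncomputable section

/-- the dilated weight; `om (wl lam w) z = om w (lam z)` -/
def wl (lam : ℝ) (w : ℝ → ℝ) (v : ℝ) : ℝ := w (v / lam) / lam

/-- the profile -/
def GG (w : ℝ → ℝ) (z : ℂ) : ℂ := cexp (I * z) * om w z ^ 2

/-- test functions: measurable, bounded by `Q`, zero outside `(-V, V)` -/
structure PF (V Q : ℝ) (ψ : ℝ → ℝ) : Prop where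
  meas : Measurable ψ
  bd : ∀ x : ℝ, |ψ x| ≤ Q
  supp : ∀ x : ℝ, V ≤ |x| → ψ x = 0

/-- the local statistic -/
def Yt (ψ : ℝ → ℝ) (T t : ℝ) : ℝ := ∑ s ∈ ZT T, (mz s : ℝ) * ψ (Real.log T * (s.im - t))

/-- its mean -/
def mu (ψ : ℝ → ℝ) : ℝ := (∫ x : ℝ, ψ x) / (2 * Real.pi)

/-- DIL (dilation). PROOF. `om (wl lam w) z = ∫ w(v/lam)/lam e^{ivz} dv = ∫ w(u) e^{iu lam z} du`. `OmW`: Lipschitz with `D / lam²`, even, support; `unit`,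
`near`, `far` with `C' = C / lam^K`, because `1 + (H - lam x) ≥ lam (1 + (H/lam - x))` for `lam ≤ 1` (and the same with `lam x - H`).
`qh (wl lam w) v = qh w (v/lam) / lam`, hence `I2 (wl lam w) = ∫ qh w (v/lam)² / lam² dv = I2 w / lam`. -/
def S_DIL : Prop := ∀ (δ H C : ℝ) (K : ℕ) (w : ℝ → ℝ) (lam : ℝ), 0 < δ → 1 ≤ H → 1 ≤ C → OmW δ H C K w → 0 < lam → lam ≤ 1 →
  (∀ z : ℂ, om (wl lam w) z = om w ((lam : ℂ) * z)) ∧ (∃ C' : ℝ, 1 ≤ C' ∧ OmW (lam * δ) (H / lam) C' K (wl lam w)) ∧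
  I2 (wl lam w) = I2 w / lam

/-- LOW. Job: S_DIL → S_LOW. PROOF. `C₀` from `b_ZU`; `δ = min (1/16) (1/(4C₀))`, `C` from S_OMEX for `K, δ`. For `H ≥ 8 C⁴` take `w` from S_OMEX; by the last
part of S_QH `I2 w ≥ (H - 4C⁴)/π ≥ H/(2π) ≥ H/8`. Given `lam`, use `b_ZU` for `wl lam w` (S_DIL: `δ' = lam δ`, `H' = H/lam ≥ 1`, `C'`), with
`u = lam L`, `θ ≤ 1/40` so small that `C₀ √θ / lam ≤ 1/8`, `ε = I2 w / 8`, `η = 1`: `3 lam δ L ≤ lam L`, `lam L ≤ (1 - 4 lam δ - 2θ) L`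
(`lam ≤ 1/2`, `δ ≤ 1/16`, `θ ≤ 1/40`), and `(u/L) I2 (wl lam w) = I2 w`, error `C₀ (lam δ + √θ) I2 w / lam ≤ (1/4 + 1/8) I2 w`, so the integral is at
least `(1 - 3/8 - 1/8) I2 w · T N2 = (1/2) I2 w · T N2 ≥ (H/16) T N2` (drop `QL² ≥ 0`). -/
def S_LOW : Prop := ∀ K : ℕ, 2 ≤ K → ∃ δ C : ℝ, 0 < δ ∧ δ ≤ 1 / 16 ∧ 1 ≤ C ∧ ∀ H : ℝ, 8 * C ^ 4 ≤ H → ∃ w : ℝ → ℝ, OmW δ H C K w ∧
  ∀ lam : ℝ, 0 < lam → lam ≤ 1 / 2 → ∃ θ : ℝ, 0 < θ ∧ θ ≤ 1 / 40 ∧ ∀ᶠ T : ℝ in atTop, ∀ N : ℕ, (N : ℝ) ≤ T ^ θ → ∀ b : ℕ → ℂ,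
    H / 16 * (T * N2 N b) ≤
      ∫ t in (T + 2 * Real.log T)..(2 * T - 2 * Real.log T), ‖Zt (wl lam w) T (lam * Real.log T) t‖ ^ 2 * ‖dp N b t‖ ^ 2

/-- PRO (profile). PROOF. `om w` is entire (`w` continuous with compact support; see the proofs of S_QH, S_LAT: Q176/UM/QH.lean, Q92/UM6/LAT.lean). `near` gives
`‖om w z‖ ≤ 1 + C e^{δ|y|} ≤ 2 C e^{δ|y|}` for `|x| ≤ H`, `far` gives `‖om w z‖² ≤ C² e^{2δ|y|}/(1 + |x| - H)^4` (`K ≥ 2`), and `|e^{iz}| = e^{-y} ≤ e^{|y|}`: (a)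
even with `e^{(9/8)|y|}` instead of `e^{2|y|}`. (b) On the disc with centre a real `ξ` and radius `1/2`: if `|ξ| ≤ H - 1/2` then
`|om² - 1| ≤ |om - 1| (|om - 1| + 2) ≤ 3 C² e^{1/8} ... / (1 + (H - |x|))^2` and `1 + (H - |x|) ≥ (1 + (H - |ξ|))/2`; if `|ξ| ≥ H + 1/2` then
`|om²| ≤ C² e^{..}/(1 + (|x| - H))^4`; if `||ξ| - H| < 1/2` then `|om²| ≤ 4 C² e^{..}` (Mathlib `Complex.norm_deriv_le_of_forall_mem_sphere_norm_le` for `om² - 1`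
resp. `om²`): `‖(om²)'(ξ)‖ ≤ C₁/(1 + ||ξ| - H|)^2`; then the mean value inequality on the segment from `x - h` to `x` (`|h| ≤ 1/4`: the weights
`1 + ||ξ| - H|` differ by a factor at most `5/4`). (c) `f(y) = GG(x+iy) + GG(x-iy) - 2GG(x)`: `f(0) = f'(0) = 0`,
`‖f''(y)‖ ≤ 2 sup_{|η| ≤ |y|} ‖GG''(x + iη)‖`, `‖GG''(z)‖ ≤ 2 sup_{|z'-z| = 1} ‖GG(z')‖` (`Complex.norm_iteratedDeriv_le_of_forall_mem_sphere_norm_le`), (a) with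
`9/8`, and the mean value inequality twice. (If it is easier, split `|y| ≤ 1`, and for `|y| ≥ 1` use (a) three times.) -/
def S_PRO : Prop := ∀ (δ C : ℝ) (K : ℕ), 0 < δ → δ ≤ 1 / 16 → 1 ≤ C → 2 ≤ K → ∃ C₁ : ℝ, 1 ≤ C₁ ∧ ∀ (H : ℝ) (w : ℝ → ℝ), 1 ≤ H → OmW δ H C K w →
  Continuous (GG w) ∧
  (∀ x y : ℝ, ‖GG w (x + y * I)‖ ≤ C₁ * Real.exp (2 * |y|) / (1 + max 0 (|x| - H)) ^ 4) ∧
  (∀ x h : ℝ, |h| ≤ 1 / 4 → ‖om w (x : ℂ) ^ 2 - om w ((x - h : ℝ) : ℂ) ^ 2‖ ≤ C₁ * |h| / (1 + |(|x| - H)|) ^ 2) ∧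
  (∀ x y : ℝ, ‖GG w (x + y * I) + GG w (x - y * I) - 2 * GG w x‖ ≤ C₁ * y ^ 2 * Real.exp (2 * |y|) / (1 + max 0 (|x| - H)) ^ 4)

/-- INV. PROOF. By S_QH `om w x ^ 2 = ∫ qh w v e^{ivx} dv`, `qh w` continuous, zero for `|v| ≥ 2δ`, and `om w x ^ 2` is integrable over the reals (`far`, `K ≥ 2`).
Fourier inversion (Mathlib `Continuous.fourierInv_fourier_eq` or relatives, for the complex valued `qh w`, with the normalisation `e^{2πi}`):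
`∫ om w x ^ 2 e^{ix} dx = 2π qh w (-1) = 0`, as `2δ ≤ 1/8 < 1`. -/
def S_INV : Prop := ∀ (δ H C : ℝ) (K : ℕ) (w : ℝ → ℝ), 0 < δ → δ ≤ 1 / 16 → 1 ≤ H → 1 ≤ C → 2 ≤ K → OmW δ H C K w →
  Integrable (fun x : ℝ => GG w x) ∧ ∫ x : ℝ, GG w x = 0

/-- CELL. PROOF. `θ₀, c, C₀` from `b_TAIL`, `δ = min (c/48) (1/2)`, `C'` from `b_STM` with `m = 2` (so `16 δ (m+1) ≤ c`), `δ₁ = 2δ`, `θ = min (θ₀/2) (1/40)`. For
`s ∈ ZT T`, `j = ⌊L(γ - t)⌋`: `0 ≤ L(γ - (t + j/L)) ≤ 1`, so the term of `s` in `SS δ T (t + j/L)` is at least `(1/4) m e^{2δy}` (`ZT T ⊆ ZD T`), and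
`t + j/L ∈ [γ - 1/L, γ] ⊆ [T/4, 8T]`. Put `S_j(t) = SS δ T (t + j/L)` if `T/4 ≤ t + j/L ≤ 8T`, and `0` otherwise. The right hand side is at most
`4 ∑_{j ∈ J} r_j S_j(t)`, where `J = Finset.Icc (-M) M`, `M` large (`|L(γ-t)| ≤ 2TL`), and
`(∑ r_j S_j)² ≤ (∑ r_j)(∑ r_j S_j²) ≤ R ∑ r_j S_j²`. Substitute `t' = t + j/L`: `‖dp N b (t' - j/L)‖ = ‖dp N b' t'‖` with the same `N2` (S_DPM, second part), so
`∫ S_j² |B|² ≤ C' T N2`. Total `16 C' R² T N2`. (If `f² |B|²` is not integrable, its integral is `0`.) -/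
def S_CELL : Prop := ∃ θ δ₁ C : ℝ, 0 < θ ∧ θ ≤ 1 / 40 ∧ 0 < δ₁ ∧ δ₁ ≤ 1 ∧ 0 ≤ C ∧ ∀ᶠ T : ℝ in atTop, ∀ N : ℕ, (N : ℝ) ≤ T ^ θ → ∀ b : ℕ → ℂ,
  ∀ (r : ℤ → ℝ) (R : ℝ), (∀ j, 0 ≤ r j) → (∀ J : Finset ℤ, ∑ j ∈ J, r j ≤ R) → ∀ f : ℝ → ℝ,
    (∀ t : ℝ, T + 2 * Real.log T ≤ t → t ≤ 2 * T - 2 * Real.log T → |f t| ≤ ∑ s ∈ ZT T, (mz s : ℝ) *
      (r ⌊Real.log T * (s.im - t)⌋ * Real.exp (δ₁ * (Real.log T * |s.re - 1 / 2|)))) →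
    ∫ t in (T + 2 * Real.log T)..(2 * T - 2 * Real.log T), f t ^ 2 * ‖dp N b t‖ ^ 2 ≤ C * R ^ 2 * (T * N2 N b)

/-- SUM. PROOF. Only the `j` with `lam j ≥ a` (the others by `j ↦ -j`): with `j₀ = ⌈a/lam⌉`, `n = j - j₀ ≥ 0`: `lam j - a ≥ lam n`, and
`∑_{n=0}^{M} 1/(1 + lam n)² ≤ 1 + (1/lam) ∑_{n ≥ 1} (1/(1 + lam (n-1)) - 1/(1 + lam n)) ≤ 1 + 1/lam ≤ 2/lam`. -/
def S_SUM : Prop := ∀ (lam a : ℝ), 0 < lam → lam ≤ 1 → ∀ J : Finset ℤ, ∑ j ∈ J, 1 / (1 + |lam * (j : ℝ) - a|) ^ 2 ≤ 6 / lam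

/-- SYM: symmetry of the zeros. PROOF. `s ↦ 1 - conj s` is an involution of `ZT T` (`H370.Zf`, `H370.mem_Zf`, functional equation) and `mz` is invariant:
`(H370.good_zeta).symm`. (See the proofs of S_EFF, S_DET: Q178/UMEff/EFF.lean, Q61/UM/DETa.lean.) -/
def S_SYM : Prop := ∀ᶠ T : ℝ in atTop, ∀ F : ℂ → ℂ, ∑ s ∈ ZT T, (mz s : ℂ) * F s = ∑ s ∈ ZT T, (mz s : ℂ) * F (1 - conj s)

/-- MEAN: the mean of the statistic. PROOF. `w(t) = ‖dp N b t‖²`. For `s ∈ ZT T` the function `t ↦ ψ(L(γ - t))` vanishes outside `[γ - V/L, γ + V/L] ⊆ [T, 2T]`, and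
`|∫ ψ(L(γ-t)) w(t) dt - w(γ) (1/L) ∫ ψ| ≤ Q (2V/L) ∫_{|v - γ| ≤ V/L} |w'(v)| dv`. The first part is summed by the third part of `b_SAMP` (the zeros in
`(T, T+1]` and `(2T-1, 2T]` contribute at most `C L N N2`: `‖dp‖² ≤ N N2` (S_DPM) and the crude count of zeros in unit intervals, compare `edge_small` and its use in
`Pool.Agent.H4.SC.Thk`, `Pool.Agent.Q61.UM.t_SAMP`), and the second one is at most `Q (2V/L) ∫ Nw T (V/L) t |w'(t)| dt` with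
`Nw T (V/L) t ≤ (1+V)² SS δ T t`, `|w'| = 2 |B| |B'|`, `B' = dp N b'`, `N2 N b' ≤ (θL)² N2 N b`; Cauchy-Schwarz and `b_STM` with `m = 2`: `≤ C Q V³ θ T N2`. -/
def S_MEAN : Prop := ∀ (V Q : ℝ) (ψ : ℝ → ℝ), 1 ≤ V → 1 ≤ Q → PF V Q ψ → ∀ ε : ℝ, 0 < ε → ∃ θ : ℝ, 0 < θ ∧ θ ≤ 1 / 40 ∧
  ∀ᶠ T : ℝ in atTop, ∀ N : ℕ, (N : ℝ) ≤ T ^ θ → ∀ b : ℕ → ℂ,
    |(∫ t in T..(2 * T), Yt ψ T t * ‖dp N b t‖ ^ 2) - mu ψ * (T * N2 N b)| ≤ ε * (T * N2 N b)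

/-- TWO: from the second moment to both tails. PROOF. `κ = √(2C/c)`: `X² ≤ κ|X| + X⁴/κ²` gives `∫|X|W ≥ (c/2κ) m`; `X⁺ = (|X| + X)/2` gives
`∫ X⁺ W ≥ (c/4κ - ε₀/2) m ≥ (c/8κ) m =: c' m` for `ε₀ = c/4κ`. With `c₀ = c'/8`, `M = 4(C+2)/c'`: `X⁺ ≤ c₀ + 1_{X ≥ c₀}(X²/M + M)`, and `∫X²W ≤ ∫(1 + X⁴)W ≤ (C+2) m`, so
`c' m ≤ 2 c₀ m + ((C+2)/M) m + M ∫_{X ≥ c₀} W ≤ (c'/2) m + M ∫_{X ≥ c₀} W`. `c₃ = c'/(2M)`. -/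
def S_TWO : Prop := ∀ c C : ℝ, 0 < c → 0 < C → ∃ c₀ c₃ ε₀ : ℝ, 0 < c₀ ∧ 0 < c₃ ∧ 0 < ε₀ ∧ ∀ (a b m : ℝ) (X W : ℝ → ℝ), a ≤ b → 0 ≤ m →
  Measurable X → Continuous W → (∀ t, 0 ≤ W t) → (∃ B : ℝ, ∀ t, |X t| ≤ B) →
  c * m ≤ ∫ t in a..b, X t ^ 2 * W t → |∫ t in a..b, X t * W t| ≤ ε₀ * m → ∫ t in a..b, X t ^ 4 * W t ≤ C * m → ∫ t in a..b, W t ≤ 2 * m →
  c₃ * m ≤ ∫ t in Set.Icc a b ∩ {t | c₀ ≤ X t}, W t

end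

end Pool.Agent.H4.LG
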