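import Pool.Agent.H4.LG.Stm

set_option autoImplicit false

/-! Project LG (helper4), modules SUM and SYM (helper94). -/

namespace Pool.Agent.H4.LG

open Filter Topology MeasureTheory Complex
open scoped ComplexConjugate
open Pool.Agent.Q97.UM

namespace SumAux

theorem geo (lam : ℝ) (h0 : 0 < lam) (M : ℕ) :
    ∑ n ∈ Finset.range M, 1 / (1 + lam * (n : ℝ)) ^ 2 ≤ 1 + 1 / lam := by
  have key : ∀ M : ℕ, ∑ n ∈ Finset.range (M + 1), 1 / (1 + lam * (n : ℝ)) ^ 2 ≤ 1 + 1 / lam - 1 / (lam * (1 + lam * (M : ℝ))) := by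
    intro M
    induction M with
    | zero => simp
    | succ M ih =>
      rw [Finset.sum_range_succ]
      have hM : (0 : ℝ) ≤ M := Nat.cast_nonneg M
      have h1 : 0 < 1 + lam * (M : ℝ) := by positivity
      have h2 : 0 < 1 + lam * ((M + 1 : ℕ) : ℝ) := by positivity
      have h3 : 1 / (1 + lam * ((M + 1 : ℕ) : ℝ)) ^ 2 ≤
          1 / (lam * (1 + lam * (M : ℝ))) - 1 / (lam * (1 + lam * ((M + 1 : ℕ) : ℝ))) := by
        have h4 : 1 / (lam * (1 + lam * (M : ℝ))) - 1 / (lam * (1 + lam * ((M + 1 : ℕ) : ℝ))) =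
            1 / ((1 + lam * (M : ℝ)) * (1 + lam * ((M + 1 : ℕ) : ℝ))) := by
          field_simp
          push_cast
          ring
        rw [h4]
        apply one_div_le_one_div_of_le (by positivity)
        rw [sq]
        apply mul_le_mul_of_nonneg_right _ h2.le
        push_cast
        nlinarith
      linarith
  cases M with
  | zero => simp; positivity
  | succ M =>
    have h := key M
    have h1 : 0 ≤ 1 / (lam * (1 + lam * (M : ℝ))) := by positivity
    linarith

theorem half (lam a : ℝ) (h0 : 0 < lam) (h1 : lam ≤ 1) (J : Finset ℤ) (hJ : ∀ j ∈ J, a ≤ lam * (j : ℝ)) :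
    ∑ j ∈ J, 1 / (1 + |lam * (j : ℝ) - a|) ^ 2 ≤ 2 / lam := by
  set j0 : ℤ := ⌈a / lam⌉ with hj0
  have hge : ∀ j ∈ J, j0 ≤ j := by
    intro j hj
    rw [hj0, Int.ceil_le, div_le_iff₀ h0]
    linarith [hJ j hj, mul_comm lam (j : ℝ)]
  have hj0a : a ≤ lam * (j0 : ℝ) := by
    have := Int.le_ceil (a / lam)
    rw [div_le_iff₀ h0] at this
    linarith [mul_comm lam (j0 : ℝ)]
  have step : ∀ j ∈ J, 1 / (1 + |lam * (j : ℝ) - a|) ^ 2 ≤ 1 / (1 + lam * (((j - j0).toNat : ℕ) : ℝ)) ^ 2 := by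
    intro j hj
    have hn : (((j - j0).toNat : ℕ) : ℝ) = (j : ℝ) - (j0 : ℝ) := by
      have : (((j - j0).toNat : ℕ) : ℤ) = j - j0 := Int.toNat_of_nonneg (by linarith [hge j hj])
      have h2 : ((((j - j0).toNat : ℕ) : ℤ) : ℝ) = ((j - j0 : ℤ) : ℝ) := by rw [this]
      push_cast at h2
      exact_mod_cast h2
    rw [hn]
    have hnn : 0 ≤ (j : ℝ) - (j0 : ℝ) := by
      have := hge j hj
      have : (j0 : ℝ) ≤ (j : ℝ) := by exact_mod_cast this
      linarith
    have habs : lam * ((j : ℝ) - (j0 : ℝ)) ≤ |lam * (j : ℝ) - a| := by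
      rw [abs_of_nonneg (by linarith [hJ j hj])]
      nlinarith
    apply one_div_le_one_div_of_le (by positivity)
    apply pow_le_pow_left₀ (by positivity)
    linarith
  have inj : Set.InjOn (fun j : ℤ => (j - j0).toNat) J := by
    intro x hx y hy hxy
    have hx' := hge x hx
    have hy' := hge y hy
    simp only at hxy
    omega
  calc ∑ j ∈ J, 1 / (1 + |lam * (j : ℝ) - a|) ^ 2
      ≤ ∑ j ∈ J, 1 / (1 + lam * (((j - j0).toNat : ℕ) : ℝ)) ^ 2 := Finset.sum_le_sum step
    _ = ∑ n ∈ J.image (fun j : ℤ => (j - j0).toNat), 1 / (1 + lam * (n : ℝ)) ^ 2 := by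
        rw [Finset.sum_image inj]
    _ ≤ ∑ n ∈ Finset.range ((J.image (fun j : ℤ => (j - j0).toNat)).sup id + 1), 1 / (1 + lam * (n : ℝ)) ^ 2 := by
        apply Finset.sum_le_sum_of_subset_of_nonneg
        · intro n hn
          rw [Finset.mem_range]
          have := Finset.le_sup (f := id) hn
          simp only [id] at this
          omega
        · intro n _ _
          positivity
    _ ≤ 1 + 1 / lam := geo lam h0 _
    _ ≤ 2 / lam := by
        have : 1 ≤ 1 / lam := by rw [le_div_iff₀ h0]; linarith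
        have h2 : (2 : ℝ) / lam = 1 / lam + 1 / lam := by ring
        rw [h2]; linarith

theorem sumall (lam a : ℝ) (h0 : 0 < lam) (h1 : lam ≤ 1) (J : Finset ℤ) :
    ∑ j ∈ J, 1 / (1 + |lam * (j : ℝ) - a|) ^ 2 ≤ 6 / lam := by
  classical
  rw [← Finset.sum_filter_add_sum_filter_not J (fun j : ℤ => a ≤ lam * (j : ℝ))]
  have hA := half lam a h0 h1 (J.filter (fun j : ℤ => a ≤ lam * (j : ℝ))) (by
    intro j hj; exact (Finset.mem_filter.1 hj).2)
  have hB : ∑ j ∈ J.filter (fun j : ℤ => ¬ a ≤ lam * (j : ℝ)), 1 / (1 + |lam * (j : ℝ) - a|) ^ 2 ≤ 2 / lam := by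
    have hC := half lam (-a) h0 h1 ((J.filter (fun j : ℤ => ¬ a ≤ lam * (j : ℝ))).image (fun j => -j)) (by
      intro j hj
      rw [Finset.mem_image] at hj
      obtain ⟨i, hi, rfl⟩ := hj
      have := (Finset.mem_filter.1 hi).2
      push_cast
      linarith)
    rw [Finset.sum_image (by intro x _ y _ h; exact neg_injective h)] at hC
    refine le_trans (le_of_eq ?_) hC
    apply Finset.sum_congr rfl
    intro j _
    have : lam * ((-j : ℤ) : ℝ) - -a = -(lam * (j : ℝ) - a) := by push_cast; ring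
    rw [this, abs_neg]
  have h6 : (6 : ℝ) / lam = 2 / lam + 2 / lam + 2 / lam := by ring
  have : 0 < 2 / lam := by positivity
  linarith


end SumAux

theorem t_SUM : S_SUM := fun lam a h0 h1 J => SumAux.sumall lam a h0 h1 J

theorem t_SYM : S_SYM := by
  unfold S_SYM
  filter_upwards [eventually_ge_atTop (1 : ℝ)] with T hT F
  have hU : (1 : ℝ) ≤ T + 1 := by linarith
  have h1 : ∑ s ∈ ZT T, (mz s : ℂ) * F s = ∑ s ∈ ZT T, (mz (1 - conj s) : ℂ) * F (1 - conj s) :=
    (H370.sum_refl H370.good_zeta hU (fun s => (mz s : ℂ) * F s)).symm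
  rw [h1]
  refine Finset.sum_congr rfl fun s hs => ?_
  have hs' := (H370.mem_Zf H370.good_zeta hU).1 hs
  have h2 : H370.mult riemannZeta (1 - conj s) = H370.mult riemannZeta s :=
    H370.mult_refl H370.good_zeta hs'.1 hs'.2.1 (by linarith [hs'.2.2.1])
  have h3 : mz (1 - conj s) = mz s := h2
  rw [h3]

end Pool.Agent.H4.LG
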