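import Pool.Agent.H4.LG.Stm

set_option autoImplicit false

/-!
Project LG, module TWO: from the second moment to both tails.
-/

namespace Pool.Agent.H4.LG

open Filter Topology MeasureTheory

theorem t_TWO : S_TWO := by
  intro c C hc hC
  obtain ⟨κ, hκ, hκ2⟩ : ∃ κ : ℝ, 0 < κ ∧ κ ^ 2 = 2 * C / c :=
    ⟨√(2 * C / c), Real.sqrt_pos.2 (by positivity), Real.sq_sqrt (by positivity)⟩
  obtain ⟨c', hc'⟩ : ∃ c' : ℝ, c' = c / (8 * κ) := ⟨_, rfl⟩
  have hc'0 : 0 < c' := by rw [hc']; positivity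
  obtain ⟨M, hM⟩ : ∃ M : ℝ, M = 4 * (C + 2) / c' := ⟨_, rfl⟩
  have hM0 : 0 < M := by rw [hM]; positivity
  refine ⟨c' / 8, c' / (2 * M), c / (4 * κ), by positivity, by positivity, by positivity, ?_⟩
  intro a b m X W hab hm hX hW hW0 hB h2 h1 h4 h0
  obtain ⟨B, hB⟩ := hB
  set μ : Measure ℝ := volume.restrict (Set.Ioc a b) with hμ
  have iW : Integrable W μ :=
    (hW.continuousOn.integrableOn_Icc (μ := volume) (a := a) (b := b)).mono_set
      Set.Ioc_subset_Icc_self
  have ibd : ∀ f : ℝ → ℝ, Measurable f → (∀ t, |f t| ≤ |B| ^ 4 + |B| ^ 2 + |B|) →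
      Integrable (fun t => f t * W t) μ := by
    intro f hf hfb
    refine iW.bdd_mul hf.aestronglyMeasurable (c := |B| ^ 4 + |B| ^ 2 + |B|) ?_
    exact Filter.Eventually.of_forall fun t => by rw [Real.norm_eq_abs]; exact hfb t
  have hBB : ∀ t, |X t| ≤ |B| := fun t => (hB t).trans (le_abs_self B)
  have iX : Integrable (fun t => X t * W t) μ := ibd X hX fun t => by
    have := hBB t
    nlinarith [pow_nonneg (abs_nonneg B) 4, pow_nonneg (abs_nonneg B) 2]
  have iaX : Integrable (fun t => |X t| * W t) μ := ibd (fun t => |X t|) hX.abs fun t => by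
    have := hBB t
    rw [abs_abs]
    nlinarith [pow_nonneg (abs_nonneg B) 4, pow_nonneg (abs_nonneg B) 2]
  have iX2 : Integrable (fun t => X t ^ 2 * W t) μ :=
    ibd (fun t => X t ^ 2) (hX.pow_const 2) fun t => by
      have h3 : |X t ^ 2| ≤ |B| ^ 2 := by
        rw [abs_pow]; exact pow_le_pow_left₀ (abs_nonneg _) (hBB t) 2
      nlinarith [pow_nonneg (abs_nonneg B) 4, abs_nonneg B]
  have iX4 : Integrable (fun t => X t ^ 4 * W t) μ :=
    ibd (fun t => X t ^ 4) (hX.pow_const 4) fun t => by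
      have h3 : |X t ^ 4| ≤ |B| ^ 4 := by
        rw [abs_pow]; exact pow_le_pow_left₀ (abs_nonneg _) (hBB t) 4
      nlinarith [pow_nonneg (abs_nonneg B) 2, abs_nonneg B]
  rw [intervalIntegral.integral_of_le hab] at h2 h1 h4 h0
  rw [← hμ] at h2 h1 h4 h0
  -- first absolute moment
  have s1 : ∫ t, X t ^ 2 * W t ∂μ ≤ κ * (∫ t, |X t| * W t ∂μ) + (1 / κ ^ 2) * ∫ t, X t ^ 4 * W t ∂μ := by
    rw [← integral_const_mul, ← integral_const_mul, ← integral_add (iaX.const_mul κ)
      (iX4.const_mul (1 / κ ^ 2))]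
    refine integral_mono iX2 ((iaX.const_mul κ).add (iX4.const_mul (1 / κ ^ 2))) fun t => ?_
    have h3 : X t ^ 2 ≤ κ * |X t| + 1 / κ ^ 2 * X t ^ 4 := by
      have e2 : X t ^ 2 = |X t| ^ 2 := (sq_abs _).symm
      have e4 : X t ^ 4 = |X t| ^ 4 := by
        rw [show (4 : ℕ) = 2 * 2 from rfl, pow_mul, pow_mul, sq_abs]
      rw [e2, e4]
      have hx := abs_nonneg (X t)
      rcases le_total (|X t|) κ with h | h
      · have : 0 ≤ 1 / κ ^ 2 * |X t| ^ 4 := by positivity
        nlinarith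
      · have h5 : 1 ≤ 1 / κ ^ 2 * |X t| ^ 2 := by
          rw [div_mul_eq_mul_div, one_mul, le_div_iff₀ (by positivity), one_mul]
          exact pow_le_pow_left₀ hκ.le h 2
        have h6 : |X t| ^ 2 * 1 ≤ |X t| ^ 2 * (1 / κ ^ 2 * |X t| ^ 2) :=
          mul_le_mul_of_nonneg_left h5 (by positivity)
        have h7 : 0 ≤ κ * |X t| := by positivity
        nlinarith
    have := mul_le_mul_of_nonneg_right h3 (hW0 t)
    simp only
    linarith
  have s2 : c / (2 * κ) * m ≤ ∫ t, |X t| * W t ∂μ := by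
    have h5 : 1 / κ ^ 2 * ∫ t, X t ^ 4 * W t ∂μ ≤ c / 2 * m := by
      calc 1 / κ ^ 2 * ∫ t, X t ^ 4 * W t ∂μ ≤ 1 / κ ^ 2 * (C * m) :=
            mul_le_mul_of_nonneg_left h4 (by positivity)
        _ = c / 2 * m := by rw [hκ2]; field_simp
    have h6 : c / 2 * m ≤ κ * ∫ t, |X t| * W t ∂μ := by linarith
    have h7 : c / (2 * κ) * m = (c / 2 * m) / κ := by field_simp
    rw [h7, div_le_iff₀ hκ]
    linarith
  set A : Set ℝ := {t | c' / 8 ≤ X t} with hA
  have mA : MeasurableSet A := measurableSet_le measurable_const hX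
  have iA : Integrable (A.indicator W) μ := iW.indicator mA
  have eJ : ∫ t in Set.Icc a b ∩ A, W t = ∫ t, A.indicator W t ∂μ := by
    rw [← setIntegral_indicator mA, integral_Icc_eq_integral_Ioc]
  have s3 : 1 / 2 * (∫ t, |X t| * W t ∂μ) + 1 / 2 * (∫ t, X t * W t ∂μ) ≤
      c' / 8 * (∫ t, W t ∂μ) + 1 / M * ((∫ t, W t ∂μ) + ∫ t, X t ^ 4 * W t ∂μ) +
        M * ∫ t, A.indicator W t ∂μ := by
    have i1 : Integrable (fun t => 1 / M * (W t + X t ^ 4 * W t)) μ := (iW.add iX4).const_mul _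
    have i2 : Integrable (fun t => c' / 8 * W t) μ := iW.const_mul _
    have i3 : Integrable (fun t => c' / 8 * W t + 1 / M * (W t + X t ^ 4 * W t)) μ := i2.add i1
    have i4 : Integrable (fun t => M * A.indicator W t) μ := iA.const_mul _
    have i5 : Integrable (fun t => 1 / 2 * (|X t| * W t)) μ := iaX.const_mul _
    have i6 : Integrable (fun t => 1 / 2 * (X t * W t)) μ := iX.const_mul _
    rw [← integral_add iW iX4, ← integral_const_mul, ← integral_const_mul, ← integral_const_mul,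
      ← integral_const_mul, ← integral_const_mul, ← integral_add i5 i6, ← integral_add i2 i1,
      ← integral_add i3 i4]
    refine integral_mono (i5.add i6) (i3.add i4) fun t => ?_
    have hw := hW0 t
    by_cases ht : t ∈ A
    · have h5 : A.indicator W t = W t := Set.indicator_of_mem ht W
      have hx : c' / 8 ≤ X t := ht
      have hx0 : 0 < X t := lt_of_lt_of_le (by positivity) hx
      have h6 : X t ≤ c' / 8 + 1 / M * (1 + X t ^ 4) + M := by
        have h7 : 2 * X t ≤ X t ^ 2 / M + M := by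
          rw [div_add' _ _ _ hM0.ne', le_div_iff₀ hM0]
          nlinarith [sq_nonneg (X t - M)]
        have h8 : X t ^ 2 / M ≤ 1 / M * (1 + X t ^ 4) := by
          rw [div_mul_eq_mul_div, one_mul]
          gcongr
          nlinarith [sq_nonneg (X t ^ 2 - 1), sq_nonneg (X t ^ 2)]
        linarith [show 0 < c' / 8 by positivity]
      have h9 := mul_le_mul_of_nonneg_right h6 hw
      simp only [h5, abs_of_pos hx0]
      linarith
    · have h5 : A.indicator W t = 0 := Set.indicator_of_notMem ht W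
      have hx : X t < c' / 8 := not_le.1 ht
      have h6 : 1 / 2 * |X t| + 1 / 2 * X t ≤ c' / 8 := by
        rcases le_total 0 (X t) with h | h
        · rw [abs_of_nonneg h]; linarith
        · rw [abs_of_nonpos h]; linarith [show 0 < c' / 8 by positivity]
      have h7 : 0 ≤ 1 / M * (W t + X t ^ 4 * W t) := by positivity
      have h9 := mul_le_mul_of_nonneg_right h6 hw
      simp only [h5]
      linarith
  rw [eJ]
  have h1' := (abs_le.1 h1).1
  have k1 : c / (2 * κ) = 4 * c' := by rw [hc']; field_simp; norm_num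
  have k2 : c / (4 * κ) = 2 * c' := by rw [hc']; field_simp; norm_num
  have k3 : 1 / M * ((2 : ℝ) * m + C * m) = c' / 4 * m := by
    rw [hM]; field_simp; ring
  rw [k1] at s2
  rw [k2] at h1'
  have k4 : 1 / M * ((∫ t, W t ∂μ) + ∫ t, X t ^ 4 * W t ∂μ) ≤ c' / 4 * m := by
    rw [← k3]
    exact mul_le_mul_of_nonneg_left (by linarith) (by positivity)
  have k5 : c' / 8 * (∫ t, W t ∂μ) ≤ c' / 8 * (2 * m) :=
    mul_le_mul_of_nonneg_left h0 (by positivity)
  have k6 : c' / 2 * m ≤ M * ∫ t, A.indicator W t ∂μ := by nlinarith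
  have k7 : c' / (2 * M) * m = (c' / 2 * m) / M := by field_simp
  rw [k7, div_le_iff₀ hM0]
  linarith

end Pool.Agent.H4.LG
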