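import Pool.Agent.H4.LG.Cnv2
import Pool.Agent.H4.LG.Dil
import Pool.Agent.H4.LG.Low
import Pool.Agent.H4.LG.Pro
import Pool.Agent.H4.LG.Inv
import Pool.Agent.H4.LG.Cell
import Pool.Agent.H4.LG.SumSym
import Pool.Agent.H4.LG.Mean
import Pool.Agent.H4.LG.Two

set_option autoImplicit false

/-! Both tails of the statistic are thick. -/

namespace Pool.Agent.H4.LG

open Filter Topology MeasureTheory Complex
open scoped ComplexConjugate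
open Pool.Agent.Q97.UM

noncomputable section

/-- **both tails** -/
theorem tails {V Q : ℝ} {ψ : ℝ → ℝ} (hp : PF V Q ψ) (hV : 1 ≤ V) (hQ : 1 ≤ Q) (hint : ∫ v, ψ v ≠ 0) :
    ∃ c c₁ θ : ℝ, 0 < c ∧ 0 < c₁ ∧ 0 < θ ∧ θ ≤ 1 / 40 ∧ ∀ᶠ T : ℝ in atTop, ∀ N : ℕ, (N : ℝ) ≤ T ^ θ → ∀ b : ℕ → ℂ,
      c₁ * (T * N2 N b) ≤ ∫ t in Set.Icc T (2 * T) ∩ {t | c ≤ Xt ψ T t}, ‖dp N b t‖ ^ 2 ∧
      c₁ * (T * N2 N b) ≤ ∫ t in Set.Icc T (2 * T) ∩ {t | c ≤ -Xt ψ T t}, ‖dp N b t‖ ^ 2 := by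
  obtain ⟨c, θ₁, hc, hθ₁0, hθ₁1, hx2⟩ := x2 t_DIL (t_LOW t_DIL) t_PRO t_CELL t_SUM t_SYM t_INV hp hV hQ hint
  obtain ⟨θ₂, hθ₂0, hθ₂1, hup⟩ := up
  obtain ⟨C4, hC4, hup⟩ := hup V Q ψ hV hQ hp 4 le_rfl
  obtain ⟨c₀, c₃, ε₀, hc₀, hc₃, hε₀, htwo⟩ := t_TWO c (8 * C4 + 16 * mu ψ ^ 4 + 1) hc (by positivity)
  obtain ⟨θ₃, hθ₃0, hθ₃1, hmean⟩ := t_MEAN V Q ψ hV hQ hp (ε₀ / 2) (by positivity)
  obtain ⟨η, hη⟩ : ∃ η, η = min 1 (ε₀ / (2 * (|mu ψ| + 1))) := ⟨_, rfl⟩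
  have hη0 : 0 < η := by rw [hη]; positivity
  have hη1 : |mu ψ| * η ≤ ε₀ / 2 := by
    have h1 : η ≤ ε₀ / (2 * (|mu ψ| + 1)) := by rw [hη]; exact min_le_right _ _
    calc |mu ψ| * η ≤ (|mu ψ| + 1) * (ε₀ / (2 * (|mu ψ| + 1))) := mul_le_mul (by linarith) h1 hη0.le (by positivity)
      _ = ε₀ / 2 := by field_simp
  refine ⟨c₀, c₃, min (min θ₁ θ₂) θ₃, hc₀, hc₃, by positivity, (min_le_right _ _).trans hθ₃1, ?_⟩
  filter_upwards [hx2, hup, hmean, mv_rel η hη0, eventually_ge_atTop (16 : ℝ)] with T hx2 hup hmean hmv hT N hN b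
  have hT1 : (1 : ℝ) ≤ T := by linarith
  have hN1 : (N : ℝ) ≤ T ^ θ₁ := hN.trans (Real.rpow_le_rpow_of_exponent_le hT1 ((min_le_left _ _).trans (min_le_left _ _)))
  have hN2 : (N : ℝ) ≤ T ^ θ₂ := hN.trans (Real.rpow_le_rpow_of_exponent_le hT1 ((min_le_left _ _).trans (min_le_right _ _)))
  have hN3 : (N : ℝ) ≤ T ^ θ₃ := hN.trans (Real.rpow_le_rpow_of_exponent_le hT1 (min_le_right _ _))
  have hN40 : (N : ℝ) ≤ T ^ (1 / 40 : ℝ) := hN3.trans (Real.rpow_le_rpow_of_exponent_le hT1 hθ₃1)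
  replace hx2 := hx2 N hN1 b
  replace hup := hup N hN2 b
  replace hmean := hmean N hN3 b
  replace hmv := hmv N hN40 b
  have hTN : 0 ≤ T * N2 N b := mul_nonneg (by linarith) (N2_nn _ _)
  have hW : Continuous (fun t => ‖dp N b t‖ ^ 2) := (dp_c N b).norm.pow 2
  have hXm := Xt_meas hp T
  have hYm := Yt_meas hp T
  have hη1' : η ≤ 1 := by rw [hη]; exact min_le_left _ _
  have hW2 : ∫ t in T..(2 * T), ‖dp N b t‖ ^ 2 ≤ 2 * (T * N2 N b) := by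
    have h1 := (abs_le.1 hmv).2
    have h2 : η * (T * N2 N b) ≤ 1 * (T * N2 N b) := mul_le_mul_of_nonneg_right hη1' hTN
    linarith
  have iY : IntervalIntegrable (fun t => Yt ψ T t * ‖dp N b t‖ ^ 2) volume T (2 * T) := ii hYm (Yt_bdd hp T) hW _ _
  have iW : IntervalIntegrable (fun t => ‖dp N b t‖ ^ 2) volume T (2 * T) := hW.intervalIntegrable _ _
  -- the mean
  have hm : |∫ t in T..(2 * T), Xt ψ T t * ‖dp N b t‖ ^ 2| ≤ ε₀ * (T * N2 N b) := by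
    have e : ∫ t in T..(2 * T), Xt ψ T t * ‖dp N b t‖ ^ 2 =
        ((∫ t in T..(2 * T), Yt ψ T t * ‖dp N b t‖ ^ 2) - mu ψ * (T * N2 N b)) - mu ψ * ((∫ t in T..(2 * T), ‖dp N b t‖ ^ 2) - T * N2 N b) := by
      have e1 : (fun t => Xt ψ T t * ‖dp N b t‖ ^ 2) = fun t => Yt ψ T t * ‖dp N b t‖ ^ 2 - mu ψ * ‖dp N b t‖ ^ 2 := by
        funext t
        unfold Xt
        ring
      rw [e1, intervalIntegral.integral_sub iY (iW.const_mul _), intervalIntegral.integral_const_mul]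
      ring
    rw [e]
    refine (abs_sub _ _).trans ?_
    rw [abs_mul]
    have h1 := mul_le_mul_of_nonneg_left hmv (abs_nonneg (mu ψ))
    have h2 := mul_le_mul_of_nonneg_right hη1 hTN
    have h3 : |mu ψ| * (η * (T * N2 N b)) = |mu ψ| * η * (T * N2 N b) := by ring
    linarith
  -- the fourth moment
  have h4 : ∫ t in T..(2 * T), Xt ψ T t ^ 4 * ‖dp N b t‖ ^ 2 ≤ (8 * C4 + 16 * mu ψ ^ 4 + 1) * (T * N2 N b) := by
    have i1 : IntervalIntegrable (fun t => |Yt ψ T t| ^ 4 * ‖dp N b t‖ ^ 2) volume T (2 * T) :=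
      ii (B := (∑ s ∈ ZT T, (mz s : ℝ) * Q) ^ 4) ((_root_.continuous_abs.measurable.comp hYm).pow_const 4) (fun t => by
        show |(|Yt ψ T t|) ^ 4| ≤ _
        rw [abs_pow, abs_abs]; exact pow_le_pow_left₀ (abs_nonneg _) (Yt_bdd hp T t) 4) hW _ _
    have i2 : IntervalIntegrable (fun t => Xt ψ T t ^ 4 * ‖dp N b t‖ ^ 2) volume T (2 * T) :=
      ii (B := (∑ s ∈ ZT T, (mz s : ℝ) * Q + |mu ψ|) ^ 4) (hXm.pow_const 4) (fun t => by
        rw [abs_pow]; exact pow_le_pow_left₀ (abs_nonneg _) (Xt_bdd hp T t) 4) hW _ _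
    have h5 : ∫ t in T..(2 * T), Xt ψ T t ^ 4 * ‖dp N b t‖ ^ 2 ≤
        ∫ t in T..(2 * T), (8 * (|Yt ψ T t| ^ 4 * ‖dp N b t‖ ^ 2) + 8 * mu ψ ^ 4 * ‖dp N b t‖ ^ 2) := by
      refine intervalIntegral.integral_mono_on (by linarith) i2 ((i1.const_mul 8).add (iW.const_mul _)) fun t _ => ?_
      have h6 : Xt ψ T t ^ 4 ≤ 8 * |Yt ψ T t| ^ 4 + 8 * mu ψ ^ 4 := by
        unfold Xt
        obtain ⟨a, ha⟩ : ∃ a, a = Yt ψ T t := ⟨_, rfl⟩
        obtain ⟨d, hd⟩ : ∃ d, d = mu ψ := ⟨_, rfl⟩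
        rw [← ha, ← hd]
        have e2 : |a| ^ 4 = a ^ 4 := by
          rw [show (4 : ℕ) = 2 * 2 by norm_num, pow_mul, pow_mul, sq_abs]
        rw [e2]
        have h7 : (a - d) ^ 2 ≤ 2 * a ^ 2 + 2 * d ^ 2 := by nlinarith [sq_nonneg (a + d)]
        have h8 : ((a - d) ^ 2) ^ 2 ≤ (2 * a ^ 2 + 2 * d ^ 2) ^ 2 := pow_le_pow_left₀ (sq_nonneg _) h7 2
        nlinarith [sq_nonneg (a ^ 2 - d ^ 2)]
      have := mul_le_mul_of_nonneg_right h6 (sq_nonneg ‖dp N b t‖)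
      nlinarith
    rw [intervalIntegral.integral_add (i1.const_mul 8) (iW.const_mul _), intervalIntegral.integral_const_mul,
      intervalIntegral.integral_const_mul] at h5
    have h9 : 0 ≤ mu ψ ^ 4 := by positivity
    have h10 := mul_le_mul_of_nonneg_left hW2 h9
    nlinarith
  constructor
  · exact htwo T (2 * T) (T * N2 N b) (Xt ψ T) (fun t => ‖dp N b t‖ ^ 2) (by linarith) hTN hXm hW (fun t => sq_nonneg _)
      ⟨_, fun t => Xt_bdd hp T t⟩ hx2 hm h4 hW2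
  · refine htwo T (2 * T) (T * N2 N b) (fun t => -Xt ψ T t) (fun t => ‖dp N b t‖ ^ 2) (by linarith) hTN hXm.neg hW (fun t => sq_nonneg _)
      ⟨_, fun t => by rw [abs_neg]; exact Xt_bdd hp T t⟩ ?_ ?_ ?_ hW2
    · refine hx2.trans (le_of_eq ?_)
      congr 1
      funext t
      ring
    · have e : ∫ t in T..(2 * T), -Xt ψ T t * ‖dp N b t‖ ^ 2 = -∫ t in T..(2 * T), Xt ψ T t * ‖dp N b t‖ ^ 2 := by
        rw [← intervalIntegral.integral_neg]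
        congr 1
        funext t
        ring
      rw [e, abs_neg]
      exact hm
    · refine le_trans (le_of_eq ?_) h4
      congr 1
      funext t
      ring

/-- the edges of `[T, 2T]` -/
theorem edges {ε : ℝ} (hε : 0 < ε) : ∀ᶠ T : ℝ in atTop, ∀ N : ℕ, (N : ℝ) ≤ T ^ (1 / 40 : ℝ) → ∀ (b : ℕ → ℂ) (S : Set ℝ), MeasurableSet S →
    ∫ t in Set.Icc T (2 * T) ∩ S, ‖dp N b t‖ ^ 2 ≤ (∫ t in Set.Icc (T + 2) (2 * T - 2) ∩ S, ‖dp N b t‖ ^ 2) + ε * (T * N2 N b) := by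
  have h1 : ∀ᶠ T : ℝ in atTop, 4 / ε ≤ T ^ (39 / 40 : ℝ) := (tendsto_rpow_atTop (by norm_num)).eventually_ge_atTop _
  filter_upwards [h1, eventually_ge_atTop (16 : ℝ)] with T h1 hT N hN b S hS
  have hT0 : 0 < T := by linarith
  have hW : Continuous (fun t => ‖dp N b t‖ ^ 2) := (dp_c N b).norm.pow 2
  have hi : IntegrableOn (fun t => ‖dp N b t‖ ^ 2) (Set.Icc T (2 * T)) := hW.integrableOn_Icc
  have hi2 : IntegrableOn (fun t => ‖dp N b t‖ ^ 2) (Set.Icc T (2 * T) ∩ S) := hi.mono_set Set.inter_subset_left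
  have h2 := integral_inter_add_sdiff (μ := volume) (f := fun t => ‖dp N b t‖ ^ 2) (s := Set.Icc T (2 * T) ∩ S) (t := Set.Icc (T + 2) (2 * T - 2))
    measurableSet_Icc hi2
  rw [← h2]
  have e1 : Set.Icc T (2 * T) ∩ S ∩ Set.Icc (T + 2) (2 * T - 2) = Set.Icc (T + 2) (2 * T - 2) ∩ S := by
    ext t
    simp only [Set.mem_inter_iff, Set.mem_Icc]
    constructor
    · rintro ⟨⟨_, h⟩, h'⟩; exact ⟨h', h⟩
    · rintro ⟨h, h'⟩; exact ⟨⟨⟨by linarith [h.1], by linarith [h.2]⟩, h'⟩, h⟩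
  rw [e1]
  refine add_le_add le_rfl ?_
  have hsub : ((Set.Icc T (2 * T) ∩ S) \ Set.Icc (T + 2) (2 * T - 2)) ⊆ Set.Icc T (T + 2) ∪ Set.Icc (2 * T - 2) (2 * T) := by
    rintro t ⟨⟨⟨ha, hb⟩, _⟩, hc⟩
    rcases le_or_gt t (T + 2) with h | h
    · exact Or.inl ⟨ha, h⟩
    · rcases le_or_gt (2 * T - 2) t with h' | h'
      · exact Or.inr ⟨h', hb⟩
      · exact absurd ⟨h.le, h'.le⟩ hc
  have hfin : volume (Set.Icc T (T + 2) ∪ Set.Icc (2 * T - 2) (2 * T)) ≤ ENNReal.ofReal 4 := by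
    refine (measure_union_le _ _).trans ?_
    rw [Real.volume_Icc, Real.volume_Icc, ← ENNReal.ofReal_add (by linarith) (by linarith)]
    apply ENNReal.ofReal_le_ofReal
    linarith
  have h3 : ∫ t in ((Set.Icc T (2 * T) ∩ S) \ Set.Icc (T + 2) (2 * T - 2)), ‖dp N b t‖ ^ 2 ≤
      ∫ t in Set.Icc T (T + 2) ∪ Set.Icc (2 * T - 2) (2 * T), ‖dp N b t‖ ^ 2 := by
    refine setIntegral_mono_set ?_ (Filter.Eventually.of_forall fun t => sq_nonneg _) (Filter.Eventually.of_forall hsub)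
    exact (hW.integrableOn_Icc).union (hW.integrableOn_Icc)
  have h4 := norm_setIntegral_le_of_norm_le_const (μ := volume) (s := Set.Icc T (T + 2) ∪ Set.Icc (2 * T - 2) (2 * T))
    (f := fun t => ‖dp N b t‖ ^ 2) (C := N * N2 N b) (lt_of_le_of_lt hfin ENNReal.ofReal_lt_top) (fun t _ => by
      rw [Real.norm_eq_abs, abs_of_nonneg (sq_nonneg _)]
      exact (Pool.Agent.Q84.UM.t_DPM.2.2 N b t).1)
  rw [Real.norm_eq_abs] at h4
  have h5 : volume.real (Set.Icc T (T + 2) ∪ Set.Icc (2 * T - 2) (2 * T)) ≤ 4 := by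
    rw [measureReal_def]
    have := ENNReal.toReal_mono ENNReal.ofReal_ne_top hfin
    rwa [ENNReal.toReal_ofReal (by norm_num)] at this
  have hN0 : (0 : ℝ) ≤ N := Nat.cast_nonneg _
  have h6 : (N : ℝ) * N2 N b * 4 ≤ ε * (T * N2 N b) := by
    have h7 : (N : ℝ) * 4 ≤ ε * T := by
      have e2 : T ^ (39 / 40 : ℝ) * T ^ (1 / 40 : ℝ) = T := by
        rw [← Real.rpow_add hT0]; norm_num
      rw [div_le_iff₀ hε] at h1
      have h8 : (0 : ℝ) ≤ T ^ (1 / 40 : ℝ) := by positivity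
      calc (N : ℝ) * 4 ≤ T ^ (1 / 40 : ℝ) * (T ^ (39 / 40 : ℝ) * ε) := mul_le_mul hN h1 (by norm_num) h8
        _ = ε * (T ^ (39 / 40 : ℝ) * T ^ (1 / 40 : ℝ)) := by ring
        _ = ε * T := by rw [e2]
    have := mul_le_mul_of_nonneg_right h7 (N2_nn N b)
    nlinarith
  have h9 : (N : ℝ) * N2 N b * volume.real (Set.Icc T (T + 2) ∪ Set.Icc (2 * T - 2) (2 * T)) ≤ N * N2 N b * 4 :=
    mul_le_mul_of_nonneg_left h5 (mul_nonneg hN0 (N2_nn _ _))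
  have h10 := le_abs_self (∫ t in Set.Icc T (T + 2) ∪ Set.Icc (2 * T - 2) (2 * T), ‖dp N b t‖ ^ 2)
  linarith

end

end Pool.Agent.H4.LG
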