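import Pool.Agent.H4.LG.Low2

set_option autoImplicit false

/-! Upper bounds for the statistic. -/

namespace Pool.Agent.H4.LG

open Filter Topology MeasureTheory Complex
open scoped ComplexConjugate
open Pool.Agent.Q97.UM
open Pool.Agent.Q176.UM (SS_nonneg SS_cont)

noncomputable section

lemma dp_c (N : ℕ) (b : ℕ → ℂ) : Continuous (dp N b) := (Pool.Agent.Q84.UM.t_DPM.2.2 N b 0).2

lemma N2_nn (N : ℕ) (b : ℕ → ℂ) : 0 ≤ N2 N b := by unfold N2; positivity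

lemma Yt_meas {V Q : ℝ} {ψ : ℝ → ℝ} (hp : PF V Q ψ) (T : ℝ) : Measurable (Yt ψ T) := by
  unfold Yt
  refine Finset.measurable_sum _ fun s _ => measurable_const.mul (hp.meas.comp (by fun_prop))

lemma Yt_bdd {V Q : ℝ} {ψ : ℝ → ℝ} (hp : PF V Q ψ) (T t : ℝ) : |Yt ψ T t| ≤ ∑ s ∈ ZT T, (mz s : ℝ) * Q := by
  unfold Yt
  refine (Finset.abs_sum_le_sum_abs _ _).trans (Finset.sum_le_sum fun s _ => ?_)
  rw [abs_mul, Nat.abs_cast]
  exact mul_le_mul_of_nonneg_left (hp.bd _) (Nat.cast_nonneg _)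

lemma ZT_ZD {T : ℝ} (hT : 16 ≤ T) {s : ℂ} (hs : s ∈ ZT T) : s ∈ ZD T := by
  unfold ZT at hs
  unfold ZD
  rw [H370.mem_Zf H370.good_zeta (by linarith : (1 : ℝ) ≤ T + 1)] at hs
  rw [H370.mem_Zf H370.good_zeta (by linarith : (1 : ℝ) ≤ T / 16)]
  obtain ⟨h1, h2, h3, h4, h5⟩ := hs
  exact ⟨h1, h2, by linarith, by linarith, h5⟩

lemma ZT_im {T : ℝ} (hT : 16 ≤ T) {s : ℂ} (hs : s ∈ ZT T) : T + 1 < s.im ∧ s.im ≤ 2 * T - 1 := by
  unfold ZT at hs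
  rw [H370.mem_Zf H370.good_zeta (by linarith : (1 : ℝ) ≤ T + 1)] at hs
  exact ⟨hs.2.2.1, hs.2.2.2.1⟩

lemma Yt_SS {V Q : ℝ} {ψ : ℝ → ℝ} (hp : PF V Q ψ) (hV : 1 ≤ V) (hQ : 1 ≤ Q) {δ T : ℝ} (hδ : 0 ≤ δ) (hT : 16 ≤ T) (t : ℝ) :
    |Yt ψ T t| ≤ Q * (1 + V) ^ 2 * SS δ T t := by
  have hL : 0 < Real.log T := Real.log_pos (by linarith)
  unfold Yt SS
  refine (Finset.abs_sum_le_sum_abs _ _).trans ?_
  rw [Finset.mul_sum]
  have h1 : ∑ s ∈ ZT T, |(mz s : ℝ) * ψ (Real.log T * (s.im - t))| ≤ ∑ s ∈ ZT T, Q * (1 + V) ^ 2 *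
      ((mz s : ℝ) * (Real.exp (2 * δ * (Real.log T * |s.re - 1 / 2|)) / (1 + Real.log T * |s.im - t|) ^ 2)) := by
    refine Finset.sum_le_sum fun s _ => ?_
    rw [abs_mul, Nat.abs_cast]
    obtain ⟨x, hx⟩ : ∃ x, x = Real.log T * (s.im - t) := ⟨_, rfl⟩
    have hx2 : |x| = Real.log T * |s.im - t| := by rw [hx, abs_mul, abs_of_pos hL]
    rw [← hx, ← hx2]
    have he : 1 ≤ Real.exp (2 * δ * (Real.log T * |s.re - 1 / 2|)) := Real.one_le_exp (by positivity)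
    have h0 : 0 ≤ |x| := abs_nonneg _
    have h2 : |ψ x| ≤ Q * (1 + V) ^ 2 * (Real.exp (2 * δ * (Real.log T * |s.re - 1 / 2|)) / (1 + |x|) ^ 2) := by
      rcases le_or_gt V |x| with h | h
      · rw [hp.supp x h, abs_zero]; positivity
      · have h3 : 1 ≤ (1 + V) ^ 2 * (1 / (1 + |x|) ^ 2) := by
          rw [mul_one_div, le_div_iff₀ (by positivity), one_mul]
          exact pow_le_pow_left₀ (by positivity) (by linarith) 2
        calc |ψ x| ≤ Q * 1 := by rw [mul_one]; exact hp.bd x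
          _ ≤ Q * ((1 + V) ^ 2 * (1 / (1 + |x|) ^ 2)) := mul_le_mul_of_nonneg_left h3 (by linarith)
          _ ≤ Q * ((1 + V) ^ 2 * (Real.exp (2 * δ * (Real.log T * |s.re - 1 / 2|)) / (1 + |x|) ^ 2)) := by gcongr
          _ = _ := by ring
    calc (mz s : ℝ) * |ψ x| ≤ (mz s : ℝ) * (Q * (1 + V) ^ 2 * (Real.exp (2 * δ * (Real.log T * |s.re - 1 / 2|)) / (1 + |x|) ^ 2)) :=
          mul_le_mul_of_nonneg_left h2 (Nat.cast_nonneg _)
      _ = _ := by ring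
  refine h1.trans (Finset.sum_le_sum_of_subset_of_nonneg (fun s hs => ZT_ZD hT hs) fun s _ _ => by positivity)

/-- the statistic vanishes outside `[T, 2T]` -/
lemma Yt_zero {V Q : ℝ} {ψ : ℝ → ℝ} (hp : PF V Q ψ) {T t : ℝ} (hT : 16 ≤ T) (hL : V ≤ Real.log T) (ht : t < T ∨ 2 * T < t) :
    Yt ψ T t = 0 := by
  have hL0 : 0 < Real.log T := Real.log_pos (by linarith)
  unfold Yt
  refine Finset.sum_eq_zero fun s hs => ?_
  obtain ⟨h1, h2⟩ := ZT_im hT hs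
  rw [hp.supp, mul_zero]
  rw [abs_mul, abs_of_pos hL0]
  have h3 : 1 ≤ |s.im - t| := by
    rcases ht with h | h
    · exact (by linarith : (1 : ℝ) ≤ s.im - t).trans (le_abs_self _)
    · exact (by linarith : (1 : ℝ) ≤ -(s.im - t)).trans (neg_le_abs _)
  nlinarith

/-- moments of the statistic -/
theorem up : ∃ θ : ℝ, 0 < θ ∧ θ ≤ 1 / 40 ∧ ∀ (V Q : ℝ) (ψ : ℝ → ℝ), 1 ≤ V → 1 ≤ Q → PF V Q ψ → ∀ m : ℕ, m ≤ 4 → ∃ C : ℝ, 0 ≤ C ∧
    ∀ᶠ T : ℝ in atTop, ∀ N : ℕ, (N : ℝ) ≤ T ^ θ → ∀ b : ℕ → ℂ,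
      ∫ t in T..(2 * T), |Yt ψ T t| ^ m * ‖dp N b t‖ ^ 2 ≤ C * (T * N2 N b) := by
  obtain ⟨θ₀, c, C₀, hθ₀, hθ₀', hc, hC₀, hTB⟩ := b_TAIL
  refine ⟨min (θ₀ / 2) (1 / 40), by positivity, min_le_right _ _, fun V Q ψ hV hQ hp m hm => ?_⟩
  obtain ⟨C', hC', h⟩ := b_STM θ₀ c C₀ hθ₀ hθ₀' hc hC₀ hTB m (c / 80) (by positivity) (by
    have : (m : ℝ) ≤ 4 := by exact_mod_cast hm
    nlinarith)
  refine ⟨(Q * (1 + V) ^ 2) ^ m * C', by positivity, ?_⟩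
  filter_upwards [h, eventually_ge_atTop (16 : ℝ)] with T h hT N hN b
  have hN1 : (N : ℝ) ≤ T ^ (θ₀ / 2) := hN.trans (Real.rpow_le_rpow_of_exponent_le (by linarith) (min_le_left _ _))
  replace h := h N hN1 b
  have hSc := SS_cont (c / 80) (T := T) (by linarith)
  have hg0 : ∀ t, 0 ≤ SS (c / 80) T t ^ m * ‖dp N b t‖ ^ 2 := fun t =>
    mul_nonneg (pow_nonneg (SS_nonneg _ _ _) _) (sq_nonneg _)
  have hgc : Continuous (fun t => SS (c / 80) T t ^ m * ‖dp N b t‖ ^ 2) := (hSc.pow m).mul ((dp_c N b).norm.pow 2)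
  have h1 : ∫ t in T..(2 * T), |Yt ψ T t| ^ m * ‖dp N b t‖ ^ 2 ≤ ∫ t in T..(2 * T), (Q * (1 + V) ^ 2) ^ m * (SS (c / 80) T t ^ m * ‖dp N b t‖ ^ 2) := by
    apply intervalIntegral.integral_mono_on (by linarith)
    · refine (intervalIntegrable_iff_integrableOn_Ioc_of_le (by linarith)).2 ?_
      have h2 : IntegrableOn (fun t => ‖dp N b t‖ ^ 2) (Set.Ioc T (2 * T)) :=
        (((dp_c N b).norm.pow 2).integrableOn_Icc).mono_set Set.Ioc_subset_Icc_self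
      refine Integrable.bdd_mul (c := (∑ s ∈ ZT T, (mz s : ℝ) * Q) ^ m) h2 ?_ (Filter.Eventually.of_forall fun t => ?_)
      · exact ((_root_.continuous_abs.measurable.comp (Yt_meas hp T)).pow_const m).aestronglyMeasurable
      · rw [Real.norm_eq_abs, abs_of_nonneg (by positivity)]
        exact pow_le_pow_left₀ (abs_nonneg _) (Yt_bdd hp T t) m
    · exact (hgc.const_mul _ |>.intervalIntegrable _ _)
    · intro t _
      rw [← mul_assoc, ← mul_pow]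
      exact mul_le_mul_of_nonneg_right (pow_le_pow_left₀ (abs_nonneg _) (Yt_SS hp hV hQ (by positivity) hT t) m) (sq_nonneg _)
  rw [intervalIntegral.integral_const_mul] at h1
  have h2 : ∫ t in T..(2 * T), SS (c / 80) T t ^ m * ‖dp N b t‖ ^ 2 ≤ ∫ t in (T / 4)..(8 * T), SS (c / 80) T t ^ m * ‖dp N b t‖ ^ 2 :=
    intervalIntegral.integral_mono_interval (by linarith) (by linarith) (by linarith)
      (Filter.Eventually.of_forall hg0) (hgc.intervalIntegrable _ _)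
  calc _ ≤ _ := h1
    _ ≤ (Q * (1 + V) ^ 2) ^ m * (C' * T * N2 N b) := mul_le_mul_of_nonneg_left (h2.trans h) (by positivity)
    _ = _ := by ring

end

end Pool.Agent.H4.LG
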