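import Pool.Agent.H4.LG.Idn

set_option autoImplicit false

/-! The number of zeros in windows, with a margin in the length. -/

namespace Pool.Agent.H4.LG

open Filter Topology MeasureTheory Complex
open Pool.Agent.Q97.UM

noncomputable section

/-- the indicator function of `(a, b]` -/
def ind (a b : ℝ) : ℝ → ℝ := (Set.Ioc a b).indicator fun _ => (1 : ℝ)

lemma ind_nn (a b x : ℝ) : 0 ≤ ind a b x := Set.indicator_nonneg (fun _ _ => zero_le_one) x

lemma ind_pf {a b : ℝ} (ha : 0 ≤ a) : PF (b + 1) 1 (ind a b) := by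
  refine ⟨measurable_const.indicator measurableSet_Ioc, fun x => ?_, fun x hx => ?_⟩
  · unfold ind
    by_cases h : x ∈ Set.Ioc a b
    · rw [Set.indicator_of_mem h, abs_one]
    · rw [Set.indicator_of_notMem h, abs_zero]; exact zero_le_one
  · unfold ind
    refine Set.indicator_of_notMem (fun h => ?_) _
    rw [abs_of_pos (lt_of_le_of_lt ha h.1)] at hx
    linarith [h.2]

lemma ind_int {a b : ℝ} (hab : a ≤ b) : ∫ x, ind a b x = b - a := by
  unfold ind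
  rw [integral_indicator measurableSet_Ioc, ← intervalIntegral.integral_of_le hab, intervalIntegral.integral_const, smul_eq_mul, mul_one]

lemma ind_add {a b c : ℝ} (hab : a ≤ b) (hbc : b ≤ c) (x : ℝ) : ind a c x = ind a b x + ind b c x := by
  unfold ind
  rcases le_or_gt x a with h1 | h1
  · rw [Set.indicator_of_notMem (fun h => not_lt.2 h1 h.1), Set.indicator_of_notMem (fun h => not_lt.2 h1 h.1),
      Set.indicator_of_notMem (fun h => not_lt.2 (h1.trans hab) h.1), add_zero]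
  · rcases le_or_gt x b with h2 | h2
    · rw [Set.indicator_of_mem (show x ∈ Set.Ioc a c from ⟨h1, h2.trans hbc⟩), Set.indicator_of_mem (show x ∈ Set.Ioc a b from ⟨h1, h2⟩),
        Set.indicator_of_notMem (fun h => not_lt.2 h2 h.1), add_zero]
    · rcases le_or_gt x c with h3 | h3
      · rw [Set.indicator_of_mem (show x ∈ Set.Ioc a c from ⟨h1, h3⟩), Set.indicator_of_notMem (fun h => not_le.2 h2 h.2),
          Set.indicator_of_mem (show x ∈ Set.Ioc b c from ⟨h2, h3⟩), zero_add]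
      · rw [Set.indicator_of_notMem (fun h => not_le.2 h3 h.2), Set.indicator_of_notMem (fun h => not_le.2 h2 h.2),
          Set.indicator_of_notMem (fun h => not_le.2 h3 h.2), add_zero]

lemma Yt_add {a b c : ℝ} (hab : a ≤ b) (hbc : b ≤ c) (T t : ℝ) : Yt (ind a c) T t = Yt (ind a b) T t + Yt (ind b c) T t := by
  unfold Yt
  rw [← Finset.sum_add_distrib]
  exact Finset.sum_congr rfl fun _ _ => by rw [ind_add hab hbc]; ring

lemma Yt_nn (a b T t : ℝ) : 0 ≤ Yt (ind a b) T t :=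
  Finset.sum_nonneg fun s _ => mul_nonneg (Nat.cast_nonneg _) (ind_nn _ _ _)

lemma Yt_nat (a b T t : ℝ) : ∃ n : ℕ, Yt (ind a b) T t = n := by
  classical
  refine ⟨∑ s ∈ ZT T, if Real.log T * (s.im - t) ∈ Set.Ioc a b then mz s else 0, ?_⟩
  unfold Yt
  rw [Nat.cast_sum]
  refine Finset.sum_congr rfl fun s _ => ?_
  unfold ind
  by_cases h : Real.log T * (s.im - t) ∈ Set.Ioc a b
  · rw [Set.indicator_of_mem h, if_pos h, mul_one]
  · rw [Set.indicator_of_notMem h, if_neg h, mul_zero, Nat.cast_zero]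

lemma Yt_dich (a b T t : ℝ) : Yt (ind a b) T t = 0 ∨ 1 ≤ Yt (ind a b) T t := by
  obtain ⟨n, hn⟩ := Yt_nat a b T t
  rw [hn]
  rcases Nat.eq_zero_or_pos n with h | h
  · left; rw [h, Nat.cast_zero]
  · right; exact_mod_cast h

/-- the weight of the `t` with a zero in a short window -/
lemma short {a b : ℝ} (ha : 0 ≤ a) (hab : a ≤ b) {ε : ℝ} (hε : 0 < ε) (h1 : (b - a) / (2 * Real.pi) ≤ ε) :
    ∃ θ : ℝ, 0 < θ ∧ θ ≤ 1 / 40 ∧ ∀ᶠ T : ℝ in atTop, ∀ N : ℕ, (N : ℝ) ≤ T ^ θ → ∀ c : ℕ → ℂ,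
      ∫ t in Set.Icc T (2 * T) ∩ {t | 1 ≤ Yt (ind a b) T t}, ‖dp N c t‖ ^ 2 ≤ 2 * ε * (T * N2 N c) := by
  obtain ⟨θ, hθ0, hθ1, h⟩ := t_MEAN (b + 1) 1 (ind a b) (by linarith) le_rfl (ind_pf ha) ε hε
  refine ⟨θ, hθ0, hθ1, ?_⟩
  filter_upwards [h, eventually_ge_atTop (16 : ℝ)] with T h hT N hN c
  have h2 := (abs_le.1 (h N hN c)).2
  have hW : Continuous (fun t => ‖dp N c t‖ ^ 2) := (dp_c N c).norm.pow 2
  have hYm := Yt_meas (ind_pf ha (b := b)) T
  have hi : IntervalIntegrable (fun t => Yt (ind a b) T t * ‖dp N c t‖ ^ 2) volume T (2 * T) := ii hYm (Yt_bdd (ind_pf ha) T) hW _ _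
  have hm : mu (ind a b) ≤ ε := by
    unfold mu
    rw [ind_int hab]
    exact h1
  have hTN : 0 ≤ T * N2 N c := mul_nonneg (by linarith) (N2_nn _ _)
  have h3 : ∫ t in Set.Icc T (2 * T) ∩ {t | 1 ≤ Yt (ind a b) T t}, ‖dp N c t‖ ^ 2 ≤ ∫ t in T..(2 * T), Yt (ind a b) T t * ‖dp N c t‖ ^ 2 := by
    rw [intervalIntegral.integral_of_le (by linarith), ← integral_Icc_eq_integral_Ioc]
    have hi2 : IntegrableOn (fun t => Yt (ind a b) T t * ‖dp N c t‖ ^ 2) (Set.Icc T (2 * T)) := by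
      rw [integrableOn_Icc_iff_integrableOn_Ioc]
      exact (intervalIntegrable_iff_integrableOn_Ioc_of_le (by linarith)).1 hi
    have hS : MeasurableSet {t | 1 ≤ Yt (ind a b) T t} := hYm measurableSet_Ici
    calc ∫ t in Set.Icc T (2 * T) ∩ {t | 1 ≤ Yt (ind a b) T t}, ‖dp N c t‖ ^ 2
        ≤ ∫ t in Set.Icc T (2 * T) ∩ {t | 1 ≤ Yt (ind a b) T t}, Yt (ind a b) T t * ‖dp N c t‖ ^ 2 := by
          refine setIntegral_mono_on (hW.integrableOn_Icc.mono_set Set.inter_subset_left) (hi2.mono_set Set.inter_subset_left)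
            (measurableSet_Icc.inter hS) fun t ht => ?_
          exact le_mul_of_one_le_left (sq_nonneg _) ht.2
      _ ≤ _ := setIntegral_mono_set hi2 (Filter.Eventually.of_forall fun t => mul_nonneg (Yt_nn _ _ _ _) (sq_nonneg _))
          (Filter.Eventually.of_forall Set.inter_subset_left)
  have h4 := mul_le_mul_of_nonneg_right hm hTN
  linarith

/-- splitting of a set -/
lemma split_le {T : ℝ} {A B C : Set ℝ} {W : ℝ → ℝ} (hW : Continuous W) (hW0 : ∀ t, 0 ≤ W t)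
    (h : A ⊆ B ∪ C) :
    ∫ t in Set.Icc T (2 * T) ∩ A, W t ≤ (∫ t in Set.Icc T (2 * T) ∩ B, W t) + ∫ t in Set.Icc T (2 * T) ∩ C, W t := by
  have hi : ∀ S : Set ℝ, IntegrableOn W (Set.Icc T (2 * T) ∩ S) := fun S => hW.integrableOn_Icc.mono_set Set.inter_subset_left
  calc ∫ t in Set.Icc T (2 * T) ∩ A, W t ≤ ∫ t in (Set.Icc T (2 * T) ∩ B) ∪ (Set.Icc T (2 * T) ∩ C), W t := by
        refine setIntegral_mono_set ((hi B).union (hi C)) (Filter.Eventually.of_forall hW0) (Filter.Eventually.of_forall ?_)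
        rintro t ⟨h1, h2⟩
        rcases h h2 with h3 | h3
        · exact Or.inl ⟨h1, h3⟩
        · exact Or.inr ⟨h1, h3⟩
    _ ≤ _ := by
        have h0 := integral_mono_measure (μ := volume.restrict ((Set.Icc T (2 * T) ∩ B) ∪ (Set.Icc T (2 * T) ∩ C)))
          (ν := volume.restrict (Set.Icc T (2 * T) ∩ B) + volume.restrict (Set.Icc T (2 * T) ∩ C)) (f := W)
          (Measure.restrict_union_le _ _) (Filter.Eventually.of_forall hW0) (Integrable.add_measure (hi B) (hi C))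
        rwa [integral_add_measure (hi B) (hi C)] at h0

/-- **the windows, for the restricted statistic** -/
theorem winY {Λ : ℝ} (hΛ : 0 < Λ) : ∃ η c₁ θ : ℝ, 0 < η ∧ η < Λ ∧ 0 < c₁ ∧ 0 < θ ∧ θ ≤ 1 / 40 ∧
    (∀ᶠ T : ℝ in atTop, ∀ N : ℕ, (N : ℝ) ≤ T ^ θ → ∀ b : ℕ → ℂ, c₁ * (T * N2 N b) ≤
      ∫ t in Set.Icc T (2 * T) ∩ {t | Yt (ind 0 (2 * Real.pi * (Λ - η))) T t ∈ Set.Ici (Λ + η)}, ‖dp N b t‖ ^ 2) ∧
    (∀ᶠ T : ℝ in atTop, ∀ N : ℕ, (N : ℝ) ≤ T ^ θ → ∀ b : ℕ → ℂ, c₁ * (T * N2 N b) ≤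
      ∫ t in Set.Icc T (2 * T) ∩ {t | Yt (ind 0 (2 * Real.pi * (Λ + η))) T t ∈ Set.Iic (Λ - η)}, ‖dp N b t‖ ^ 2) := by
  have hπ := Real.pi_pos
  have hmu : mu (ind 0 (2 * Real.pi * Λ)) = Λ := by
    unfold mu
    rw [ind_int (by positivity)]
    field_simp
    ring
  obtain ⟨c, c₁, θ₁, hc, hc₁, hθ₁0, hθ₁1, h⟩ := tails (V := 2 * Real.pi * Λ + 1) (Q := 1) (ψ := ind 0 (2 * Real.pi * Λ)) (ind_pf le_rfl)
    (by have : 0 < 2 * Real.pi * Λ := by positivity
        linarith) le_rfl (by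
    rw [ind_int (by positivity), sub_zero]
    positivity)
  obtain ⟨η, hη⟩ : ∃ η, η = min (c₁ / 4) (min c (Λ / 2)) := ⟨_, rfl⟩
  have hη0 : 0 < η := by rw [hη]; positivity
  have hη1 : η ≤ c₁ / 4 := by rw [hη]; exact min_le_left _ _
  have hη2 : η ≤ c := by rw [hη]; exact (min_le_right _ _).trans (min_le_left _ _)
  have hη3 : η ≤ Λ / 2 := by rw [hη]; exact (min_le_right _ _).trans (min_le_right _ _)
  have ha1 : 0 ≤ 2 * Real.pi * (Λ - η) := by
    have : 0 ≤ Λ - η := by linarith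
    positivity
  have hab1 : 2 * Real.pi * (Λ - η) ≤ 2 * Real.pi * Λ := by
    refine mul_le_mul_of_nonneg_left (by linarith) (by positivity)
  have hab2 : 2 * Real.pi * Λ ≤ 2 * Real.pi * (Λ + η) := by
    refine mul_le_mul_of_nonneg_left (by linarith) (by positivity)
  have h0Λ : 0 ≤ 2 * Real.pi * Λ := by positivity
  obtain ⟨θ₂, hθ₂0, hθ₂1, hs1⟩ := short ha1 hab1 (ε := c₁ / 4) (by positivity) (by
    rw [← mul_sub, mul_div_assoc]
    have : Λ - (Λ - η) = η := by ring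
    rw [this, mul_comm (2 * Real.pi), div_mul_eq_mul_div, mul_div_assoc, div_self (by positivity), mul_one]
    exact hη1)
  obtain ⟨θ₃, hθ₃0, hθ₃1, hs2⟩ := short h0Λ hab2 (ε := c₁ / 4) (by positivity) (by
    rw [← mul_sub]
    have : Λ + η - Λ = η := by ring
    rw [this, mul_comm (2 * Real.pi), mul_div_assoc, div_self (by positivity), mul_one]
    exact hη1)
  refine ⟨η, c₁ / 2, min (min θ₁ θ₂) θ₃, hη0, by linarith, by positivity, by positivity, (min_le_right _ _).trans hθ₃1, ?_, ?_⟩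
  · filter_upwards [h, hs1, eventually_ge_atTop (16 : ℝ)] with T h hs hT N hN b
    have hT1 : (1 : ℝ) ≤ T := by linarith
    have hN1 : (N : ℝ) ≤ T ^ θ₁ := hN.trans (Real.rpow_le_rpow_of_exponent_le hT1 ((min_le_left _ _).trans (min_le_left _ _)))
    have hN2 : (N : ℝ) ≤ T ^ θ₂ := hN.trans (Real.rpow_le_rpow_of_exponent_le hT1 ((min_le_left _ _).trans (min_le_right _ _)))
    have h1 := (h N hN1 b).1
    have h2 := hs N hN2 b
    have h3 := split_le (T := T) (W := fun t => ‖dp N b t‖ ^ 2) (A := {t | c ≤ Xt (ind 0 (2 * Real.pi * Λ)) T t})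
      (B := {t | Yt (ind 0 (2 * Real.pi * (Λ - η))) T t ∈ Set.Ici (Λ + η)})
      (C := {t | 1 ≤ Yt (ind (2 * Real.pi * (Λ - η)) (2 * Real.pi * Λ)) T t}) ((dp_c N b).norm.pow 2) (fun t => sq_nonneg _) (by
        intro t ht
        rcases Yt_dich (2 * Real.pi * (Λ - η)) (2 * Real.pi * Λ) T t with h0 | h0
        · left
          have h4 : c ≤ Xt (ind 0 (2 * Real.pi * Λ)) T t := ht
          unfold Xt at h4
          rw [hmu, Yt_add ha1 hab1, h0] at h4
          show Λ + η ≤ _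
          linarith
        · exact Or.inr h0)
    beta_reduce at h3
    linarith
  · filter_upwards [h, hs2, eventually_ge_atTop (16 : ℝ)] with T h hs hT N hN b
    have hT1 : (1 : ℝ) ≤ T := by linarith
    have hN1 : (N : ℝ) ≤ T ^ θ₁ := hN.trans (Real.rpow_le_rpow_of_exponent_le hT1 ((min_le_left _ _).trans (min_le_left _ _)))
    have hN2 : (N : ℝ) ≤ T ^ θ₃ := hN.trans (Real.rpow_le_rpow_of_exponent_le hT1 (min_le_right _ _))
    have h1 := (h N hN1 b).2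
    have h2 := hs N hN2 b
    have h3 := split_le (T := T) (W := fun t => ‖dp N b t‖ ^ 2) (A := {t | c ≤ -Xt (ind 0 (2 * Real.pi * Λ)) T t})
      (B := {t | Yt (ind 0 (2 * Real.pi * (Λ + η))) T t ∈ Set.Iic (Λ - η)})
      (C := {t | 1 ≤ Yt (ind (2 * Real.pi * Λ) (2 * Real.pi * (Λ + η))) T t}) ((dp_c N b).norm.pow 2) (fun t => sq_nonneg _) (by
        intro t ht
        rcases Yt_dich (2 * Real.pi * Λ) (2 * Real.pi * (Λ + η)) T t with h0 | h0
        · left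
          have h4 : c ≤ -Xt (ind 0 (2 * Real.pi * Λ)) T t := ht
          have h5 := Yt_add h0Λ hab2 T t
          rw [h0, add_zero] at h5
          unfold Xt at h4
          rw [hmu, ← h5] at h4
          show _ ≤ Λ - η
          linarith
        · exact Or.inr h0)
    beta_reduce at h3
    linarith

/-- **the windows, with all zeros** -/
theorem winS {Λ : ℝ} (hΛ : 0 < Λ) : ∃ η c₁ θ : ℝ, 0 < η ∧ η < Λ ∧ 0 < c₁ ∧ 0 < θ ∧
    (∀ᶠ T : ℝ in atTop, ∀ N : ℕ, (N : ℝ) ≤ T ^ θ → ∀ b : ℕ → ℂ, c₁ * (T * N2 N b) ≤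
      ∫ t in {t : ℝ | t ∈ Set.Icc T (2 * T) ∧ st (ind 0 (2 * Real.pi * (Λ - η))) (Real.log T) t ∈ Set.Ici (Λ + η)}, ‖dp N b t‖ ^ 2) ∧
    (∀ᶠ T : ℝ in atTop, ∀ N : ℕ, (N : ℝ) ≤ T ^ θ → ∀ b : ℕ → ℂ, c₁ * (T * N2 N b) ≤
      ∫ t in {t : ℝ | t ∈ Set.Icc T (2 * T) ∧ st (ind 0 (2 * Real.pi * (Λ + η))) (Real.log T) t ∈ Set.Iic (Λ - η)}, ‖dp N b t‖ ^ 2) := by
  obtain ⟨η, c₁, θ, hη0, hη1, hc₁, hθ0, hθ1, h1, h2⟩ := winY hΛ
  exact ⟨η, c₁ / 2, θ, hη0, hη1, by positivity, hθ0, carry (ind_pf le_rfl) hc₁ hθ1 measurableSet_Ici h1,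
    carry (ind_pf le_rfl) hc₁ hθ1 measurableSet_Iic h2⟩

end

end Pool.Agent.H4.LG
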